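import Pool.Agent.Lib.MP_236c69_co.Steps

set_option autoImplicit false
set_option linter.unusedSectionVars false
set_option linter.unusedSimpArgs false
set_option linter.unusedVariables false

namespace Pool.Agent.Lib.MP_236c69_co

open Finset

variable {V : Type*} [DecidableEq V]

lemma base_six_a {G : Finset (Sym2 V)} {s : V → V} (h : Good G s) (v w u : V)
    (hv : s v ≠ v) (hw : s w ≠ w) (hu : s u ≠ u) (hwv : w ≠ v) (hwv' : w ≠ s v)
    (huv : u ≠ v) (huv' : u ≠ s v) (huw : u ≠ w) (huw' : u ≠ s w)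
    (hG : ∀ e ∈ G, e = s(v, w) ∨ e = s(v, s w) ∨ e = s(s v, w) ∨ e = s(s v, s w) ∨ e = s(v, u) ∨
      e = s(s v, s u) ∨ e = s(w, u) ∨ e = s(w, s u) ∨ e = s(s w, u) ∨ e = s(s w, s u)) :
    Sol G s := by
  have svsw : s v ≠ s w := fun h' => hwv (h.inj h').symm
  have svsu : s v ≠ s u := fun h' => huv (h.inj h').symm
  have swsu : s w ≠ s u := fun h' => huw (h.inj h').symm
  have vsw : v ≠ s w := by
    intro h'
    apply hwv'
    rw [h', h.inv]
  have vsu : v ≠ s u := by
    intro h'
    apply huv'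
    rw [h', h.inv]
  have wsu : w ≠ s u := by
    intro h'
    apply huw'
    rw [h', h.inv]
  refine base_sol h (insert s(s u, s w) (insert s(s w, u) (insert s(u, v) (insert s(v, w)
    (insert s(s v, w) ∅))))) ?_ (fun x => ind1 s v x + 2 * ind1 s w x + 3 * ind1 s u x)
    (fun x => ind2 s v x + 3 * ind2 s w x + 2 * ind2 s u x) ?_ ?_ ?_ ?_
  · refine forest_leaf (forest_leaf (forest_leaf (forest_leaf (forest_leaf forest_empty
      ?_ ?_) ?_ ?_) ?_ ?_) ?_ ?_) ?_ ?_
    · simp
    · exact hwv'
    · intro e he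
      simp only [mem_insert, notMem_empty, or_false] at he
      subst he
      rw [Sym2.mem_iff]
      tauto
    · exact hwv
    · intro e he
      simp only [mem_insert, notMem_empty, or_false] at he
      rcases he with rfl | rfl <;> rw [Sym2.mem_iff] <;> tauto
    · exact huv.symm
    · intro e he
      simp only [mem_insert, notMem_empty, or_false] at he
      rcases he with rfl | rfl | rfl <;> rw [Sym2.mem_iff] <;> tauto
    · exact huw'
    · intro e he
      simp only [mem_insert, notMem_empty, or_false] at he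
      rcases he with rfl | rfl | rfl | rfl <;> rw [Sym2.mem_iff] <;> tauto
    · exact swsu
  · intro x; simp only [ind1_s h.inv]
  · intro x; simp only [ind2_s h.inv]; ring
  · intro e he
    rcases hG e he with rfl | rfl | rfl | rfl | rfl | rfl | rfl | rfl | rfl | rfl <;>
      simp [h.inv, Sym2.eq_iff]
  · intro e he
    simp only [mem_insert, notMem_empty, or_false] at he
    rcases he with rfl | rfl | rfl | rfl | rfl <;>
      simp [prd_mk, ind1, ind2, h.inv, hv, hw, hu, hwv, hwv', huv, huv', huw, huw', svsw, svsu,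
        swsu, vsw, vsu, wsu, hv.symm, hw.symm, hu.symm, hwv.symm, hwv'.symm, huv.symm, huv'.symm,
        huw.symm, huw'.symm, svsw.symm, svsu.symm, swsu.symm, vsw.symm, vsu.symm, wsu.symm] <;>
      norm_num

lemma base_six_b {G : Finset (Sym2 V)} {s : V → V} (h : Good G s) (p q v u : V)
    (hp : s p = p) (hq : s q = q) (hpq : p ≠ q)
    (hv : s v ≠ v) (hu : s u ≠ u) (huv : u ≠ v) (huv' : u ≠ s v)
    (hG : ∀ e ∈ G, e = s(v, p) ∨ e = s(s v, p) ∨ e = s(v, q) ∨ e = s(s v, q) ∨ e = s(u, p) ∨
      e = s(s u, p) ∨ e = s(u, q) ∨ e = s(s u, q) ∨ e = s(v, u) ∨ e = s(s v, s u)) :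
    Sol G s := by
  have svsu : s v ≠ s u := fun h' => huv (h.inj h').symm
  have vsu : v ≠ s u := by
    intro h'
    apply huv'
    rw [h', h.inv]
  have pv : p ≠ v := by rintro rfl; exact hv hp
  have pu : p ≠ u := by rintro rfl; exact hu hp
  have qv : q ≠ v := by rintro rfl; exact hv hq
  have qu : q ≠ u := by rintro rfl; exact hu hq
  have psv : p ≠ s v := by
    intro h'
    apply pv
    rw [← hp] at h'
    exact h.inj h'
  have psu : p ≠ s u := by
    intro h'
    apply pu
    rw [← hp] at h'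
    exact h.inj h'
  have qsv : q ≠ s v := by
    intro h'
    apply qv
    rw [← hq] at h'
    exact h.inj h'
  have qsu : q ≠ s u := by
    intro h'
    apply qu
    rw [← hq] at h'
    exact h.inj h'
  refine base_sol h (insert s(u, q) (insert s(q, s v) (insert s(s v, s u) (insert s(s u, p)
    (insert s(v, p) ∅))))) ?_ (fun x => ind1 s v x + 2 * ind1 s u x + 3 * ind1 s q x)
    (fun x => ind2 s v x - ind2 s u x) ?_ ?_ ?_ ?_
  · refine forest_leaf (forest_leaf (forest_leaf (forest_leaf (forest_leaf forest_empty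
      ?_ ?_) ?_ ?_) ?_ ?_) ?_ ?_) ?_ ?_
    · simp
    · exact pv
    · intro e he
      simp only [mem_insert, notMem_empty, or_false] at he
      subst he
      rw [Sym2.mem_iff]
      tauto
    · exact psu
    · intro e he
      simp only [mem_insert, notMem_empty, or_false] at he
      rcases he with rfl | rfl <;> rw [Sym2.mem_iff] <;> tauto
    · exact svsu.symm
    · intro e he
      simp only [mem_insert, notMem_empty, or_false] at he
      rcases he with rfl | rfl | rfl <;> rw [Sym2.mem_iff] <;> tauto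
    · exact qsv.symm
    · intro e he
      simp only [mem_insert, notMem_empty, or_false] at he
      rcases he with rfl | rfl | rfl | rfl <;> rw [Sym2.mem_iff] <;> tauto
    · exact qu
  · intro x; simp only [ind1_s h.inv]
  · intro x; simp only [ind2_s h.inv]; ring
  · intro e he
    rcases hG e he with rfl | rfl | rfl | rfl | rfl | rfl | rfl | rfl | rfl | rfl <;>
      simp [h.inv, hp, hq, Sym2.eq_iff, pv, pu, qv, qu, psv, psu, qsv, qsu, pv.symm, pu.symm,
        qv.symm, qu.symm, psv.symm, psu.symm, qsv.symm, qsu.symm, hpq, hpq.symm]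
  · intro e he
    simp only [mem_insert, notMem_empty, or_false] at he
    rcases he with rfl | rfl | rfl | rfl | rfl <;>
      simp [prd_mk, ind1, ind2, h.inv, hp, hq, hv, hu, huv, huv', svsu, vsu, pv, pu, qv, qu, psv,
        psu, qsv, qsu, pv.symm, pu.symm, qv.symm, qu.symm, psv.symm, psu.symm, qsv.symm, qsu.symm,
        hv.symm, hu.symm, huv.symm, huv'.symm, svsu.symm, vsu.symm, hpq, hpq.symm] <;>
      norm_num

lemma base_K4b {G : Finset (Sym2 V)} {s : V → V} (h : Good G s) (t B C D : V)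
    (ht : s t = t) (hB : s B ≠ B) (hC : s C ≠ C) (hD : s D ≠ D)
    (BC : B ≠ C) (BD : B ≠ D) (CD : C ≠ D) (BsC : B ≠ s C) (BsD : B ≠ s D) (CsD : C ≠ s D)
    (hG : ∀ e ∈ G, e = s(t, B) ∨ e = s(t, C) ∨ e = s(t, D) ∨ e = s(B, C) ∨ e = s(B, D) ∨
      e = s(C, D) ∨ e = s(t, s B) ∨ e = s(t, s C) ∨ e = s(t, s D) ∨ e = s(s B, s C) ∨
      e = s(s B, s D) ∨ e = s(s C, s D)) :
    Sol G s := by
  have sBsC : s B ≠ s C := fun h' => BC (h.inj h')
  have sBsD : s B ≠ s D := fun h' => BD (h.inj h')
  have sCsD : s C ≠ s D := fun h' => CD (h.inj h')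
  have CsB : C ≠ s B := by
    intro h'
    apply BsC
    rw [h', h.inv]
  have DsB : D ≠ s B := by
    intro h'
    apply BsD
    rw [h', h.inv]
  have DsC : D ≠ s C := by
    intro h'
    apply CsD
    rw [h', h.inv]
  have tB : t ≠ B := by rintro rfl; exact hB ht
  have tC : t ≠ C := by rintro rfl; exact hC ht
  have tD : t ≠ D := by rintro rfl; exact hD ht
  have tsB : t ≠ s B := by
    intro h'
    apply tB
    rw [← ht] at h'
    exact h.inj h'
  have tsC : t ≠ s C := by
    intro h'
    apply tC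
    rw [← ht] at h'
    exact h.inj h'
  have tsD : t ≠ s D := by
    intro h'
    apply tD
    rw [← ht] at h'
    exact h.inj h'
  refine base_sol h (insert s(s D, s B) (insert s(s B, s C) (insert s(s C, t) (insert s(C, D)
    (insert s(D, t) (insert s(B, t) ∅)))))) ?_
    (fun x => ind1 s t x + 2 * ind1 s B x + 3 * ind1 s C x + 4 * ind1 s D x)
    (fun x => 2 * ind2 s B x - ind2 s C x + ind2 s D x) ?_ ?_ ?_ ?_
  · refine forest_leaf (forest_leaf (forest_leaf (forest_leaf (forest_leaf (forest_leaf forest_empty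
      ?_ ?_) ?_ ?_) ?_ ?_) ?_ ?_) ?_ ?_) ?_ ?_
    · simp
    · exact tB
    · intro e he
      simp only [mem_insert, notMem_empty, or_false] at he
      subst he
      rw [Sym2.mem_iff]
      tauto
    · exact tD
    · intro e he
      simp only [mem_insert, notMem_empty, or_false] at he
      rcases he with rfl | rfl <;> rw [Sym2.mem_iff] <;> tauto
    · exact CD.symm
    · intro e he
      simp only [mem_insert, notMem_empty, or_false] at he
      rcases he with rfl | rfl | rfl <;> rw [Sym2.mem_iff] <;> tauto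
    · exact tsC
    · intro e he
      simp only [mem_insert, notMem_empty, or_false] at he
      rcases he with rfl | rfl | rfl | rfl <;> rw [Sym2.mem_iff] <;> tauto
    · exact sBsC.symm
    · intro e he
      simp only [mem_insert, notMem_empty, or_false] at he
      rcases he with rfl | rfl | rfl | rfl | rfl <;> rw [Sym2.mem_iff] <;> tauto
    · exact sBsD
  · intro x; simp only [ind1_s h.inv]
  · intro x; simp only [ind2_s h.inv]; ring
  · intro e he
    rcases hG e he with rfl | rfl | rfl | rfl | rfl | rfl | rfl | rfl | rfl | rfl | rfl | rfl <;>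
      simp [h.inv, ht, Sym2.eq_iff, tB, tC, tD, tsB, tsC, tsD, tB.symm, tC.symm, tD.symm, tsB.symm,
        tsC.symm, tsD.symm]
  · intro e he
    simp only [mem_insert, notMem_empty, or_false] at he
    rcases he with rfl | rfl | rfl | rfl | rfl | rfl <;>
      simp [prd_mk, ind1, ind2, h.inv, ht, hB, hC, hD, BC, BD, CD, BsC, BsD, CsD, sBsC, sBsD, sCsD,
        CsB, DsB, DsC, tB, tC, tD, tsB, tsC, tsD, tB.symm, tC.symm, tD.symm, tsB.symm,
        tsC.symm, tsD.symm, hB.symm, hC.symm, hD.symm, BC.symm, BD.symm, CD.symm, BsC.symm,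
        BsD.symm, CsD.symm, sBsC.symm, sBsD.symm, sCsD.symm, CsB.symm, DsB.symm, DsC.symm] <;>
      norm_num

/-- Two disjoint forests joined by at most one edge. -/
lemma forest_three {T₁ T₂ T₃ : Finset (Sym2 V)} {A B : Finset V} (h1 : Forest T₁) (h2 : Forest T₂)
    (hA : T₁ ⊆ ins T₁ A) (hB : T₂ ⊆ ins T₂ B) (hAB : Disjoint A B)
    (h3 : T₃.card ≤ 1) (hT : ∀ e ∈ T₃, (∃ v ∈ e, v ∈ A) ∧ (∃ v ∈ e, v ∈ B))
    (hT' : ∀ e ∈ T₃, ∀ v ∈ e, v ∈ A ∨ v ∈ B) :
    Forest (T₁ ∪ T₂ ∪ T₃) := by
  intro X hX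
  have e1 : ins (T₁ ∪ T₂ ∪ T₃) X ⊆ ins T₁ (X ∩ A) ∪ ins T₂ (X ∩ B) ∪ ins T₃ X := by
    intro e he
    rw [mem_ins, mem_union, mem_union] at he
    rw [mem_union, mem_union, mem_ins, mem_ins, mem_ins]
    rcases he with ⟨(h | h) | h, h'⟩
    · left; left
      refine ⟨h, fun v hv => mem_inter.2 ⟨h' v hv, ?_⟩⟩
      exact (mem_ins.1 (hA h)).2 v hv
    · left; right
      refine ⟨h, fun v hv => mem_inter.2 ⟨h' v hv, ?_⟩⟩
      exact (mem_ins.1 (hB h)).2 v hv
    · right
      exact ⟨h, h'⟩
  have e2 := (card_le_card e1).trans ((card_union_le _ _).trans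
    (Nat.add_le_add_right (card_union_le _ _) _))
  have e3 : (X ∩ A).card + (X ∩ B).card ≤ X.card := by
    rw [← card_union_of_disjoint]
    · apply card_le_card
      intro v hv
      simp only [mem_inter, mem_union] at hv
      tauto
    · rw [disjoint_left] at hAB ⊢
      intro v hv hv'
      rw [mem_inter] at hv hv'
      exact hAB hv.2 hv'.2
  have z : ∀ T : Finset (Sym2 V), (ins T (∅ : Finset V)).card = 0 := by
    intro T
    rw [card_eq_zero]
    apply eq_empty_of_forall_notMem
    intro e he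
    rw [mem_ins] at he
    have := he.2 e.out.1 (Sym2.out_fst_mem e)
    simp at this
  have hpos := hX.card_pos
  have e4 : (ins T₃ X).card ≤ 1 := (card_le_card (ins_subset _ _)).trans h3
  have e5 : (X ∩ A = ∅ ∨ X ∩ B = ∅) → (ins T₃ X).card = 0 := by
    intro hor
    rw [card_eq_zero]
    apply eq_empty_of_forall_notMem
    intro e he
    rw [mem_ins] at he
    obtain ⟨⟨a, ha, haA⟩, ⟨b, hb, hbB⟩⟩ := hT e he.1
    rcases hor with h0 | h0
    · have : a ∈ X ∩ A := mem_inter.2 ⟨he.2 a ha, haA⟩
      rw [h0] at this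
      simp at this
    · have : b ∈ X ∩ B := mem_inter.2 ⟨he.2 b hb, hbB⟩
      rw [h0] at this
      simp at this
  rcases (X ∩ A).eq_empty_or_nonempty with a | a
  · have e6 := e5 (Or.inl a)
    rw [a, z] at e2
    rcases (X ∩ B).eq_empty_or_nonempty with b | b
    · rw [b, z] at e2
      omega
    · have := h2 _ b
      have h5 : (X ∩ B).card ≤ X.card := card_le_card inter_subset_left
      omega
  · have t1 := h1 _ a
    rcases (X ∩ B).eq_empty_or_nonempty with b | b
    · have e6 := e5 (Or.inr b)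
      rw [b, z] at e2
      have h5 : (X ∩ A).card ≤ X.card := card_le_card inter_subset_left
      omega
    · have := h2 _ b
      omega

lemma base_K4a {G : Finset (Sym2 V)} {s : V → V} (h : Good G s) (A B C D : V)
    (hA : s A ≠ A) (hB : s B ≠ B) (hC : s C ≠ C) (hD : s D ≠ D)
    (AB : A ≠ B) (AC : A ≠ C) (AD : A ≠ D) (BC : B ≠ C) (BD : B ≠ D) (CD : C ≠ D)
    (AsB : A ≠ s B) (AsC : A ≠ s C) (AsD : A ≠ s D)
    (BsC : B ≠ s C) (BsD : B ≠ s D) (CsD : C ≠ s D)
    (K : Finset V) (hK : K = {A, B, C, D})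
    (hG : ∀ e ∈ G, (∃ x ∈ K, ∃ y ∈ K, e = s(x, y)) ∨ (∃ x ∈ K, ∃ y ∈ K, e = s(s x, s y)) ∨
      (∃ x ∈ K, ∃ y ∈ K, e = s(x, s y)))
    (Cr : Finset (Sym2 V)) (hCr : ∀ e, e ∈ Cr ↔ e ∈ G ∧ (∃ x ∈ K, ∃ y ∈ K, e = s(x, s y)))
    (hCr2 : Cr.card ≤ 2) :
    Sol G s := by
  have sAsB : s A ≠ s B := fun h' => AB (h.inj h')
  have sAsC : s A ≠ s C := fun h' => AC (h.inj h')
  have sAsD : s A ≠ s D := fun h' => AD (h.inj h')
  have sBsC : s B ≠ s C := fun h' => BC (h.inj h')
  have sBsD : s B ≠ s D := fun h' => BD (h.inj h')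
  have sCsD : s C ≠ s D := fun h' => CD (h.inj h')
  have sw : ∀ x y : V, x ≠ s y → y ≠ s x := by
    intro x y hxy h'
    apply hxy
    rw [h', h.inv]
  have BsA := sw _ _ AsB
  have CsA := sw _ _ AsC
  have DsA := sw _ _ AsD
  have CsB := sw _ _ BsC
  have DsB := sw _ _ BsD
  have DsC := sw _ _ CsD
  obtain ⟨α, hα, ha⟩ : ∃ α : V → ℝ, α = (fun x => ind1 s A x + 2 * ind1 s B x + 3 * ind1 s C x +
      4 * ind1 s D x) ∧ ∀ v, α (s v) = α v := by
    refine ⟨_, rfl, ?_⟩
    intro x; simp only [ind1_s h.inv]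
  obtain ⟨β, hβ, hb⟩ : ∃ β : V → ℝ, β = (fun x => 2 * ind2 s A x + 4 * ind2 s B x + ind2 s C x +
      3 * ind2 s D x) ∧ ∀ v, β (s v) = - β v := by
    refine ⟨_, rfl, ?_⟩
    intro x; simp only [ind2_s h.inv]; ring
  have vals : α A = 1 ∧ α B = 2 ∧ α C = 3 ∧ α D = 4 ∧ β A = 2 ∧ β B = 4 ∧ β C = 1 ∧ β D = 3 := by
    rw [hα, hβ]
    simp [ind1, ind2, hA, hB, hC, hD, AB, AC, AD, BC, BD, CD, AsB, AsC, AsD, BsC, BsD, CsD,
      BsA, CsA, DsA, CsB, DsB, DsC, hA.symm, hB.symm, hC.symm, hD.symm, AB.symm, AC.symm,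
      AD.symm, BC.symm, BD.symm, CD.symm]
  obtain ⟨a1, a2, a3, a4, b1, b2, b3, b4⟩ := vals
  have hKm : ∀ x, x ∈ K ↔ x = A ∨ x = B ∨ x = C ∨ x = D := by
    intro x
    rw [hK]
    simp
  have hneg : ∀ x y, prd α β s(s x, s y) = - prd α β s(x, y) := by
    intro x y
    simp only [prd_mk, ha, hb]
    ring
  have hcross : ∀ x ∈ K, ∀ y ∈ K, s(x, s y) ∈ G → prd α β s(x, s y) ≠ 0 := by
    intro x hx y hy hxy
    have hne : x ≠ y := by
      rintro rfl
      exact h.ne_s hxy rfl
    rw [hKm] at hx hy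
    rcases hx with rfl | rfl | rfl | rfl <;> rcases hy with rfl | rfl | rfl | rfl <;>
      simp only [prd_mk, ha, hb, a1, a2, a3, a4, b1, b2, b3, b4] <;>
      first
        | exact absurd rfl hne
        | norm_num
  have hin : ∀ x ∈ K, ∀ y ∈ K, s(x, y) ∈ G → prd α β s(x, y) ≠ 0 := by
    intro x hx y hy hxy
    have hne : x ≠ y := h.ne hxy
    rw [hKm] at hx hy
    rcases hx with rfl | rfl | rfl | rfl <;> rcases hy with rfl | rfl | rfl | rfl <;>
      simp only [prd_mk, ha, hb, a1, a2, a3, a4, b1, b2, b3, b4] <;>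
      first
        | exact absurd rfl hne
        | norm_num
  -- the three forests
  set T₁ : Finset (Sym2 V) := insert s(C, D) (insert s(D, A) (insert s(B, A) ∅)) with hT₁
  set T₂ : Finset (Sym2 V) := insert s(s D, s B) (insert s(s B, s C) (insert s(s A, s C) ∅))
    with hT₂
  set T₃ : Finset (Sym2 V) := Cr.filter (fun e => 0 < prd α β e) with hT₃
  have F1 : Forest T₁ := by
    refine forest_leaf (forest_leaf (forest_leaf forest_empty ?_ ?_) ?_ ?_) ?_ ?_
    · simp
    · exact AB
    · intro e he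
      simp only [mem_insert, notMem_empty, or_false] at he
      subst he
      rw [Sym2.mem_iff]
      tauto
    · exact AD
    · intro e he
      simp only [mem_insert, notMem_empty, or_false] at he
      rcases he with rfl | rfl <;> rw [Sym2.mem_iff] <;> tauto
    · exact CD.symm
  have F2 : Forest T₂ := by
    refine forest_leaf (forest_leaf (forest_leaf forest_empty ?_ ?_) ?_ ?_) ?_ ?_
    · simp
    · exact sAsC.symm
    · intro e he
      simp only [mem_insert, notMem_empty, or_false] at he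
      subst he
      rw [Sym2.mem_iff]
      tauto
    · exact sBsC.symm
    · intro e he
      simp only [mem_insert, notMem_empty, or_false] at he
      rcases he with rfl | rfl <;> rw [Sym2.mem_iff] <;> tauto
    · exact sBsD
  have S1 : T₁ ⊆ ins T₁ K := by
    intro e he
    rw [mem_ins]
    refine ⟨he, ?_⟩
    intro v hv
    rw [hKm]
    simp only [hT₁, mem_insert, notMem_empty, or_false] at he
    rcases he with rfl | rfl | rfl <;> rw [Sym2.mem_iff] at hv <;> tauto
  have S2 : T₂ ⊆ ins T₂ (K.image s) := by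
    intro e he
    rw [mem_ins]
    refine ⟨he, ?_⟩
    intro v hv
    rw [h.mem_image_s, hKm]
    simp only [hT₂, mem_insert, notMem_empty, or_false] at he
    rcases he with rfl | rfl | rfl <;> rw [Sym2.mem_iff] at hv <;>
      rcases hv with rfl | rfl <;> simp [h.inv]
  have Dj : Disjoint K (K.image s) := by
    rw [disjoint_left]
    intro x hx hx'
    rw [h.mem_image_s] at hx'
    rw [hKm] at hx hx'
    rcases hx with rfl | rfl | rfl | rfl <;> rcases hx' with h' | h' | h' | h' <;>
      first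
        | exact hA h'
        | exact hB h'
        | exact hC h'
        | exact hD h'
        | exact AsB h'.symm
        | exact AsC h'.symm
        | exact AsD h'.symm
        | exact BsA h'.symm
        | exact BsC h'.symm
        | exact BsD h'.symm
        | exact CsA h'.symm
        | exact CsB h'.symm
        | exact CsD h'.symm
        | exact DsA h'.symm
        | exact DsB h'.symm
        | exact DsC h'.symm
  have S3 : T₃.card ≤ 1 := by
    have h1 : (T₃.image (Sym2.map s)).card = T₃.card := by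
      apply card_image_of_injective
      intro e f hef
      have := congrArg (Sym2.map s) hef
      rwa [h.map_map, h.map_map] at this
    have hneg' : ∀ e, prd α β (Sym2.map s e) = - prd α β e := by
      intro e
      induction e with
      | _ x y => exact hneg x y
    have h2 : Disjoint T₃ (T₃.image (Sym2.map s)) := by
      rw [disjoint_left]
      intro e he he'
      rw [mem_image] at he'
      obtain ⟨f, hf, rfl⟩ := he'
      rw [hT₃, mem_filter] at he hf
      rw [hneg'] at he
      linarith [he.2, hf.2]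
    have h3 : T₃ ∪ T₃.image (Sym2.map s) ⊆ Cr := by
      intro e he
      rw [mem_union, mem_image] at he
      rcases he with he | ⟨f, hf, rfl⟩
      · exact (mem_filter.1 he).1
      · have hf' := (mem_filter.1 hf).1
        rw [hCr] at hf' ⊢
        refine ⟨h.map_mem hf'.1, ?_⟩
        obtain ⟨x, hx, y, hy, rfl⟩ := hf'.2
        refine ⟨y, hy, x, hx, ?_⟩
        rw [Sym2.map_mk, h.inv, Sym2.eq_swap]
    have h4 := card_le_card h3
    rw [card_union_of_disjoint h2, h1] at h4
    omega
  have hTm : ∀ e ∈ T₃, ∃ x ∈ K, ∃ y ∈ K, e = s(x, s y) := by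
    intro e he
    exact ((hCr e).1 (mem_filter.1 he).1).2
  have F3 := forest_three F1 F2 S1 S2 Dj S3 (by
    intro e he
    obtain ⟨x, hx, y, hy, rfl⟩ := hTm e he
    refine ⟨⟨x, Sym2.mem_mk_left _ _, hx⟩, ⟨s y, Sym2.mem_mk_right _ _, ?_⟩⟩
    rw [h.mem_image_s, h.inv]
    exact hy) (by
    intro e he
    obtain ⟨x, hx, y, hy, rfl⟩ := hTm e he
    intro v hv
    rw [Sym2.mem_iff] at hv
    rcases hv with rfl | rfl
    · exact Or.inl hx
    · right
      rw [h.mem_image_s, h.inv]
      exact hy)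
  refine ⟨α, β, ha, hb, ?_, F3.mono ?_⟩
  · intro e he
    rcases hG e he with ⟨x, hx, y, hy, rfl⟩ | ⟨x, hx, y, hy, rfl⟩ | ⟨x, hx, y, hy, rfl⟩
    · exact hin x hx y hy he
    · rw [hneg]
      exact neg_ne_zero.2 (hin x hx y hy (h.sym_iff.1 he))
    · exact hcross x hx y hy he
  · intro e he
    rw [mem_pos] at he
    rw [mem_union, mem_union]
    rcases hG e he.1 with ⟨x, hx, y, hy, rfl⟩ | ⟨x, hx, y, hy, rfl⟩ | ⟨x, hx, y, hy, rfl⟩
    · left; left
      have hne : x ≠ y := h.ne he.1
      have hp := he.2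
      rw [hKm] at hx hy
      rcases hx with rfl | rfl | rfl | rfl <;> rcases hy with rfl | rfl | rfl | rfl <;>
        simp only [prd_mk, ha, hb, a1, a2, a3, a4, b1, b2, b3, b4] at hp <;>
        first
          | exact absurd rfl hne
          | (exfalso; norm_num at hp; done)
          | simp [hT₁, Sym2.eq_iff]
    · left; right
      have hne : x ≠ y := h.ne (h.sym_iff.1 he.1)
      have hp := he.2
      rw [hKm] at hx hy
      rcases hx with rfl | rfl | rfl | rfl <;> rcases hy with rfl | rfl | rfl | rfl <;>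
        simp only [prd_mk, ha, hb, a1, a2, a3, a4, b1, b2, b3, b4] at hp <;>
        first
          | exact absurd rfl hne
          | (exfalso; norm_num at hp; done)
          | simp [hT₂, Sym2.eq_iff]
    · right
      rw [hT₃, mem_filter, hCr]
      exact ⟨⟨he.1, ⟨x, hx, y, hy, rfl⟩⟩, he.2⟩

end Pool.Agent.Lib.MP_236c69_co
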