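import Mathlib

set_option autoImplicit false

namespace Pool.Agent.Lib.MP_236c69_co

open Finset

variable {V : Type*} [DecidableEq V]

/-- The edges of `G` with both ends in `X`. -/
def ins (G : Finset (Sym2 V)) (X : Finset V) : Finset (Sym2 V) := G.filter (fun e => e ∈ X.sym2)

lemma mem_ins {G : Finset (Sym2 V)} {X : Finset V} {e : Sym2 V} :
    e ∈ ins G X ↔ e ∈ G ∧ ∀ v ∈ e, v ∈ X := by
  simp [ins, Finset.mem_sym2_iff]

lemma mem_ins_mk {G : Finset (Sym2 V)} {X : Finset V} {u v : V} :
    s(u, v) ∈ ins G X ↔ s(u, v) ∈ G ∧ u ∈ X ∧ v ∈ X := by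
  simp [ins]

lemma ins_mono_left {G H : Finset (Sym2 V)} (h : G ⊆ H) (X : Finset V) : ins G X ⊆ ins H X := by
  intro e he
  rw [mem_ins] at he ⊢
  exact ⟨h he.1, he.2⟩

lemma ins_mono_right (G : Finset (Sym2 V)) {X Y : Finset V} (h : X ⊆ Y) : ins G X ⊆ ins G Y := by
  intro e he
  rw [mem_ins] at he ⊢
  exact ⟨he.1, fun v hv => h (he.2 v hv)⟩

lemma ins_subset (G : Finset (Sym2 V)) (X : Finset V) : ins G X ⊆ G := by
  intro e he
  rw [mem_ins] at he
  exact he.1

/-- `(2,2)`-sparsity. -/
def Sparse (G : Finset (Sym2 V)) : Prop :=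
  ∀ X : Finset V, X.Nonempty → (ins G X).card + 2 ≤ 2 * X.card

/-- `(1,1)`-sparsity, that is, being a forest. -/
def Forest (G : Finset (Sym2 V)) : Prop :=
  ∀ X : Finset V, X.Nonempty → (ins G X).card + 1 ≤ X.card

lemma Forest.mono {G H : Finset (Sym2 V)} (h : G ⊆ H) (hH : Forest H) : Forest G := by
  intro X hX
  have := hH X hX
  have h2 := card_le_card (ins_mono_left h X)
  omega

lemma Sparse.mono {G H : Finset (Sym2 V)} (h : G ⊆ H) (hH : Sparse H) : Sparse G := by
  intro X hX
  have := hH X hX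
  have h2 := card_le_card (ins_mono_left h X)
  omega

lemma forest_empty : Forest (∅ : Finset (Sym2 V)) := by
  intro X hX
  have : ins (∅ : Finset (Sym2 V)) X = ∅ := by
    apply Finset.eq_empty_of_forall_notMem
    intro e he
    rw [mem_ins] at he
    simp at he
  rw [this]
  have := hX.card_pos
  simp
  omega

lemma ins_erase {T : Finset (Sym2 V)} {u : V} (hu : ∀ e ∈ T, u ∉ e) (X : Finset V) :
    ins T X = ins T (X.erase u) := by
  ext e
  rw [mem_ins, mem_ins]
  constructor
  · rintro ⟨h1, h2⟩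
    refine ⟨h1, fun v hv => ?_⟩
    rw [mem_erase]
    refine ⟨?_, h2 v hv⟩
    rintro rfl
    exact hu e h1 hv
  · rintro ⟨h1, h2⟩
    exact ⟨h1, fun v hv => mem_of_mem_erase (h2 v hv)⟩

lemma ins_insert_sub (T : Finset (Sym2 V)) (c : Sym2 V) (X : Finset V) :
    ins (insert c T) X ⊆ insert c (ins T X) := by
  intro e he
  rw [mem_ins, mem_insert] at he
  rw [mem_insert, mem_ins]
  rcases he with ⟨h1 | h1, h2⟩
  · exact Or.inl h1
  · exact Or.inr ⟨h1, h2⟩

lemma ins_insert_of_not (T : Finset (Sym2 V)) {c : Sym2 V} {X : Finset V} {v : V} (hv : v ∈ c)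
    (hvX : v ∉ X) :
    ins (insert c T) X = ins T X := by
  ext e
  rw [mem_ins, mem_insert, mem_ins]
  constructor
  · rintro ⟨h1 | h1, h2⟩
    · subst h1
      exact absurd (h2 v hv) hvX
    · exact ⟨h1, h2⟩
  · rintro ⟨h1, h2⟩
    exact ⟨Or.inr h1, h2⟩

lemma card_ins_insert_le (T : Finset (Sym2 V)) (c : Sym2 V) (X : Finset V) :
    (ins (insert c T) X).card ≤ (ins T X).card + 1 :=
  (card_le_card (ins_insert_sub T c X)).trans (card_insert_le _ _)

lemma forest_leaf {T : Finset (Sym2 V)} {u w : V} (hT : Forest T) (hu : ∀ e ∈ T, u ∉ e)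
    (hw : w ≠ u) : Forest (insert s(u, w) T) := by
  intro X hX
  by_cases huX : u ∈ X
  · have h1 := card_ins_insert_le T s(u, w) X
    rcases (X.erase u).eq_empty_or_nonempty with h0 | h0
    · have hwX : w ∉ X := by
        intro hwX
        have : w ∈ X.erase u := mem_erase.2 ⟨hw, hwX⟩
        rw [h0] at this
        simp at this
      rw [ins_insert_of_not T (Sym2.mem_mk_right u w) hwX]
      exact hT X hX
    · have h2 := hT _ h0
      rw [← ins_erase hu X, card_erase_of_mem huX] at h2
      have := hX.card_pos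
      omega
  · rw [ins_insert_of_not T (Sym2.mem_mk_left u w) huX]
    exact hT X hX

lemma forest_subdiv {T : Finset (Sym2 V)} {v w₁ w₂ : V} (hT : Forest (insert s(w₁, w₂) T))
    (hn : s(w₁, w₂) ∉ T) (hv : ∀ e ∈ T, v ∉ e) (h1 : w₁ ≠ v) (h2 : w₂ ≠ v) :
    Forest (insert s(v, w₁) (insert s(v, w₂) T)) := by
  intro X hX
  have hTT : Forest T := hT.mono (subset_insert _ _)
  by_cases hvX : v ∈ X
  · have key : ∀ Y : Finset V, w₁ ∈ Y → w₂ ∈ Y → (ins T Y).card + 2 ≤ Y.card := by
      intro Y hy1 hy2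
      have h3 := hT Y ⟨w₁, hy1⟩
      have h4 : insert s(w₁, w₂) (ins T Y) ⊆ ins (insert s(w₁, w₂) T) Y := by
        intro e he
        rw [mem_insert, mem_ins] at he
        rw [mem_ins, mem_insert]
        rcases he with h | h
        · subst h
          refine ⟨Or.inl rfl, ?_⟩
          intro a ha
          rw [Sym2.mem_iff] at ha
          rcases ha with rfl | rfl <;> assumption
        · exact ⟨Or.inr h.1, h.2⟩
      have h5 := card_le_card h4
      rw [card_insert_of_notMem (fun h => hn (ins_subset _ _ h))] at h5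
      omega
    have hc : (X.erase v).card = X.card - 1 := card_erase_of_mem hvX
    have hpos := hX.card_pos
    by_cases a1 : w₁ ∈ X
    · by_cases a2 : w₂ ∈ X
      · have h3 := key (X.erase v) (mem_erase.2 ⟨h1, a1⟩) (mem_erase.2 ⟨h2, a2⟩)
        rw [← ins_erase hv X] at h3
        have h4 := card_ins_insert_le (insert s(v, w₂) T) s(v, w₁) X
        have h5 := card_ins_insert_le T s(v, w₂) X
        omega
      · have hne : (X.erase v).Nonempty := ⟨w₁, mem_erase.2 ⟨h1, a1⟩⟩
        have h3 := hTT _ hne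
        rw [← ins_erase hv X] at h3
        have h4 := card_ins_insert_le (insert s(v, w₂) T) s(v, w₁) X
        rw [ins_insert_of_not T (Sym2.mem_mk_right v w₂) a2] at h4
        omega
    · rw [ins_insert_of_not _ (Sym2.mem_mk_right v w₁) a1]
      by_cases a2 : w₂ ∈ X
      · have hne : (X.erase v).Nonempty := ⟨w₂, mem_erase.2 ⟨h2, a2⟩⟩
        have h3 := hTT _ hne
        rw [← ins_erase hv X] at h3
        have h4 := card_ins_insert_le T s(v, w₂) X
        omega
      · rw [ins_insert_of_not T (Sym2.mem_mk_right v w₂) a2]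
        exact hTT X hX
  · rw [ins_insert_of_not _ (Sym2.mem_mk_left v w₁) hvX,
      ins_insert_of_not _ (Sym2.mem_mk_left v w₂) hvX]
    exact hTT X hX

/-- Two forests on vertex sets which meet in at most one vertex. -/
lemma forest_union {T₁ T₂ : Finset (Sym2 V)} {A B : Finset V} (h1 : Forest T₁) (h2 : Forest T₂)
    (hA : T₁ ⊆ ins T₁ A) (hB : T₂ ⊆ ins T₂ B) (hAB : (A ∩ B).card ≤ 1) :
    Forest (T₁ ∪ T₂) := by
  intro X hX
  have e1 : ins (T₁ ∪ T₂) X ⊆ ins T₁ (X ∩ A) ∪ ins T₂ (X ∩ B) := by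
    intro e he
    rw [mem_ins, mem_union] at he
    rw [mem_union, mem_ins, mem_ins]
    rcases he with ⟨h | h, h'⟩
    · left
      refine ⟨h, fun v hv => mem_inter.2 ⟨h' v hv, ?_⟩⟩
      exact (mem_ins.1 (hA h)).2 v hv
    · right
      refine ⟨h, fun v hv => mem_inter.2 ⟨h' v hv, ?_⟩⟩
      exact (mem_ins.1 (hB h)).2 v hv
  have e2 := (card_le_card e1).trans (card_union_le _ _)
  have e3 : (X ∩ A).card + (X ∩ B).card ≤ X.card + 1 := by
    have := card_union_add_card_inter (X ∩ A) (X ∩ B)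
    have h3 : ((X ∩ A) ∩ (X ∩ B)).card ≤ 1 := by
      refine (card_le_card ?_).trans hAB
      intro v hv
      simp only [mem_inter] at hv ⊢
      exact ⟨hv.1.2, hv.2.2⟩
    have h4 : ((X ∩ A) ∪ (X ∩ B)).card ≤ X.card := by
      apply card_le_card
      intro v hv
      simp only [mem_inter, mem_union] at hv
      tauto
    omega
  have z : ∀ T : Finset (Sym2 V), (ins T (∅ : Finset V)).card = 0 := by
    intro T
    rw [card_eq_zero]
    apply eq_empty_of_forall_notMem
    intro e he
    rw [mem_ins] at he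
    have := he.2 e.out.1 (Sym2.out_fst_mem e)
    simp at this
  have hpos := hX.card_pos
  rcases (X ∩ A).eq_empty_or_nonempty with a | a
  · rw [a, z] at e2
    rcases (X ∩ B).eq_empty_or_nonempty with b | b
    · rw [b, z] at e2
      omega
    · have := h2 _ b
      have h5 : (X ∩ B).card ≤ X.card := card_le_card inter_subset_left
      omega
  · have t1 := h1 _ a
    rcases (X ∩ B).eq_empty_or_nonempty with b | b
    · rw [b, z] at e2
      have h5 : (X ∩ A).card ≤ X.card := card_le_card inter_subset_left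
      omega
    · have := h2 _ b
      omega

end Pool.Agent.Lib.MP_236c69_co
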