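import Pool.Agent.Lib.MP_236c69_co.Moves

set_option autoImplicit false
set_option linter.unusedSectionVars false
set_option linter.unusedSimpArgs false
set_option linter.unusedVariables false

namespace Pool.Agent.Lib.MP_236c69_co

open Finset Filter Topology

variable {V : Type*} [DecidableEq V]

/-- quotient graph -/
noncomputable def quo (G : Finset (Sym2 V)) (π : V → V) : Finset (Sym2 V) :=
  (G.filter (fun e => ¬ (Sym2.map π e).IsDiag)).image (Sym2.map π)

/-- edges inside the fibres -/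
noncomputable def inner (G : Finset (Sym2 V)) (π : V → V) : Finset (Sym2 V) :=
  G.filter (fun e => (Sym2.map π e).IsDiag)

lemma mem_inner {G : Finset (Sym2 V)} {π : V → V} {e : Sym2 V} :
    e ∈ inner G π ↔ e ∈ G ∧ (Sym2.map π e).IsDiag := by
  simp [inner]

lemma mem_quo {G : Finset (Sym2 V)} {π : V → V} {e : Sym2 V} :
    e ∈ quo G π ↔ ∃ f ∈ G, ¬ (Sym2.map π f).IsDiag ∧ Sym2.map π f = e := by
  simp only [quo, mem_image, mem_filter]
  constructor
  · rintro ⟨a, ⟨h1, h2⟩, h3⟩; exact ⟨a, h1, h2, h3⟩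
  · rintro ⟨a, h1, h2, h3⟩; exact ⟨a, ⟨h1, h2⟩, h3⟩

lemma prd_comp (α β : V → ℝ) (π : V → V) (e : Sym2 V) :
    prd (fun v => α (π v)) (fun v => β (π v)) e = prd α β (Sym2.map π e) := by
  induction e with
  | _ u v => simp

lemma prd_inner (α β α' β' : V → ℝ) (π : V → V) (ε : ℝ) (e : Sym2 V)
    (he : (Sym2.map π e).IsDiag) :
    prd (fun v => α (π v) + ε * α' v) (fun v => β (π v) + ε * β' v) e = ε ^ 2 * prd α' β' e := by
  induction e with
  | _ u v =>
    simp only [Sym2.map_mk, Sym2.mk_isDiag_iff] at he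
    simp only [prd_mk, he]
    ring

lemma sum_fibres_le (T : Finset (Sym2 V)) (π : V → V) (hT : Forest T)
    (hd : ∀ e ∈ T, (Sym2.map π e).IsDiag) (X : Finset V) :
    (ins T X).card + (X.image π).card ≤ X.card := by
  have h1 : ins T X ⊆ (X.image π).biUnion (fun y => ins T (X.filter (fun v => π v = y))) := by
    intro e he
    rw [mem_biUnion]
    have hd' := hd e (ins_subset _ _ he)
    revert he hd'
    induction e with
    | _ u v =>
      intro he hd'
      rw [mem_ins_mk] at he
      simp only [Sym2.map_mk, Sym2.mk_isDiag_iff] at hd'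
      refine ⟨π u, mem_image_of_mem _ he.2.1, ?_⟩
      rw [mem_ins_mk]
      refine ⟨he.1, mem_filter.2 ⟨he.2.1, rfl⟩, mem_filter.2 ⟨he.2.2, hd'.symm⟩⟩
  have h2 := (card_le_card h1).trans card_biUnion_le
  have h3 := card_eq_sum_card_image π X
  have h4 : ∑ y ∈ X.image π, ((ins T (X.filter (fun v => π v = y))).card + 1) ≤
      ∑ y ∈ X.image π, (X.filter (fun v => π v = y)).card := by
    apply sum_le_sum
    intro y hy
    apply hT
    rw [mem_image] at hy
    obtain ⟨v, hv, rfl⟩ := hy
    exact ⟨v, mem_filter.2 ⟨hv, rfl⟩⟩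
  rw [sum_add_distrib, sum_const, smul_eq_mul, mul_one] at h4
  omega

lemma inj_sym2 {G : Finset (Sym2 V)} {π : V → V}
    (hinj : ∀ u v u' v', s(u, v) ∈ G → s(u', v') ∈ G → π u = π u' → π v = π v' → π u ≠ π v →
      u = u' ∧ v = v') :
    ∀ e ∈ G, ∀ f ∈ G, ¬ (Sym2.map π e).IsDiag → Sym2.map π e = Sym2.map π f → e = f := by
  intro e
  induction e with
  | _ u v =>
    intro he f
    induction f with
    | _ u' v' =>
      intro hf hd hef
      simp only [Sym2.map_mk, Sym2.mk_isDiag_iff] at hd hef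
      rw [Sym2.eq_iff] at hef
      rcases hef with ⟨h5, h6⟩ | ⟨h5, h6⟩
      · obtain ⟨rfl, rfl⟩ := hinj _ _ _ _ he hf h5 h6 hd
        rfl
      · rw [Sym2.eq_swap] at hf
        obtain ⟨rfl, rfl⟩ := hinj _ _ _ _ he hf h5 h6 hd
        rw [Sym2.eq_swap]

theorem contract_sol {G : Finset (Sym2 V)} {s : V → V} (π s' : V → V)
    (hπ : ∀ v, π (s v) = s' (π v))
    (hinj : ∀ u v u' v', s(u, v) ∈ G → s(u', v') ∈ G → π u = π u' → π v = π v' → π u ≠ π v →
      u = u' ∧ v = v')
    (hS1 : Sol (quo G π) s') (hS2 : Sol (inner G π) s) : Sol G s := by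
  obtain ⟨α₁, β₁, ha1, hb1, hG1, hF1⟩ := hS1
  obtain ⟨α₂, β₂, ha2, hb2, hG2, hF2⟩ := hS2
  have E1 : ∀ᶠ ε in 𝓝[>] (0 : ℝ), ∀ e ∈ G, ¬ (Sym2.map π e).IsDiag →
      (prd (fun v => α₁ (π v) + ε * α₂ v) (fun v => β₁ (π v) + ε * β₂ v) e ≠ 0 ∧
        (0 < prd (fun v => α₁ (π v) + ε * α₂ v) (fun v => β₁ (π v) + ε * β₂ v) e ↔
          0 < prd α₁ β₁ (Sym2.map π e))) := by
    rw [Filter.eventually_all_finset]
    intro e he
    by_cases hd : (Sym2.map π e).IsDiag
    · filter_upwards with ε h
      exact absurd hd h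
    · have h0 : prd (fun v => α₁ (π v)) (fun v => β₁ (π v)) e ≠ 0 := by
        rw [prd_comp]
        exact hG1 _ (mem_quo.2 ⟨e, he, hd, rfl⟩)
      have := eventually_sign _ (prd_cont (fun v => α₁ (π v)) (fun v => β₁ (π v)) α₂ β₂ e)
        (by rw [prd_zero]; exact h0)
      simp only [prd_zero] at this
      filter_upwards [this] with ε hε _
      rw [prd_comp] at hε
      exact hε
  have E2 : ∀ᶠ ε in 𝓝[>] (0 : ℝ), 0 < ε := self_mem_nhdsWithin
  obtain ⟨ε, h1, h2⟩ := (E1.and E2).exists
  have hin : ∀ e, (Sym2.map π e).IsDiag →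
      prd (fun v => α₁ (π v) + ε * α₂ v) (fun v => β₁ (π v) + ε * β₂ v) e =
        ε ^ 2 * prd α₂ β₂ e := fun e he => prd_inner _ _ _ _ _ _ _ he
  refine ⟨fun v => α₁ (π v) + ε * α₂ v, fun v => β₁ (π v) + ε * β₂ v, ?_, ?_, ?_, ?_⟩
  · intro v; simp only [hπ, ha1, ha2]
  · intro v; simp only [hπ, hb1, hb2]; ring
  · intro e he
    by_cases hd : (Sym2.map π e).IsDiag
    · rw [hin e hd]
      exact mul_ne_zero (by positivity) (hG2 e (mem_inner.2 ⟨he, hd⟩))
    · exact (h1 e he hd).1
  · intro X hX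
    set T := pos G (fun v => α₁ (π v) + ε * α₂ v) (fun v => β₁ (π v) + ε * β₂ v) with hTdef
    have c1 : (ins T X).card ≤ (ins (pos (inner G π) α₂ β₂) X).card +
        ((ins T X).filter (fun e => ¬ (Sym2.map π e).IsDiag)).card := by
      rw [← card_filter_add_card_filter_not (s := ins T X) (fun e => (Sym2.map π e).IsDiag)]
      gcongr
      intro e he
      rw [mem_filter, mem_ins, mem_pos] at he
      obtain ⟨⟨⟨he1, he2⟩, he3⟩, he4⟩ := he
      rw [hin e he4] at he2
      rw [mem_ins, mem_pos, mem_inner]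
      refine ⟨⟨⟨he1, he4⟩, ?_⟩, he3⟩
      exact (pos_iff_pos_of_mul_pos he2).1 (by positivity)
    have c2 : ((ins T X).filter (fun e => ¬ (Sym2.map π e).IsDiag)).card ≤
        (ins (pos (quo G π) α₁ β₁) (X.image π)).card := by
      apply card_le_card_of_injOn (Sym2.map π)
      · intro e he
        rw [mem_coe, mem_filter, mem_ins, mem_pos] at he
        obtain ⟨⟨⟨he1, he2⟩, he3⟩, he4⟩ := he
        rw [mem_coe, mem_ins, mem_pos]
        refine ⟨⟨mem_quo.2 ⟨e, he1, he4, rfl⟩, (h1 e he1 he4).2.1 he2⟩, ?_⟩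
        intro v hv
        rw [Sym2.mem_map] at hv
        obtain ⟨a, ha, rfl⟩ := hv
        exact mem_image_of_mem _ (he3 a ha)
      · intro e he f hf hef
        rw [mem_coe, mem_filter, mem_ins, mem_pos] at he hf
        exact inj_sym2 hinj e he.1.1.1 f hf.1.1.1 he.2 hef
    have c3 := sum_fibres_le (pos (inner G π) α₂ β₂) π hF2
      (fun e he => (mem_inner.1 (mem_pos.1 he).1).2) X
    have c4 := hF1 (X.image π) (hX.image π)
    omega

lemma quo_sparse [Fintype V] {G : Finset (Sym2 V)} (π : V → V) (hG : Sparse G)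
    (hfib : ∀ v, (ins G (univ.filter (fun w => π w = π v))).card + 2 =
      2 * (univ.filter (fun w => π w = π v)).card) : Sparse (quo G π) := by
  intro Z hZ
  set W : Finset V := univ.filter (fun v => π v ∈ Z) with hW
  rcases W.eq_empty_or_nonempty with h0 | h0
  · have : ins (quo G π) Z = ∅ := by
      apply eq_empty_of_forall_notMem
      intro e he
      rw [mem_ins, mem_quo] at he
      obtain ⟨⟨f, hf, hd, rfl⟩, hz⟩ := he
      have h1 : f.out.1 ∈ W := by
        rw [hW, mem_filter]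
        refine ⟨mem_univ _, hz _ ?_⟩
        rw [Sym2.mem_map]
        exact ⟨_, Sym2.out_fst_mem f, rfl⟩
      rw [h0] at h1
      simp at h1
    rw [this]
    have := hZ.card_pos
    simp
    omega
  · have c1 := hG W h0
    have c2 : (ins (quo G π) Z).card ≤
        ((ins G W).filter (fun e => ¬ (Sym2.map π e).IsDiag)).card := by
      have : ins (quo G π) Z ⊆
          ((ins G W).filter (fun e => ¬ (Sym2.map π e).IsDiag)).image (Sym2.map π) := by
        intro e he
        rw [mem_ins, mem_quo] at he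
        obtain ⟨⟨f, hf, hd, rfl⟩, hz⟩ := he
        rw [mem_image]
        refine ⟨f, ?_, rfl⟩
        rw [mem_filter, mem_ins]
        refine ⟨⟨hf, ?_⟩, hd⟩
        intro v hv
        rw [hW, mem_filter]
        refine ⟨mem_univ _, hz _ ?_⟩
        rw [Sym2.mem_map]
        exact ⟨v, hv, rfl⟩
      exact (card_le_card this).trans card_image_le
    have c3 : ∑ y ∈ W.image π, (ins G (univ.filter (fun w => π w = y))).card ≤
        ((ins G W).filter (fun e => (Sym2.map π e).IsDiag)).card := by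
      rw [← card_biUnion]
      · apply card_le_card
        intro e he
        rw [mem_biUnion] at he
        obtain ⟨y, hy, he⟩ := he
        rw [mem_image] at hy
        obtain ⟨w, hw, rfl⟩ := hy
        rw [hW, mem_filter] at hw
        revert he
        induction e with
        | _ u v =>
          intro he
          rw [mem_ins_mk, mem_filter, mem_filter] at he
          rw [mem_filter, mem_ins_mk]
          refine ⟨⟨he.1, ?_, ?_⟩, ?_⟩
          · rw [hW, mem_filter, he.2.1.2]; exact ⟨mem_univ _, hw.2⟩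
          · rw [hW, mem_filter, he.2.2.2]; exact ⟨mem_univ _, hw.2⟩
          · simp only [Sym2.map_mk, Sym2.mk_isDiag_iff]
            rw [he.2.1.2, he.2.2.2]
      · intro y hy z hz hyz
        rw [Function.onFun, disjoint_left]
        intro e he hf
        rw [mem_ins] at he hf
        have h1 := he.2 _ (Sym2.out_fst_mem e)
        have h2 := hf.2 _ (Sym2.out_fst_mem e)
        rw [mem_filter] at h1 h2
        exact hyz (h1.2.symm.trans h2.2)
    have c4 := card_eq_sum_card_image π W
    have c5 : ∀ y ∈ W.image π, W.filter (fun v => π v = y) = univ.filter (fun v => π v = y) := by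
      intro y hy
      rw [mem_image] at hy
      obtain ⟨w, hw, rfl⟩ := hy
      rw [hW, mem_filter] at hw
      ext v
      simp only [hW, mem_filter, mem_univ, true_and]
      constructor
      · rintro ⟨_, h⟩; exact h
      · intro h; exact ⟨by rw [h]; exact hw.2, h⟩
    have c6 : ∑ y ∈ W.image π, ((ins G (univ.filter (fun w => π w = y))).card + 2) =
        ∑ y ∈ W.image π, 2 * (W.filter (fun v => π v = y)).card := by
      apply sum_congr rfl
      intro y hy
      rw [c5 y hy]
      rw [mem_image] at hy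
      obtain ⟨w, hw, rfl⟩ := hy
      exact hfib w
    rw [sum_add_distrib, sum_const, ← mul_sum, ← c4, smul_eq_mul] at c6
    have c7 := card_filter_add_card_filter_not (s := ins G W) (fun e => (Sym2.map π e).IsDiag)
    have c8 : (W.image π).card ≤ Z.card := by
      apply card_le_card
      intro y hy
      rw [mem_image] at hy
      obtain ⟨w, hw, rfl⟩ := hy
      rw [hW, mem_filter] at hw
      exact hw.2
    have c9 := (h0.image π).card_pos
    omega

theorem move_contract [Fintype V] {G : Finset (Sym2 V)} {s : V → V} (h : Good G s)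
    (π s' : V → V) (hs' : ∀ v, s' (s' v) = v) (hπ : ∀ v, π (s v) = s' (π v))
    (hinj : ∀ u v u' v', s(u, v) ∈ G → s(u', v') ∈ G → π u = π u' → π v = π v' → π u ≠ π v →
      u = u' ∧ v = v')
    (hfib : ∀ v, (ins G (univ.filter (fun w => π w = π v))).card + 2 =
      2 * (univ.filter (fun w => π w = π v)).card)
    (hin : ∃ e ∈ G, (Sym2.map π e).IsDiag) (hout : ∃ e ∈ G, ¬ (Sym2.map π e).IsDiag)
    (IH : ∀ (G' : Finset (Sym2 V)) (s' : V → V), G'.card < G.card → Good G' s' → Sol G' s') :
    Sol G s := by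
  have hc := card_filter_add_card_filter_not (s := G) (fun e => (Sym2.map π e).IsDiag)
  have hin' : 0 < (G.filter (fun e => (Sym2.map π e).IsDiag)).card := by
    obtain ⟨e, he, hd⟩ := hin
    exact card_pos.2 ⟨e, mem_filter.2 ⟨he, hd⟩⟩
  have hout' : 0 < (G.filter (fun e => ¬ (Sym2.map π e).IsDiag)).card := by
    obtain ⟨e, he, hd⟩ := hout
    exact card_pos.2 ⟨e, mem_filter.2 ⟨he, hd⟩⟩
  have hq : (quo G π).card ≤ (G.filter (fun e => ¬ (Sym2.map π e).IsDiag)).card := card_image_le
  have hquo : ∀ u v, s(u, v) ∈ quo G π → ∃ a b, s(a, b) ∈ G ∧ π a = u ∧ π b = v ∧ u ≠ v := by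
    intro u v huv
    rw [mem_quo] at huv
    obtain ⟨f, hf, hd, hfe⟩ := huv
    revert hf hd hfe
    induction f with
    | _ a b =>
      intro hf hd hfe
      simp only [Sym2.map_mk, Sym2.mk_isDiag_iff] at hd hfe
      rw [Sym2.eq_iff] at hfe
      rcases hfe with ⟨rfl, rfl⟩ | ⟨rfl, rfl⟩
      · exact ⟨a, b, hf, rfl, rfl, hd⟩
      · exact ⟨b, a, by rwa [Sym2.eq_swap], rfl, rfl, Ne.symm hd⟩
  refine contract_sol π s' hπ hinj (IH _ s' (by omega) ?_) (IH _ s ?_ ?_)
  · refine ⟨hs', ?_, ?_, quo_sparse π h.sparse hfib⟩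
    · intro u v huv
      obtain ⟨a, b, hab, rfl, rfl, hne⟩ := hquo u v huv
      rw [mem_quo]
      refine ⟨s(s a, s b), h.sym _ _ hab, ?_, ?_⟩
      · simp only [Sym2.map_mk, Sym2.mk_isDiag_iff, hπ]
        intro h'
        have := congrArg s' h'
        rw [hs', hs'] at this
        exact hne this
      · simp only [Sym2.map_mk, hπ]
    · intro u v huv heq
      obtain ⟨a, b, hab, rfl, rfl, hne⟩ := hquo u v huv
      rw [← hπ, ← hπ, Sym2.eq_iff] at heq
      rcases heq with ⟨h1, h2⟩ | ⟨h1, h2⟩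
      · obtain ⟨h3, h4⟩ := hinj _ _ _ _ (h.sym _ _ hab) hab h1 h2 (by rw [h1, h2]; exact hne)
        apply h.nofix _ _ hab
        rw [h3, h4]
      · obtain ⟨h3, h4⟩ := hinj _ _ _ _ (h.sym _ _ hab) (by rwa [Sym2.eq_swap] : s(b, a) ∈ G)
          h1 h2 (by rw [h1, h2]; exact hne.symm)
        apply h.nofix _ _ hab
        rw [h3, h4, Sym2.eq_swap]
  · show (G.filter (fun e => (Sym2.map π e).IsDiag)).card < G.card
    omega
  · refine ⟨h.inv, ?_, ?_, h.sparse.mono (filter_subset _ _)⟩
    · intro u v huv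
      rw [mem_inner] at huv ⊢
      refine ⟨h.sym _ _ huv.1, ?_⟩
      have := huv.2
      simp only [Sym2.map_mk, Sym2.mk_isDiag_iff] at this ⊢
      rw [hπ, hπ, this]
    · intro u v huv
      exact h.nofix _ _ (mem_inner.1 huv).1

end Pool.Agent.Lib.MP_236c69_co
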