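import Pool.Agent.Lib.MP_236c69_co.Main

set_option autoImplicit false
set_option linter.unusedSectionVars false
set_option linter.unusedSimpArgs false
set_option linter.unusedVariables false

namespace Pool.Agent.Lib.MP_236c69_co

open Finset

variable {V : Type*} [DecidableEq V] [Fintype V]

lemma handshake (G : Finset (Sym2 V)) : ∑ v : V, (nb G v).card ≤ 2 * G.card := by
  rw [← card_sigma]
  apply card_le_mul_card_image_of_maps_to (f := fun p : (_ : V) × V => s(p.1, p.2))
  · rintro ⟨v, w⟩ hp
    rw [mem_sigma] at hp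
    exact mem_nb.1 hp.2
  · intro e he
    induction e with
    | _ a b =>
      have : (univ.sigma (fun v : V => nb G v)).filter (fun p => s(p.1, p.2) = s(a, b)) ⊆
          {⟨a, b⟩, ⟨b, a⟩} := by
        rintro ⟨v, w⟩ hp
        rw [mem_filter] at hp
        have h2 := hp.2
        simp only at h2
        rw [Sym2.eq_iff] at h2
        simp only [mem_insert, mem_singleton]
        rcases h2 with ⟨rfl, rfl⟩ | ⟨rfl, rfl⟩
        · left; rfl
        · right; rfl
      exact (card_le_card this).trans card_le_two

lemma even_nb {G : Finset (Sym2 V)} {s : V → V} (h : Good G s) {u : V} (hu : s u = u) :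
    Even (nb G u).card := by
  apply even_of_invol _ s
  · intro a ha
    rw [mem_nb] at ha ⊢
    have := h.sym _ _ ha
    rwa [hu] at this
  · intro a _
    exact h.inv a
  · intro a ha
    rw [mem_nb] at ha
    exact h.not_fixed ha hu

/-- context of the last step -/
structure Ctx (G : Finset (Sym2 V)) (s : V → V) : Prop where
  good : Good G s
  IH : IHyp G
  Hdeg : ∀ u, (nb G u).card = 0 ∨ 3 ≤ (nb G u).card
  H4 : ∀ X : Finset V, Tight G X → 2 ≤ X.card → X ∪ X.image s = supp G
  nsol : ¬ Sol G s

lemma grow (G : Finset (Sym2 V)) (X : Finset V) (u : V) (A : Finset V) (h1 : u ∉ X) (h2 : A ⊆ X)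
    (h3 : ∀ w ∈ A, s(u, w) ∈ G) :
    (ins G X).card + A.card ≤ (ins G (insert u X)).card :=
  card_ins_insert_vertex G h1 h2 h3

lemma Ctx.H2 {G : Finset (Sym2 V)} {s : V → V} (c : Ctx G s) :
    ∀ Y : Finset V, (∀ v ∈ Y, s v ∈ Y) → 2 ≤ Y.card → Tight G Y → Y = supp G := by
  classical
  have h := c.good
  have hcon := c.nsol
  have IH := c.IH
  have Hdeg := c.Hdeg
  have H4 := c.H4
  intro Y h1 h2 h3
  rw [← H4 Y h3 h2]
  ext v
  rw [mem_union, h.mem_image_s]
  constructor
  · intro hv; exact Or.inl hv
  · rintro (hv | hv)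
    · exact hv
    · have := h1 _ hv
      rwa [h.inv] at this

lemma Ctx.red {G : Finset (Sym2 V)} {s : V → V} (c : Ctx G s) :
    ∀ u w₁ w₂, u ∈ supp G → w₁ ≠ u → w₂ ≠ u → w₁ ≠ s u → w₂ ≠ s u → w₁ ≠ w₂ →
      s(s w₁, s w₂) ≠ s(w₁, w₂) → 3 ≤ (nb G u).card →
      Sol (insert s(w₁, w₂) (insert s(s w₁, s w₂) (del G s u))) s := by
  classical
  have h := c.good
  have hcon := c.nsol
  have IH := c.IH
  have Hdeg := c.Hdeg
  have H4 := c.H4
  have H2 := c.H2
  intro u w₁ w₂ hu n1 n2 n1' n2' hw hfix h3
  apply IH _ _ (card_reduced_lt G s u _ _ h3)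
  apply h.reduce u w₁ w₂ n1 n2 n1' n2' hfix
  · intro Z z1 z2 z3 z4
    by_contra hc
    have hsp := h.sparse Z ⟨w₁, z3⟩
    have ht : Tight G Z := by
      unfold Tight
      omega
    have hZc : 2 ≤ Z.card := by
      have : ({w₁, w₂} : Finset V) ⊆ Z := by
        intro v hv
        simp only [mem_insert, mem_singleton] at hv
        rcases hv with rfl | rfl <;> assumption
      have := card_le_card this
      rwa [card_pair hw] at this
    have := H4 Z ht hZc
    rw [← this, mem_union, h.mem_image_s] at hu
    tauto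
  · intro Z z1 z2 z3 z4 z5 z6
    apply h.four_le u _ Z z1 z2 w₁ w₂ hw z3 z4 z5 z6
    intro Y y1 y2 y3 y4
    rw [H2 Y y1 y2 y4] at y3
    exact y3 hu

lemma Ctx.nonfixed3 {G : Finset (Sym2 V)} {s : V → V} (c : Ctx G s) :
    ∀ u, (nb G u).card = 3 → s u ≠ u := by
  classical
  have h := c.good
  have hcon := c.nsol
  have IH := c.IH
  have Hdeg := c.Hdeg
  have H4 := c.H4
  intro u h3 hu
  have := even_nb h hu
  rw [h3] at this
  exact absurd this (by decide)

lemma Ctx.pairP {G : Finset (Sym2 V)} {s : V → V} (c : Ctx G s) :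
    ∀ u x y z, (nb G u).card = 3 → s(u, x) ∈ G → s(u, y) ∈ G → s(u, z) ∈ G → x ≠ y →
      x ≠ z → y ≠ z → (∀ w, s(u, w) ∈ G → w = x ∨ w = y ∨ w = z) →
      s(x, y) ∈ G ∨ y = s x ∨ (s x = x ∧ s y = y) := by
  classical
  have h := c.good
  have hcon := c.nsol
  have IH := c.IH
  have Hdeg := c.Hdeg
  have H4 := c.H4
  have nonfixed3 := c.nonfixed3
  have red := c.red
  intro u x y z h3 hx hy hz hxy hxz hyz hN
  by_contra hc
  push Not at hc
  obtain ⟨c1, c2, c3⟩ := hc
  apply hcon
  refine move_three h u x y z (nonfixed3 u h3) hN hx hy hz hxz hyz c1 ?_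
  apply red u x y (mem_supp_of hx).1 (h.ne hx).symm (h.ne hy).symm (h.ne_s hx) (h.ne_s hy) hxy
  · intro h'
    rw [Sym2.eq_iff] at h'
    rcases h' with ⟨h5, h6⟩ | ⟨h5, h6⟩
    · exact c3 h5 h6
    · exact c2 h5.symm
  · omega

lemma Ctx.noSwap {G : Finset (Sym2 V)} {s : V → V} (c : Ctx G s) :
    ∀ u x y z, (nb G u).card = 3 → s(u, x) ∈ G → s(u, y) ∈ G → s(u, z) ∈ G → x ≠ y →
      x ≠ z → y ≠ z → (∀ w, s(u, w) ∈ G → w = x ∨ w = y ∨ w = z) → y = s x → False := by
  classical
  have h := c.good
  have hcon := c.nsol
  have IH := c.IH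
  have Hdeg := c.Hdeg
  have H4 := c.H4
  have H2 := c.H2
  have nonfixed3 := c.nonfixed3
  have pairP := c.pairP
  intro u x y z h3 hx hy hz hxy hxz hyz hN hswap
  have hu := nonfixed3 u h3
  have hxx : s x ≠ x := by rw [← hswap]; exact hxy.symm
  have p1 := pairP u x z y h3 hx hz hy hxz hxy hyz.symm (fun w hw => by
    rcases hN w hw with h1 | h1 | h1 <;> simp [h1])
  have p2 := pairP u y z x h3 hy hz hx hyz hxy.symm hxz.symm (fun w hw => by
    rcases hN w hw with h1 | h1 | h1 <;> simp [h1])
  have q1 : s(x, z) ∈ G := by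
    rcases p1 with p | p | p
    · exact p
    · rw [← hswap] at p; exact absurd p.symm hyz
    · exact absurd p.1 hxx
  have q2 : s(y, z) ∈ G := by
    rcases p2 with p | p | p
    · exact p
    · rw [hswap, h.inv] at p; exact absurd p.symm hxz
    · rw [hswap, h.inv] at p; exact absurd p.1.symm hxx
  subst hswap
  have xu : x ≠ u := (h.ne hx).symm
  have xsu : x ≠ s u := h.ne_s hx
  have sxu : s x ≠ u := (h.ne hy).symm
  have sxsu : s x ≠ s u := h.ne_s hy
  have zu : z ≠ u := (h.ne hz).symm
  have zsu : z ≠ s u := h.ne_s hz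
  have nbu : ∀ w, s(u, w) ∈ G ↔ (w = x ∨ w = s x ∨ w = z) := by
    intro w
    constructor
    · exact hN w
    · rintro (rfl | rfl | rfl) <;> assumption
  have nbsu : ∀ w, s(s u, w) ∈ G ↔ (w = x ∨ w = s x ∨ w = s z) := by
    intro w
    have e1 : s(s u, w) ∈ G ↔ s(u, s w) ∈ G := by
      rw [← h.sym_iff, h.inv]
    rw [e1, nbu]
    have e2 : ∀ p q : V, s p = q ↔ p = s q := by
      intro p q
      constructor
      · rintro rfl; exact (h.inv p).symm
      · rintro rfl; exact h.inv q
    rw [e2 w x, e2 w (s x), e2 w z, h.inv]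
    exact or_left_comm
  by_cases hzf : s z = z
  · -- wheel W4
    have szu : z ≠ x := hxz.symm
    have c0 := h.ins_single z
    have g1 := grow G {z} x {z} (by simp [hxz]) (by simp) (by simpa using q1)
    have g2 := grow G (insert x {z}) (s x) {z} (by simp [hyz, hxx]) (by simp) (by simpa using q2)
    have g3 := grow G (insert (s x) (insert x {z})) u (insert (s x) (insert x {z}))
      (by simp [sxu.symm, xu.symm, zu.symm]) (by simp) (by
        intro w hw
        simp only [mem_insert, mem_singleton] at hw
        rw [nbu]; rcases hw with h1 | h1 | h1 <;> simp [h1])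
    have g4 := grow G (insert u (insert (s x) (insert x {z}))) (s u) (insert (s x) (insert x {z}))
      (by simp [hu, sxsu.symm, xsu.symm, zsu.symm]) (by simp) (by
        intro w hw
        simp only [mem_insert, mem_singleton] at hw
        rw [nbsu, hzf]; rcases hw with h1 | h1 | h1 <;> simp [h1])
    have c3 : (insert (s x) (insert x ({z} : Finset V))).card = 3 := by
      rw [card_insert_of_notMem, card_pair hxz]
      simp [hyz, hxx]
    have c5 : (insert (s u) (insert u (insert (s x) (insert x ({z} : Finset V))))).card = 5 := by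
      rw [card_insert_of_notMem, card_insert_of_notMem, c3]
      · simp [sxu.symm, xu.symm, zu.symm]
      · simp [hu, sxsu.symm, xsu.symm, zsu.symm]
    rw [card_singleton] at g1 g2
    rw [c3] at g3 g4
    have hsp := h.sparse (insert (s u) (insert u (insert (s x) (insert x {z}))))
      (insert_nonempty _ _)
    rw [c5] at hsp
    have ht : Tight G (insert (s u) (insert u (insert (s x) (insert x {z})))) := by
      unfold Tight
      rw [c5]
      omega
    have hS := H2 (insert (s u) (insert u (insert (s x) (insert x {z})))) (by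
      intro v hv
      simp only [mem_insert, mem_singleton] at hv ⊢
      rcases hv with rfl | rfl | rfl | rfl | rfl
      · right; left; exact h.inv u
      · left; rfl
      · right; right; right; left; exact h.inv x
      · right; right; left; rfl
      · right; right; right; right; exact hzf) (by rw [c5]; omega) ht
    apply hcon
    refine base_W4 h z u x hzf hu hxx xu xsu ?_
    intro e
    induction e with
    | _ p q =>
      intro he
      have hm := mem_supp_of he
      rw [← hS] at hm
      have hpq := h.ne he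
      have hpq' := h.ne_s he
      simp only [mem_insert, mem_singleton] at hm
      obtain ⟨m1, m2⟩ := hm
      rcases m1 with rfl | rfl | rfl | rfl | rfl <;> rcases m2 with rfl | rfl | rfl | rfl | rfl <;>
        first
          | exact absurd rfl hpq
          | exact absurd rfl hpq'
          | (exfalso; exact hpq' (h.inv _).symm)
          | simp [Sym2.eq_swap]
  · -- six vertex graph
    have szsx : s z ≠ s x := fun h' => hxz (h.inj h').symm
    have szx : s z ≠ x := by
      intro h'
      apply hyz
      rw [← h', h.inv]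
    have szsu : s z ≠ s u := fun h' => zu (h.inj h')
    have szu : s z ≠ u := by
      intro h'
      apply zsu
      rw [← h', h.inv]
    have q1' : s(s z, s x) ∈ G := by
      have := h.sym _ _ q1
      rwa [Sym2.eq_swap] at this
    have q2' : s(s z, x) ∈ G := by
      have := h.sym _ _ q2
      rw [h.inv, Sym2.eq_swap] at this
      exact this
    have c0 := h.ins_single z
    have q1s : s(z, x) ∈ G := by rwa [Sym2.eq_swap]
    have q2s : s(z, s x) ∈ G := by rwa [Sym2.eq_swap]
    have g0 := h.ins_single x
    have g1 := grow G {x} (s x) ∅ (by simp [hxx]) (by simp) (by simp)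
    have g2 := grow G (insert (s x) {x}) z (insert (s x) {x}) (by simp [hyz.symm, hxz.symm])
      (by simp) (by
        intro w hw
        simp only [mem_insert, mem_singleton] at hw
        rcases hw with rfl | rfl <;> assumption)
    have g3 := grow G (insert z (insert (s x) {x})) (s z) (insert (s x) {x})
      (by simp [hzf, szsx, szx])
      (by simp) (by
        intro w hw
        simp only [mem_insert, mem_singleton] at hw
        rcases hw with rfl | rfl <;> assumption)
    have g4 := grow G (insert (s z) (insert z (insert (s x) {x}))) u (insert z (insert (s x) {x}))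
      (by simp [szu.symm, zu.symm, sxu.symm, xu.symm]) (by simp) (by
        intro w hw
        simp only [mem_insert, mem_singleton] at hw
        rw [nbu]; rcases hw with h1 | h1 | h1 <;> simp [h1])
    have g5 := grow G (insert u (insert (s z) (insert z (insert (s x) {x})))) (s u)
      (insert (s z) (insert (s x) {x}))
      (by simp [hu, szsu.symm, zsu.symm, sxsu.symm, xsu.symm]) (by
        intro w hw
        simp only [mem_insert, mem_singleton] at hw ⊢
        rcases hw with h1 | h1 | h1 <;> simp [h1]) (by
        intro w hw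
        simp only [mem_insert, mem_singleton] at hw
        rw [nbsu]; rcases hw with h1 | h1 | h1 <;> simp [h1])
    have c2 : (insert (s x) ({x} : Finset V)).card = 2 := card_pair hxx
    have c3 : (insert z (insert (s x) ({x} : Finset V))).card = 3 := by
      rw [card_insert_of_notMem, c2]
      simp [hyz.symm, hxz.symm]
    have c3' : (insert (s z) (insert (s x) ({x} : Finset V))).card = 3 := by
      rw [card_insert_of_notMem, c2]
      simp [szsx, szx]
    have c6 : (insert (s u) (insert u (insert (s z) (insert z (insert (s x)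
        ({x} : Finset V)))))).card = 6 := by
      rw [card_insert_of_notMem, card_insert_of_notMem, card_insert_of_notMem, c3]
      · simp [hzf, szsx, szx]
      · simp [szu.symm, zu.symm, sxu.symm, xu.symm]
      · simp [hu, szsu.symm, zsu.symm, sxsu.symm, xsu.symm]
    rw [card_empty] at g1
    rw [c2] at g2 g3
    rw [c3] at g4
    rw [c3'] at g5
    have hsp := h.sparse (insert (s u) (insert u (insert (s z) (insert z (insert (s x) {x})))))
      (insert_nonempty _ _)
    rw [c6] at hsp
    have ht : Tight G (insert (s u) (insert u (insert (s z) (insert z (insert (s x) {x}))))) := by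
      unfold Tight
      rw [c6]
      omega
    have hS := H2 (insert (s u) (insert u (insert (s z) (insert z (insert (s x) {x}))))) (by
      intro v hv
      simp only [mem_insert, mem_singleton] at hv ⊢
      rcases hv with rfl | rfl | rfl | rfl | rfl | rfl
      · right; left; exact h.inv u
      · left; rfl
      · right; right; right; left; exact h.inv z
      · right; right; left; rfl
      · right; right; right; right; right; exact h.inv _
      · right; right; right; right; left; rfl) (by rw [c6]; omega) ht
    apply hcon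
    have nuz : s(u, s z) ∉ G := by
      rw [nbu]
      push Not
      exact ⟨szx, szsx, hzf⟩
    have nsuz : s(s u, z) ∉ G := by
      rw [nbsu]
      push Not
      exact ⟨hxz.symm, hyz.symm, fun h' => hzf h'.symm⟩
    refine base_six_a h u x z hu hxx hzf xu xsu zu zsu hxz.symm hyz.symm ?_
    intro e
    induction e with
    | _ p q =>
      intro he
      have hm := mem_supp_of he
      rw [← hS] at hm
      have hpq := h.ne he
      have hpq' := h.ne_s he
      have he' : s(q, p) ∈ G := by rwa [Sym2.eq_swap]
      simp only [mem_insert, mem_singleton] at hm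
      obtain ⟨m1, m2⟩ := hm
      rcases m1 with rfl | rfl | rfl | rfl | rfl | rfl <;>
        rcases m2 with rfl | rfl | rfl | rfl | rfl | rfl <;>
        first
          | exact absurd rfl hpq
          | exact absurd rfl hpq'
          | (exfalso; exact hpq' (h.inv _).symm)
          | (simp [Sym2.eq_swap]; done)
          | exact absurd he nuz
          | exact absurd he nsuz
          | exact absurd he' nuz
          | exact absurd he' nsuz

lemma Ctx.noTwo {G : Finset (Sym2 V)} {s : V → V} (c : Ctx G s) :
    ∀ u x y z, (nb G u).card = 3 → s(u, x) ∈ G → s(u, y) ∈ G → s(u, z) ∈ G → x ≠ y →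
      x ≠ z → y ≠ z → (∀ w, s(u, w) ∈ G → w = x ∨ w = y ∨ w = z) → s x = x → s y = y → s z ≠ z →
      False := by
  classical
  have h := c.good
  have hcon := c.nsol
  have IH := c.IH
  have Hdeg := c.Hdeg
  have H4 := c.H4
  have H2 := c.H2
  have nonfixed3 := c.nonfixed3
  have pairP := c.pairP
  intro u x y z h3 hx hy hz hxy hxz hyz hN fx fy fz
  have hu := nonfixed3 u h3
  have p1 := pairP u x z y h3 hx hz hy hxz hxy hyz.symm (fun w hw => by
    rcases hN w hw with h1 | h1 | h1 <;> simp [h1])
  have p2 := pairP u y z x h3 hy hz hx hyz hxy.symm hxz.symm (fun w hw => by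
    rcases hN w hw with h1 | h1 | h1 <;> simp [h1])
  have q1 : s(x, z) ∈ G := by
    rcases p1 with p | p | p
    · exact p
    · rw [fx] at p; exact absurd p.symm hxz
    · exact absurd p.2 fz
  have q2 : s(y, z) ∈ G := by
    rcases p2 with p | p | p
    · exact p
    · rw [fy] at p; exact absurd p.symm hyz
    · exact absurd p.2 fz
  have xu : x ≠ u := (h.ne hx).symm
  have xsu : x ≠ s u := h.ne_s hx
  have yu : y ≠ u := (h.ne hy).symm
  have ysu : y ≠ s u := h.ne_s hy
  have zu : z ≠ u := (h.ne hz).symm
  have zsu : z ≠ s u := h.ne_s hz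
  have szx : s z ≠ x := by
    intro h'
    apply hxz
    rw [← fx] at h'
    exact (h.inj h').symm
  have szy : s z ≠ y := by
    intro h'
    apply hyz
    rw [← fy] at h'
    exact (h.inj h').symm
  have szsu : s z ≠ s u := fun h' => zu (h.inj h')
  have szu : s z ≠ u := by
    intro h'
    apply zsu
    rw [← h', h.inv]
  have nbu : ∀ w, s(u, w) ∈ G ↔ (w = x ∨ w = y ∨ w = z) := by
    intro w
    constructor
    · exact hN w
    · rintro (rfl | rfl | rfl) <;> assumption
  have nbsu : ∀ w, s(s u, w) ∈ G ↔ (w = x ∨ w = y ∨ w = s z) := by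
    intro w
    have e1 : s(s u, w) ∈ G ↔ s(u, s w) ∈ G := by
      rw [← h.sym_iff, h.inv]
    rw [e1, nbu]
    have e2 : ∀ p q : V, s p = q ↔ p = s q := by
      intro p q
      constructor
      · rintro rfl; exact (h.inv p).symm
      · rintro rfl; exact h.inv q
    rw [e2 w x, e2 w y, e2 w z, fx, fy]
  have q1s : s(z, x) ∈ G := by rwa [Sym2.eq_swap]
  have q2s : s(z, y) ∈ G := by rwa [Sym2.eq_swap]
  have q1' : s(s z, x) ∈ G := by
    have := h.sym _ _ q1s
    rwa [fx] at this
  have q2' : s(s z, y) ∈ G := by
    have := h.sym _ _ q2s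
    rwa [fy] at this
  have g0 := h.ins_single x
  have g1 := grow G {x} y ∅ (by simp [hxy.symm]) (by simp) (by simp)
  have g2 := grow G (insert y {x}) z (insert y {x}) (by simp [hyz.symm, hxz.symm])
    (by simp) (by
      intro w hw
      simp only [mem_insert, mem_singleton] at hw
      rcases hw with rfl | rfl <;> assumption)
  have g3 := grow G (insert z (insert y {x})) (s z) (insert y {x})
    (by simp [fz, szx, szy])
    (by simp) (by
      intro w hw
      simp only [mem_insert, mem_singleton] at hw
      rcases hw with rfl | rfl <;> assumption)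
  have g4 := grow G (insert (s z) (insert z (insert y {x}))) u (insert z (insert y {x}))
    (by simp [szu.symm, zu.symm, yu.symm, xu.symm]) (by simp) (by
      intro w hw
      simp only [mem_insert, mem_singleton] at hw
      rw [nbu]; rcases hw with h1 | h1 | h1 <;> simp [h1])
  have g5 := grow G (insert u (insert (s z) (insert z (insert y {x})))) (s u)
    (insert (s z) (insert y {x}))
    (by simp [hu, szsu.symm, zsu.symm, ysu.symm, xsu.symm]) (by
      intro w hw
      simp only [mem_insert, mem_singleton] at hw ⊢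
      rcases hw with h1 | h1 | h1 <;> simp [h1]) (by
      intro w hw
      simp only [mem_insert, mem_singleton] at hw
      rw [nbsu]; rcases hw with h1 | h1 | h1 <;> simp [h1])
  have c2 : (insert y ({x} : Finset V)).card = 2 := card_pair hxy.symm
  have c3 : (insert z (insert y ({x} : Finset V))).card = 3 := by
    rw [card_insert_of_notMem, c2]
    simp [hyz.symm, hxz.symm]
  have c3' : (insert (s z) (insert y ({x} : Finset V))).card = 3 := by
    rw [card_insert_of_notMem, c2]
    simp [szy, szx]
  have c6 : (insert (s u) (insert u (insert (s z) (insert z (insert y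
      ({x} : Finset V)))))).card = 6 := by
    rw [card_insert_of_notMem, card_insert_of_notMem, card_insert_of_notMem, c3]
    · simp [fz, szx, szy]
    · simp [szu.symm, zu.symm, yu.symm, xu.symm]
    · simp [hu, szsu.symm, zsu.symm, ysu.symm, xsu.symm]
  rw [card_empty] at g1
  rw [c2] at g2 g3
  rw [c3] at g4
  rw [c3'] at g5
  have hsp := h.sparse (insert (s u) (insert u (insert (s z) (insert z (insert y {x})))))
    (insert_nonempty _ _)
  rw [c6] at hsp
  have ht : Tight G (insert (s u) (insert u (insert (s z) (insert z (insert y {x}))))) := by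
    unfold Tight
    rw [c6]
    omega
  have hS := H2 (insert (s u) (insert u (insert (s z) (insert z (insert y {x}))))) (by
    intro v hv
    simp only [mem_insert, mem_singleton] at hv ⊢
    rcases hv with rfl | rfl | rfl | rfl | rfl | rfl
    · right; left; exact h.inv u
    · left; rfl
    · right; right; right; left; exact h.inv z
    · right; right; left; rfl
    · right; right; right; right; left; exact fy
    · right; right; right; right; right; exact fx) (by rw [c6]; omega) ht
  apply hcon
  have nuz : s(u, s z) ∉ G := by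
    rw [nbu]
    push Not
    exact ⟨szx, szy, fz⟩
  have nsuz : s(s u, z) ∉ G := by
    rw [nbsu]
    push Not
    exact ⟨hxz.symm, hyz.symm, fun h' => fz h'.symm⟩
  refine base_six_b h x y u z fx fy hxy hu fz zu zsu ?_
  intro e
  induction e with
  | _ p q =>
    intro he
    have hm := mem_supp_of he
    rw [← hS] at hm
    have hpq := h.ne he
    have hpq' := h.ne_s he
    have he' : s(q, p) ∈ G := by rwa [Sym2.eq_swap]
    have hf := h.not_fixed he
    have hf' := h.not_fixed he'
    simp only [mem_insert, mem_singleton] at hm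
    obtain ⟨m1, m2⟩ := hm
    rcases m1 with rfl | rfl | rfl | rfl | rfl | rfl <;>
      rcases m2 with rfl | rfl | rfl | rfl | rfl | rfl <;>
      first
        | exact absurd rfl hpq
        | exact absurd rfl hpq'
        | (exfalso; exact hpq' (h.inv _).symm)
        | (exfalso; exact hf fx fy)
        | (exfalso; exact hf fy fx)
        | (simp [Sym2.eq_swap]; done)
        | exact absurd he nuz
        | exact absurd he nsuz
        | exact absurd he' nuz
        | exact absurd he' nsuz

lemma Ctx.noK4t {G : Finset (Sym2 V)} {s : V → V} (c : Ctx G s) :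
    ∀ u x y z, (nb G u).card = 3 → s(u, x) ∈ G → s(u, y) ∈ G → s(u, z) ∈ G → x ≠ y →
      x ≠ z → y ≠ z → (∀ w, s(u, w) ∈ G → w = x ∨ w = y ∨ w = z) → s(x, y) ∈ G → s(x, z) ∈ G →
      s(y, z) ∈ G → s x = x → False := by
  classical
  have h := c.good
  have hcon := c.nsol
  have IH := c.IH
  have Hdeg := c.Hdeg
  have H4 := c.H4
  have H2 := c.H2
  have nonfixed3 := c.nonfixed3
  have pairP := c.pairP
  intro u x y z h3 hx hy hz hxy hxz hyz hN exy exz eyz fx
  have hu := nonfixed3 u h3
  have fy : s y ≠ y := h.not_fixed exy fx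
  have fz : s z ≠ z := h.not_fixed exz fx
  have xu : x ≠ u := (h.ne hx).symm
  have yu : y ≠ u := (h.ne hy).symm
  have zu : z ≠ u := (h.ne hz).symm
  have ysu : y ≠ s u := h.ne_s hy
  have zsu : z ≠ s u := h.ne_s hz
  have xsu : x ≠ s u := h.ne_s hx
  have zsy : z ≠ s y := h.ne_s eyz
  have ysz : y ≠ s z := by
    intro h'
    apply zsy
    rw [h', h.inv]
  have usy : u ≠ s y := by
    intro h'
    apply ysu
    rw [h', h.inv]
  have usz : u ≠ s z := by
    intro h'
    apply zsu
    rw [h', h.inv]
  have g0 := h.ins_single x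
  have g1 := grow G {x} y {x} (by simp [hxy.symm]) (by simp) (by
    intro w hw
    rw [mem_singleton] at hw
    subst hw
    rwa [Sym2.eq_swap])
  have g2 := grow G (insert y {x}) z (insert y {x}) (by simp [hyz.symm, hxz.symm])
    (by simp) (by
      intro w hw
      simp only [mem_insert, mem_singleton] at hw
      rcases hw with rfl | rfl <;> rwa [Sym2.eq_swap])
  have g3 := grow G (insert z (insert y {x})) u (insert z (insert y {x}))
    (by simp [zu.symm, yu.symm, xu.symm]) (by simp) (by
      intro w hw
      simp only [mem_insert, mem_singleton] at hw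
      rcases hw with rfl | rfl | rfl <;> assumption)
  have c2 : (insert y ({x} : Finset V)).card = 2 := card_pair hxy.symm
  have c3 : (insert z (insert y ({x} : Finset V))).card = 3 := by
    rw [card_insert_of_notMem, c2]
    simp [hyz.symm, hxz.symm]
  have c4 : (insert u (insert z (insert y ({x} : Finset V)))).card = 4 := by
    rw [card_insert_of_notMem, c3]
    simp [zu.symm, yu.symm, xu.symm]
  obtain ⟨K, hK⟩ : ∃ K : Finset V, K = insert u (insert z (insert y {x})) := ⟨_, rfl⟩
  rw [← hK] at g3 c4
  rw [card_singleton] at g1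
  rw [c2] at g2
  rw [c3] at g3
  have hKm : ∀ v, v ∈ K ↔ v = u ∨ v = z ∨ v = y ∨ v = x := by
    intro v; rw [hK]; simp
  have hsp := h.sparse K (by rw [← card_pos]; omega)
  have ht : Tight G K := by
    unfold Tight
    omega
  have hS := H4 K ht (by omega)
  have hKs : ∀ v ∈ K, s v ∈ K → v = x := by
    intro v hv hsv
    rw [hKm] at hv hsv
    rcases hv with rfl | rfl | rfl | rfl
    · rcases hsv with h' | h' | h' | h'
      · exact absurd h' hu
      · exact absurd h'.symm zsu
      · exact absurd h'.symm ysu
      · exact absurd h'.symm xsu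
    · rcases hsv with h' | h' | h' | h'
      · exact absurd h'.symm usz
      · exact absurd h' fz
      · exact absurd h'.symm ysz
      · rw [← fx] at h'; exact absurd (h.inj h').symm hxz
    · rcases hsv with h' | h' | h' | h'
      · exact absurd h'.symm usy
      · exact absurd h'.symm zsy
      · exact absurd h' fy
      · rw [← fx] at h'; exact absurd (h.inj h').symm hxy
    · rfl
  have hxK : x ∈ K := by rw [hKm]; simp
  have hinter : K ∩ K.image s = {x} := by
    ext v
    rw [mem_inter, h.mem_image_s, mem_singleton]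
    constructor
    · rintro ⟨h1, h2⟩; exact hKs v h1 h2
    · rintro rfl
      rw [fx]
      exact ⟨hxK, hxK⟩
  have hun := card_union_add_card_inter K (K.image s)
  rw [h.card_image, hinter, card_singleton] at hun
  have hsp2 := h.sparse (K ∪ K.image s) ⟨x, by rw [mem_union]; exact Or.inl hxK⟩
  have noCross : ∀ a ∈ K, ∀ b ∈ K, s a ∉ K → s b ∉ K → s(a, s b) ∉ G := by
    intro a ha b hb ha' hb' hab
    have := card_cross h K {s(a, s b)} (by
      intro e he
      rw [mem_singleton] at he
      subst he
      exact ⟨hab, a, ha, b, hb, ha', hb', rfl⟩)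
    rw [hinter, h.ins_single x, card_singleton] at this
    unfold Tight at ht
    omega
  apply hcon
  refine base_K4b h x u y z fx hu fy fz yu.symm zu.symm hyz usy usz ysz ?_
  have main : ∀ p q, s(p, q) ∈ G → p ∈ K → q ∈ K → (s(p, q) = s(x, u) ∨ s(p, q) = s(x, y) ∨
      s(p, q) = s(x, z) ∨ s(p, q) = s(u, y) ∨ s(p, q) = s(u, z) ∨ s(p, q) = s(y, z)) := by
    intro p q hpq hp hq
    have hne := h.ne hpq
    rw [hKm] at hp hq
    rcases hp with rfl | rfl | rfl | rfl <;> rcases hq with rfl | rfl | rfl | rfl <;>
      first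
        | exact absurd rfl hne
        | simp [Sym2.eq_swap]
  intro e
  induction e with
  | _ p q =>
    intro he
    have hm := mem_supp_of he
    rw [← hS, mem_union, mem_union, h.mem_image_s, h.mem_image_s] at hm
    by_cases hp : p ∈ K ∧ q ∈ K
    · have := main p q he hp.1 hp.2
      rcases this with h1 | h1 | h1 | h1 | h1 | h1 <;> simp [h1]
    · by_cases hsp3 : s p ∈ K ∧ s q ∈ K
      · have := main (s p) (s q) (h.sym _ _ he) hsp3.1 hsp3.2
        have conv : ∀ a b, s(s p, s q) = s(a, b) → s(p, q) = s(s a, s b) := by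
          intro a b hab
          have := congrArg (Sym2.map s) hab
          simp only [Sym2.map_mk, h.inv] at this
          exact this
        rcases this with h1 | h1 | h1 | h1 | h1 | h1
        · have h2 := conv _ _ h1; rw [fx] at h2; simp [h2]
        · have h2 := conv _ _ h1; rw [fx] at h2; simp [h2]
        · have h2 := conv _ _ h1; rw [fx] at h2; simp [h2]
        · have h2 := conv _ _ h1; simp [h2]
        · have h2 := conv _ _ h1; simp [h2]
        · have h2 := conv _ _ h1; simp [h2]
      · exfalso
        -- one endpoint only in `K`, the other only in `s K`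
        rcases hm with ⟨h1 | h1, h2 | h2⟩
        · exact hp ⟨h1, h2⟩
        · have a1 : s p ∉ K := fun h' => hsp3 ⟨h', h2⟩
          have a2 : q ∉ K := fun h' => hp ⟨h1, h'⟩
          apply noCross p h1 (s q) h2 a1 (by rwa [h.inv])
          rwa [h.inv]
        · have a1 : s q ∉ K := fun h' => hsp3 ⟨h1, h'⟩
          have a2 : p ∉ K := fun h' => hp ⟨h', h2⟩
          apply noCross q h2 (s p) h1 a1 (by rwa [h.inv])
          rw [h.inv, Sym2.eq_swap]
          exact he
        · exact hsp3 ⟨h1, h2⟩

lemma Ctx.noK4 {G : Finset (Sym2 V)} {s : V → V} (c : Ctx G s) :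
    ∀ u x y z, (nb G u).card = 3 → s(u, x) ∈ G → s(u, y) ∈ G → s(u, z) ∈ G → x ≠ y →
      x ≠ z → y ≠ z → (∀ w, s(u, w) ∈ G → w = x ∨ w = y ∨ w = z) → s(x, y) ∈ G → s(x, z) ∈ G →
      s(y, z) ∈ G → False := by
  classical
  have h := c.good
  have hcon := c.nsol
  have IH := c.IH
  have Hdeg := c.Hdeg
  have H4 := c.H4
  have H2 := c.H2
  have nonfixed3 := c.nonfixed3
  have pairP := c.pairP
  have noK4t := c.noK4t
  intro u x y z h3 hx hy hz hxy hxz hyz hN exy exz eyz
  have eyx : s(y, x) ∈ G := by rwa [Sym2.eq_swap]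
  have ezx : s(z, x) ∈ G := by rwa [Sym2.eq_swap]
  have ezy : s(z, y) ∈ G := by rwa [Sym2.eq_swap]
  by_cases fx : s x = x
  · exact noK4t u x y z h3 hx hy hz hxy hxz hyz hN exy exz eyz fx
  by_cases fy : s y = y
  · exact noK4t u y x z h3 hy hx hz hxy.symm hyz hxz (fun w hw => by
      rcases hN w hw with h1 | h1 | h1 <;> simp [h1]) eyx eyz exz fy
  by_cases fz : s z = z
  · exact noK4t u z x y h3 hz hx hy hxz.symm hyz.symm hxy (fun w hw => by
      rcases hN w hw with h1 | h1 | h1 <;> simp [h1]) ezx ezy exy fz
  have hu := nonfixed3 u h3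
  have xu : x ≠ u := (h.ne hx).symm
  have yu : y ≠ u := (h.ne hy).symm
  have zu : z ≠ u := (h.ne hz).symm
  have swp : ∀ {p q : V}, s(p, q) ∈ G → p ≠ s q := by
    intro p q hpq
    have : s(q, p) ∈ G := by rwa [Sym2.eq_swap]
    exact h.ne_s this
  have g0 := h.ins_single x
  have g1 := grow G {x} y {x} (by simp [hxy.symm]) (by simp) (by
    intro w hw
    rw [mem_singleton] at hw
    subst hw
    rwa [Sym2.eq_swap])
  have g2 := grow G (insert y {x}) z (insert y {x}) (by simp [hyz.symm, hxz.symm])
    (by simp) (by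
      intro w hw
      simp only [mem_insert, mem_singleton] at hw
      rcases hw with rfl | rfl <;> rwa [Sym2.eq_swap])
  have g3 := grow G (insert z (insert y {x})) u (insert z (insert y {x}))
    (by simp [zu.symm, yu.symm, xu.symm]) (by simp) (by
      intro w hw
      simp only [mem_insert, mem_singleton] at hw
      rcases hw with rfl | rfl | rfl <;> assumption)
  have c2 : (insert y ({x} : Finset V)).card = 2 := card_pair hxy.symm
  have c3 : (insert z (insert y ({x} : Finset V))).card = 3 := by
    rw [card_insert_of_notMem, c2]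
    simp [hyz.symm, hxz.symm]
  have c4 : (insert u (insert z (insert y ({x} : Finset V)))).card = 4 := by
    rw [card_insert_of_notMem, c3]
    simp [zu.symm, yu.symm, xu.symm]
  obtain ⟨K, hK⟩ : ∃ K : Finset V, K = insert u (insert z (insert y {x})) := ⟨_, rfl⟩
  rw [← hK] at g3 c4
  rw [card_singleton] at g1
  rw [c2] at g2
  rw [c3] at g3
  have hKm : ∀ v, v ∈ K ↔ v = u ∨ v = z ∨ v = y ∨ v = x := by
    intro v; rw [hK]; simp
  have hsp := h.sparse K (by rw [← card_pos]; omega)
  have ht : Tight G K := by
    unfold Tight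
    omega
  have hS := H4 K ht (by omega)
  have hKs : ∀ v ∈ K, s v ∉ K := by
    intro v hv hsv
    rw [hKm] at hv hsv
    rcases hv with rfl | rfl | rfl | rfl
    · rcases hsv with h' | h' | h' | h'
      · exact hu h'
      · exact h.ne_s hz h'.symm
      · exact h.ne_s hy h'.symm
      · exact h.ne_s hx h'.symm
    · rcases hsv with h' | h' | h' | h'
      · exact swp hz h'.symm
      · exact fz h'
      · exact h.ne_s ezy h'.symm
      · exact h.ne_s ezx h'.symm
    · rcases hsv with h' | h' | h' | h'
      · exact swp hy h'.symm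
      · exact h.ne_s eyz h'.symm
      · exact fy h'
      · exact h.ne_s eyx h'.symm
    · rcases hsv with h' | h' | h' | h'
      · exact swp hx h'.symm
      · exact h.ne_s exz h'.symm
      · exact h.ne_s exy h'.symm
      · exact fx h'
  have hinter := inter_empty_of h hKs
  have hun := card_union_add_card_inter K (K.image s)
  rw [h.card_image, hinter, card_empty] at hun
  have hxK : x ∈ K := by rw [hKm]; simp
  have hsp2 := h.sparse (K ∪ K.image s) ⟨x, by rw [mem_union]; exact Or.inl hxK⟩
  have hcc := card_cross h K (G.filter (fun e => ∃ a ∈ K, ∃ b ∈ K, e = s(a, s b))) (by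
    intro e he
    rw [mem_filter] at he
    obtain ⟨he1, a, ha, b, hb, rfl⟩ := he
    exact ⟨he1, a, ha, b, hb, hKs a ha, hKs b hb, rfl⟩)
  rw [hinter, ins_empty] at hcc
  apply hcon
  refine base_K4a h u x y z hu fx fy fz xu.symm yu.symm zu.symm hxy hxz hyz (swp hx) (swp hy)
    (swp hz) (swp exy) (swp exz) (swp eyz) K ?_ ?_
    (G.filter (fun e => ∃ a ∈ K, ∃ b ∈ K, e = s(a, s b))) ?_ ?_
  · ext v
    rw [hKm]
    simp only [mem_insert, mem_singleton]
    tauto
  · intro e
    induction e with
    | _ p q =>
      intro he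
      have hm := mem_supp_of he
      rw [← hS, mem_union, mem_union, h.mem_image_s, h.mem_image_s] at hm
      rcases hm with ⟨h1 | h1, h2 | h2⟩
      · left; exact ⟨p, h1, q, h2, rfl⟩
      · right; right; exact ⟨p, h1, s q, h2, by rw [h.inv]⟩
      · right; right; exact ⟨q, h2, s p, h1, by rw [h.inv, Sym2.eq_swap]⟩
      · right; left; exact ⟨s p, h1, s q, h2, by rw [h.inv, h.inv]⟩
  · intro e
    rw [mem_filter]
  · unfold Tight at ht
    omega

lemma Ctx.D3 {G : Finset (Sym2 V)} {s : V → V} (c : Ctx G s) :
    ∀ u, (nb G u).card = 3 → ∀ w ∈ nb G u, s w = w := by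
  classical
  have h := c.good
  have hcon := c.nsol
  have IH := c.IH
  have Hdeg := c.Hdeg
  have H4 := c.H4
  have pairP := c.pairP
  have noSwap := c.noSwap
  have noTwo := c.noTwo
  have noK4 := c.noK4
  intro u h3
  obtain ⟨x, y, z, hxy, hxz, hyz, hn⟩ := card_eq_three.1 h3
  have hm : ∀ w, s(u, w) ∈ G ↔ w = x ∨ w = y ∨ w = z := by
    intro w
    rw [← mem_nb, hn]
    simp
  have hx : s(u, x) ∈ G := (hm x).2 (Or.inl rfl)
  have hy : s(u, y) ∈ G := (hm y).2 (Or.inr (Or.inl rfl))
  have hz : s(u, z) ∈ G := (hm z).2 (Or.inr (Or.inr rfl))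
  have N1 : ∀ w, s(u, w) ∈ G → w = x ∨ w = y ∨ w = z := fun w hw => (hm w).1 hw
  have N2 : ∀ w, s(u, w) ∈ G → w = x ∨ w = z ∨ w = y := fun w hw => by
    rcases (hm w).1 hw with h1 | h1 | h1 <;> simp [h1]
  have N3 : ∀ w, s(u, w) ∈ G → w = y ∨ w = z ∨ w = x := fun w hw => by
    rcases (hm w).1 hw with h1 | h1 | h1 <;> simp [h1]
  have P1 := pairP u x y z h3 hx hy hz hxy hxz hyz N1
  have P2 := pairP u x z y h3 hx hz hy hxz hxy hyz.symm N2
  have P3 := pairP u y z x h3 hy hz hx hyz hxy.symm hxz.symm N3
  have S1 : y ≠ s x := fun h' => noSwap u x y z h3 hx hy hz hxy hxz hyz N1 h'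
  have S2 : z ≠ s x := fun h' => noSwap u x z y h3 hx hz hy hxz hxy hyz.symm N2 h'
  have S3 : z ≠ s y := fun h' => noSwap u y z x h3 hy hz hx hyz hxy.symm hxz.symm N3 h'
  have T1 : s x = x → s y = y → s z = z := fun a b => by
    by_contra c
    exact noTwo u x y z h3 hx hy hz hxy hxz hyz N1 a b c
  have T2 : s x = x → s z = z → s y = y := fun a b => by
    by_contra c
    exact noTwo u x z y h3 hx hz hy hxz hxy hyz.symm N2 a b c
  have T3 : s y = y → s z = z → s x = x := fun a b => by
    by_contra c
    exact noTwo u y z x h3 hy hz hx hyz hxy.symm hxz.symm N3 a b c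
  have all : s x = x ∧ s y = y ∧ s z = z := by
    by_contra hc
    have Q1 : s(x, y) ∈ G := by
      rcases P1 with p | p | p
      · exact p
      · exact absurd p S1
      · exact absurd ⟨p.1, p.2, T1 p.1 p.2⟩ hc
    have Q2 : s(x, z) ∈ G := by
      rcases P2 with p | p | p
      · exact p
      · exact absurd p S2
      · exact absurd ⟨p.1, T2 p.1 p.2, p.2⟩ hc
    have Q3 : s(y, z) ∈ G := by
      rcases P3 with p | p | p
      · exact p
      · exact absurd p S3
      · exact absurd ⟨T3 p.1 p.2, p.1, p.2⟩ hc
    exact noK4 u x y z h3 hx hy hz hxy hxz hyz N1 Q1 Q2 Q3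
  intro w hw
  rw [mem_nb, hm] at hw
  rcases hw with rfl | rfl | rfl
  · exact all.1
  · exact all.2.1
  · exact all.2.2

lemma Ctx.D4 {G : Finset (Sym2 V)} {s : V → V} (c : Ctx G s) :
    ∀ u, (nb G u).card = 3 → ∀ w ∈ nb G u, 6 ≤ (nb G w).card := by
  classical
  have h := c.good
  have hcon := c.nsol
  have IH := c.IH
  have Hdeg := c.Hdeg
  have H4 := c.H4
  have nonfixed3 := c.nonfixed3
  have red := c.red
  have D3 := c.D3
  intro u h3 w hw
  have fw := D3 u h3 w hw
  have hev := even_nb h fw
  have huw : s(w, u) ∈ G := by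
    rw [mem_nb, Sym2.eq_swap] at hw
    exact hw
  have hu := nonfixed3 u h3
  have hu_mem : u ∈ nb G w := mem_nb.2 huw
  have hge : 3 ≤ (nb G w).card := by
    rcases Hdeg w with h0 | h0
    · exact absurd h0 (card_pos.2 ⟨u, hu_mem⟩).ne'
    · exact h0
  by_contra hlt
  have h4 : (nb G w).card = 4 := by
    obtain ⟨k, hk⟩ := hev
    omega
  have hsu_mem : s u ∈ nb G w := by
    rw [mem_nb]
    have := h.sym _ _ huw
    rwa [fw] at this
  obtain ⟨y, hy1, hy2⟩ : ∃ y ∈ nb G w, y ∉ ({u, s u} : Finset V) := by
    by_contra hc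
    push Not at hc
    have : (nb G w).card ≤ ({u, s u} : Finset V).card := card_le_card hc
    rw [card_pair hu.symm] at this
    omega
  simp only [mem_insert, mem_singleton] at hy2
  push Not at hy2
  have hyw := mem_nb.1 hy1
  have hsy_mem : s y ∈ nb G w := by
    rw [mem_nb]
    have := h.sym _ _ hyw
    rwa [fw] at this
  have fy : s y ≠ y := h.not_fixed hyw fw
  have syu : s y ≠ u := by
    intro h'
    apply hy2.2
    rw [← h', h.inv]
  have sysu : s y ≠ s u := fun h' => hy2.1 (h.inj h')
  have heq : ({u, s u, y, s y} : Finset V) = nb G w := by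
    apply eq_of_subset_of_card_le
    · intro x hx
      simp only [mem_insert, mem_singleton] at hx
      rcases hx with rfl | rfl | rfl | rfl <;> assumption
    · rw [h4, card_insert_of_notMem, card_insert_of_notMem, card_pair fy.symm]
      · simp only [mem_insert, mem_singleton]
        push Not
        exact ⟨hy2.2.symm, sysu.symm⟩
      · simp only [mem_insert, mem_singleton]
        push Not
        exact ⟨hu.symm, hy2.1.symm, syu.symm⟩
  apply hcon
  have huy : s(u, y) ∉ G := by
    intro h'
    exact fy (D3 u h3 y (mem_nb.2 h'))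
  refine move_four h w u y fw ?_ huw hyw huy ?_
  · intro z hz
    rw [← mem_nb, ← heq] at hz
    simpa using hz
  · apply red w u y (mem_supp_of huw).1 (h.ne huw).symm (h.ne hyw).symm (h.ne_s huw)
      (h.ne_s hyw) hy2.1.symm _ hge
    intro h'
    rw [Sym2.eq_iff] at h'
    rcases h' with ⟨h5, -⟩ | ⟨h5, -⟩
    · exact hu h5
    · exact hy2.2 h5.symm

lemma step_final {G : Finset (Sym2 V)} {s : V → V} (h : Good G s) (IH : IHyp G)
    (Hdeg : ∀ u, (nb G u).card = 0 ∨ 3 ≤ (nb G u).card)
    (H4 : ∀ X : Finset V, Tight G X → 2 ≤ X.card → X ∪ X.image s = supp G)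
    (hne : G.Nonempty) : Sol G s := by
  classical
  by_contra hcon
  have c : Ctx G s := ⟨h, IH, Hdeg, H4, hcon⟩
  have D4 := c.D4
  -- counting
  set S := supp G with hSdef
  have hSne : S.Nonempty := by
    obtain ⟨e, he⟩ := hne
    revert he
    induction e with
    | _ a b =>
      intro he
      exact ⟨a, (mem_supp_of he).1⟩
  have hcard : G.card + 2 ≤ 2 * S.card := by
    have := h.sparse S hSne
    rwa [ins_supp] at this
  have hsum : ∑ v ∈ S, (nb G v).card ≤ 2 * G.card := by
    refine le_trans ?_ (handshake G)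
    exact sum_le_sum_of_subset (subset_univ _)
  have hdegS : ∀ v ∈ S, 3 ≤ (nb G v).card := by
    intro v hv
    rw [hSdef, mem_supp] at hv
    rcases Hdeg v with h0 | h0
    · exact absurd h0 (card_pos.2 hv).ne'
    · exact h0
  set A := S.filter (fun v => (nb G v).card = 3) with hA
  set B := S.filter (fun v => 6 ≤ (nb G v).card) with hB
  have hAB : 3 * A.card ≤ ∑ w ∈ B, (nb G w).card := by
    have e1 : ∑ v ∈ A, (nb G v).card = 3 * A.card := by
      rw [sum_const_nat (m := 3)]
      · ring
      · intro v hv
        exact (mem_filter.1 hv).2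
    rw [← e1, ← card_sigma, ← card_sigma]
    apply card_le_card_of_injOn (fun p : (_ : V) × V => (⟨p.2, p.1⟩ : (_ : V) × V))
    · rintro ⟨v, w⟩ hp
      rw [mem_coe, mem_sigma] at hp
      rw [mem_coe, mem_sigma]
      simp only at hp ⊢
      obtain ⟨hv, hw⟩ := hp
      rw [hA, mem_filter] at hv
      refine ⟨?_, ?_⟩
      · rw [hB, mem_filter]
        exact ⟨(mem_supp_of (mem_nb.1 hw)).2, D4 v hv.2 w hw⟩
      · rw [mem_nb, Sym2.eq_swap]
        exact mem_nb.1 hw
    · rintro ⟨v, w⟩ _ ⟨v', w'⟩ _ heq
      simp only [Sigma.mk.injEq, heq_eq_eq] at heq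
      obtain ⟨rfl, rfl⟩ := heq
      rfl
  have hBsum : ∑ w ∈ B, (nb G w).card =
      ∑ w ∈ S, (if 6 ≤ (nb G w).card then (nb G w).card else 0) := by
    rw [hB, sum_filter]
  have hAsum : A.card = ∑ w ∈ S, (if (nb G w).card = 3 then 1 else 0) := by
    rw [hA, card_filter]
  have hpt : ∀ v ∈ S, 12 + (if 6 ≤ (nb G v).card then (nb G v).card else 0) ≤
      3 * (nb G v).card + 3 * (if (nb G v).card = 3 then 1 else 0) := by
    intro v hv
    have := hdegS v hv
    split_ifs <;> omega
  have htot := sum_le_sum hpt
  rw [sum_add_distrib, sum_add_distrib, ← mul_sum, ← mul_sum, ← hBsum, ← hAsum, sum_const,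
    smul_eq_mul] at htot
  omega

/-- The combinatorial core: every `(2,2)`-sparse graph with an involution fixing no edge has a
symmetric placement whose positive edges form a forest. -/
theorem core {G : Finset (Sym2 V)} {s : V → V} (h : Good G s) : Sol G s := by
  obtain ⟨n, hn⟩ : ∃ n, G.card = n := ⟨_, rfl⟩
  revert G s
  induction n using Nat.strong_induction_on with
  | _ n ih =>
    intro G s h hn
    have IH : IHyp G := by
      intro G' s' hc hg
      exact ih G'.card (by omega) hg rfl
    rcases G.eq_empty_or_nonempty with h0 | hne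
    · subst h0
      refine ⟨fun _ => 0, fun _ => 0, by simp, by simp, by simp, ?_⟩
      exact forest_empty.mono (by
        intro e he
        rw [mem_pos] at he
        exact he.1)
    · by_cases h1 : ∃ u, 1 ≤ (nb G u).card ∧ (nb G u).card ≤ 2
      · obtain ⟨u, h2, h3⟩ := h1
        exact step_small h IH u h2 h3
      · have Hdeg : ∀ u, (nb G u).card = 0 ∨ 3 ≤ (nb G u).card := by
          intro u
          by_contra hc
          push Not at hc
          exact h1 ⟨u, by omega, by omega⟩
        by_cases h2 : ∃ Y : Finset V, (∀ v ∈ Y, s v ∈ Y) ∧ 2 ≤ Y.card ∧ Tight G Y ∧ Y ≠ supp G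
        · exact step_Y h IH Hdeg h2
        · have H2 : ∀ Y : Finset V, (∀ v ∈ Y, s v ∈ Y) → 2 ≤ Y.card → Tight G Y → Y = supp G := by
            intro Y y1 y2 y3
            by_contra hc
            exact h2 ⟨Y, y1, y2, y3, hc⟩
          by_cases h3 : ∃ X : Finset V, Tight G X ∧ 2 ≤ X.card ∧ X ∪ X.image s ≠ supp G
          · exact step_X h IH Hdeg H2 h3
          · have H4 : ∀ X : Finset V, Tight G X → 2 ≤ X.card → X ∪ X.image s = supp G := by
              intro X x1 x2
              by_contra hc
              exact h3 ⟨X, x1, x2, hc⟩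
            exact step_final h IH Hdeg H4 hne

end Pool.Agent.Lib.MP_236c69_co
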