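import Pool.Agent.Lib.MP_236c69_co.Bases

set_option autoImplicit false
set_option linter.unusedSectionVars false
set_option linter.unusedSimpArgs false
set_option linter.unusedVariables false

namespace Pool.Agent.Lib.MP_236c69_co

open Finset

variable {V : Type*} [DecidableEq V] [Fintype V]

/-- induction hypothesis -/
def IHyp (G : Finset (Sym2 V)) : Prop :=
  ∀ (G' : Finset (Sym2 V)) (s' : V → V), G'.card < G.card → Good G' s' → Sol G' s'

lemma card_del_add (G : Finset (Sym2 V)) (s : V → V) (u : V) :
    (del G s u).card + (nb G u).card ≤ G.card := by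
  have h1 : ((nb G u).image (fun w => s(u, w))).card = (nb G u).card := by
    apply card_image_of_injective
    intro a b hab
    exact Sym2.congr_right.1 hab
  have h2 : Disjoint (del G s u) ((nb G u).image (fun w => s(u, w))) := by
    rw [disjoint_left]
    intro e he hf
    rw [mem_image] at hf
    obtain ⟨w, hw, rfl⟩ := hf
    rw [mem_del] at he
    exact he.2.1 (Sym2.mem_mk_left _ _)
  rw [← h1, ← card_union_of_disjoint h2]
  apply card_le_card
  intro e he
  rw [mem_union] at he
  rcases he with he | he
  · exact (mem_del.1 he).1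
  · rw [mem_image] at he
    obtain ⟨w, hw, rfl⟩ := he
    exact mem_nb.1 hw

lemma card_reduced_lt (G : Finset (Sym2 V)) (s : V → V) (u : V) (a b : Sym2 V)
    (h3 : 3 ≤ (nb G u).card) : (insert a (insert b (del G s u))).card < G.card := by
  have h1 := card_del_add G s u
  have h2 := card_insert_le a (insert b (del G s u))
  have h4 := card_insert_le b (del G s u)
  omega

lemma step_small {G : Finset (Sym2 V)} {s : V → V} (h : Good G s) (IH : IHyp G) (u : V)
    (h1 : 1 ≤ (nb G u).card) (h2 : (nb G u).card ≤ 2) : Sol G s := by
  have hS : Sol (del G s u) s := by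
    apply IH _ _ _ (h.del_good u)
    have := card_del_add G s u
    omega
  by_cases hu : s u = u
  · obtain ⟨w, hw⟩ := card_pos.1 h1
    have hw' := mem_nb.1 hw
    have h3 : s w ∈ nb G u := by
      rw [mem_nb]
      have := h.sym _ _ hw'
      rwa [hu] at this
    have h4 : s w ≠ w := h.not_fixed hw' hu
    have h5 : ({w, s w} : Finset V) = nb G u := by
      apply eq_of_subset_of_card_le
      · intro x hx
        simp only [mem_insert, mem_singleton] at hx
        rcases hx with rfl | rfl <;> assumption
      · rw [card_pair h4.symm]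
        exact h2
    refine move_two_fixed h u w hu ?_ hw' hS
    intro z hz
    rw [← mem_nb, ← h5] at hz
    simpa using hz
  · rcases Nat.lt_or_ge 1 (nb G u).card with h3 | h3
    · obtain ⟨x, y, hxy, hn⟩ := card_eq_two.1 (le_antisymm h2 h3)
      refine move_two h u x y hu hxy ?_ ?_ hS
      · intro w hw
        rw [← mem_nb, hn] at hw
        simpa using hw
      · rw [← mem_nb, hn]
        simp
    · obtain ⟨x, hx⟩ := card_eq_one.1 (le_antisymm h3 h1)
      have hx' : s(u, x) ∈ G := by
        rw [← mem_nb, hx]
        simp
      refine move_two h u x u hu (h.ne hx').symm ?_ hx' hS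
      intro w hw
      rw [← mem_nb, hx] at hw
      left
      simpa using hw

lemma step_Y {G : Finset (Sym2 V)} {s : V → V} (h : Good G s) (IH : IHyp G)
    (Hdeg : ∀ u, (nb G u).card = 0 ∨ 3 ≤ (nb G u).card)
    (hex : ∃ Y : Finset V, (∀ v ∈ Y, s v ∈ Y) ∧ 2 ≤ Y.card ∧ Tight G Y ∧ Y ≠ supp G) :
    Sol G s := by
  classical
  obtain ⟨Y0, hY0⟩ := hex
  obtain ⟨Y, hYP, hmax⟩ := exists_max_image
    ((univ : Finset (Finset V)).filter (fun Y => (∀ v ∈ Y, s v ∈ Y) ∧ 2 ≤ Y.card ∧ Tight G Y ∧
      Y ≠ supp G)) Finset.card ⟨Y0, by simpa using hY0⟩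
  rw [mem_filter] at hYP
  obtain ⟨-, hs, hc, ht, hne⟩ := hYP
  have hmax' : ∀ Y' : Finset V, (∀ v ∈ Y', s v ∈ Y') → 2 ≤ Y'.card → Tight G Y' →
      Y.card < Y'.card → Y' = supp G := by
    intro Y' h1 h2 h3 h4
    by_contra h5
    have := hmax Y' (by simp only [mem_filter, mem_univ, true_and]; exact ⟨h1, h2, h3, h5⟩)
    omega
  refine contractY h Y hs ht hc hne ?_ IH
  intro u hu a ha b hb hua hub
  by_contra hab
  have hA : ({a, b} : Finset V) ⊆ Y := by
    intro x hx
    simp only [mem_insert, mem_singleton] at hx
    rcases hx with rfl | rfl <;> assumption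
  have hA' : ∀ w ∈ ({a, b} : Finset V), s(u, w) ∈ G := by
    intro x hx
    simp only [mem_insert, mem_singleton] at hx
    rcases hx with rfl | rfl <;> assumption
  have t1 := ht.insert h.sparse hu hA hA' (by rw [card_pair hab])
  have hnb0 : (nb G u).card ≠ 0 := by
    have : a ∈ nb G u := mem_nb.2 hua
    exact (card_pos.2 ⟨a, this⟩).ne'
  have hnb : 3 ≤ (nb G u).card := by
    rcases Hdeg u with h0 | h0
    · exact absurd h0 hnb0
    · exact h0
  have hfin : nb G u ⊆ Y → False := by
    intro hsub
    have := ht.card_le_two h.sparse hu hsub (fun w hw => mem_nb.1 hw)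
    omega
  by_cases hsu : s u = u
  · have h3 := hmax' (insert u Y) (by
      intro v hv
      rw [mem_insert] at hv ⊢
      rcases hv with rfl | hv
      · exact Or.inl hsu
      · exact Or.inr (hs v hv)) (by
      rw [card_insert_of_notMem hu]
      omega) t1 (by
      rw [card_insert_of_notMem hu]
      omega)
    apply hfin
    intro w hw
    have hw' := mem_nb.1 hw
    have h4 := (mem_supp_of hw').2
    rw [← h3, mem_insert] at h4
    rcases h4 with rfl | h4
    · exact absurd rfl (h.ne hw')
    · exact h4
  · have hsuY : s u ∉ Y := by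
      intro h'
      apply hu
      have := hs _ h'
      rwa [h.inv] at this
    have hsuY1 : s u ∉ insert u Y := by
      rw [mem_insert]
      push Not
      exact ⟨hsu, hsuY⟩
    have hB : ({s a, s b} : Finset V) ⊆ insert u Y := by
      intro x hx
      simp only [mem_insert, mem_singleton] at hx ⊢
      rcases hx with rfl | rfl
      · exact Or.inr (hs _ ha)
      · exact Or.inr (hs _ hb)
    have hB' : ∀ w ∈ ({s a, s b} : Finset V), s(s u, w) ∈ G := by
      intro x hx
      simp only [mem_insert, mem_singleton] at hx
      rcases hx with rfl | rfl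
      · exact h.sym _ _ hua
      · exact h.sym _ _ hub
    have t2 := t1.insert h.sparse hsuY1 hB hB' (by rw [card_pair (fun h' => hab (h.inj h'))])
    have h3 := hmax' (insert (s u) (insert u Y)) (by
      intro v hv
      rw [mem_insert, mem_insert] at hv ⊢
      rcases hv with rfl | rfl | hv
      · right; left; exact h.inv u
      · left; rfl
      · right; right; exact hs v hv) (by
      rw [card_insert_of_notMem hsuY1, card_insert_of_notMem hu]
      omega) t2 (by
      rw [card_insert_of_notMem hsuY1, card_insert_of_notMem hu]
      omega)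
    apply hfin
    intro w hw
    have hw' := mem_nb.1 hw
    have h4 := (mem_supp_of hw').2
    rw [← h3, mem_insert, mem_insert] at h4
    rcases h4 with rfl | rfl | h4
    · exact absurd rfl (h.ne_s hw')
    · exact absurd rfl (h.ne hw')
    · exact h4

lemma ins_empty (G : Finset (Sym2 V)) : (ins G (∅ : Finset V)).card = 0 := by
  rw [card_eq_zero]
  apply eq_empty_of_forall_notMem
  intro e he
  rw [mem_ins] at he
  have := he.2 e.out.1 (Sym2.out_fst_mem e)
  simp at this

lemma Good.ins_single {G : Finset (Sym2 V)} {s : V → V} (h : Good G s) (v : V) :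
    (ins G ({v} : Finset V)).card = 0 := by
  have := h.tight_singleton v
  unfold Tight at this
  simp at this
  rw [this]
  simp

lemma card_cross {G : Finset (Sym2 V)} {s : V → V} (h : Good G s) (X : Finset V)
    (Cr : Finset (Sym2 V))
    (hCr : ∀ e ∈ Cr, e ∈ G ∧ ∃ a ∈ X, ∃ b ∈ X, s a ∉ X ∧ s b ∉ X ∧ e = s(a, s b)) :
    2 * (ins G X).card + Cr.card ≤
      (ins G (X ∪ X.image s)).card + (ins G (X ∩ X.image s)).card := by
  have h1 : Disjoint (ins G X ∪ ins G (X.image s)) Cr := by
    rw [disjoint_left]
    intro e he hc
    obtain ⟨-, a, ha, b, hb, ha', hb', rfl⟩ := hCr e hc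
    rw [mem_union, mem_ins_mk, mem_ins_mk, h.mem_image_s] at he
    rcases he with he | he
    · exact hb' he.2.2
    · exact ha' he.2.1
  have h2 : (ins G X ∪ ins G (X.image s)) ∪ Cr ⊆ ins G (X ∪ X.image s) := by
    apply union_subset (union_subset ?_ ?_) ?_
    · exact ins_mono_right G subset_union_left
    · exact ins_mono_right G subset_union_right
    · intro e hc
      obtain ⟨hG, a, ha, b, hb, ha', hb', rfl⟩ := hCr e hc
      rw [mem_ins_mk, mem_union, mem_union]
      exact ⟨hG, Or.inl ha, Or.inr (mem_image_of_mem _ hb)⟩
  have h3 := card_le_card h2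
  rw [card_union_of_disjoint h1] at h3
  have h4 := card_union_add_card_inter (ins G X) (ins G (X.image s))
  have h5 : (ins G X ∩ ins G (X.image s)).card ≤ (ins G (X ∩ X.image s)).card := by
    apply card_le_card
    intro e he
    rw [mem_inter, mem_ins, mem_ins] at he
    rw [mem_ins]
    exact ⟨he.1.1, fun v hv => mem_inter.2 ⟨he.1.2 v hv, he.2.2 v hv⟩⟩
  rw [h.card_ins_image] at h4
  omega

lemma inter_empty_of {G : Finset (Sym2 V)} {s : V → V} (h : Good G s) {X : Finset V}
    (hd : ∀ v ∈ X, s v ∉ X) : X ∩ X.image s = ∅ := by
  apply eq_empty_of_forall_notMem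
  intro v hv
  rw [mem_inter, h.mem_image_s] at hv
  exact hd v hv.1 hv.2

lemma sym_union {G : Finset (Sym2 V)} {s : V → V} (h : Good G s) (X : Finset V) :
    ∀ v ∈ X ∪ X.image s, s v ∈ X ∪ X.image s := by
  intro v hv
  rw [mem_union, h.mem_image_s] at hv ⊢
  rw [h.inv]
  tauto

lemma step_X {G : Finset (Sym2 V)} {s : V → V} (h : Good G s) (IH : IHyp G)
    (Hdeg : ∀ u, (nb G u).card = 0 ∨ 3 ≤ (nb G u).card)
    (H2 : ∀ Y : Finset V, (∀ v ∈ Y, s v ∈ Y) → 2 ≤ Y.card → Tight G Y → Y = supp G)
    (hex : ∃ X : Finset V, Tight G X ∧ 2 ≤ X.card ∧ X ∪ X.image s ≠ supp G) :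
    Sol G s := by
  classical
  obtain ⟨X0, hX0⟩ := hex
  obtain ⟨X, hXP, hmax⟩ := exists_max_image
    ((univ : Finset (Finset V)).filter (fun X => Tight G X ∧ 2 ≤ X.card ∧ X ∪ X.image s ≠ supp G))
      Finset.card ⟨X0, by simpa using hX0⟩
  rw [mem_filter] at hXP
  obtain ⟨-, ht, hc, hne⟩ := hXP
  have hmax' : ∀ X' : Finset V, 2 ≤ X'.card → Tight G X' →
      X.card < X'.card → X' ∪ X'.image s = supp G := by
    intro X' h2 h3 h4
    by_contra h5
    have := hmax X' (by simp only [mem_filter, mem_univ, true_and]; exact ⟨h3, h2, h5⟩)
    omega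
  have hsub := ht.subset_supp h.sparse hc
  have hcu : 2 ≤ (X ∪ X.image s).card := hc.trans (card_le_card subset_union_left)
  have hneu : (X ∪ X.image s).Nonempty := by
    rw [← card_pos]
    omega
  have hd : ∀ v ∈ X, s v ∉ X := by
    intro v hv hsv
    apply hne
    apply H2 _ (sym_union h X) hcu
    have k1 := submod G X (X.image s)
    rw [h.card_ins_image] at k1
    have k2 := h.sparse _ hneu
    have k3 := h.sparse (X ∩ X.image s) ⟨v, by rw [mem_inter, h.mem_image_s]; exact ⟨hv, hsv⟩⟩
    have k4 := card_union_add_card_inter X (X.image s)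
    rw [h.card_image] at k4
    unfold Tight at ht ⊢
    omega
  have hcardU : (X ∪ X.image s).card = 2 * X.card := by
    have k4 := card_union_add_card_inter X (X.image s)
    rw [h.card_image, inter_empty_of h hd] at k4
    simp at k4
    omega
  have hcr : ∀ a ∈ X, ∀ b ∈ X, s(a, s b) ∉ G := by
    intro a ha b hb hab
    have hne' : a ≠ b := by
      rintro rfl
      exact h.ne_s hab rfl
    apply hne
    apply H2 _ (sym_union h X) hcu
    have e2 : s(b, s a) ∈ G := by
      have := h.sym _ _ hab
      rw [h.inv, Sym2.eq_swap] at this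
      exact this
    have e3 : s(a, s b) ≠ s(b, s a) := by
      intro h'
      rw [Sym2.eq_iff] at h'
      rcases h' with ⟨h5, -⟩ | ⟨h5, -⟩
      · exact hne' h5
      · apply hd a ha
        rw [← h5]
        exact ha
    have k1 := card_cross h X {s(a, s b), s(b, s a)} (by
      intro e he
      simp only [mem_insert, mem_singleton] at he
      rcases he with rfl | rfl
      · exact ⟨hab, a, ha, b, hb, hd a ha, hd b hb, rfl⟩
      · exact ⟨e2, b, hb, a, ha, hd b hb, hd a ha, rfl⟩)
    rw [card_pair e3, inter_empty_of h hd, ins_empty] at k1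
    have k2 := h.sparse _ hneu
    unfold Tight at ht ⊢
    omega
  by_cases hexc : ∃ u, u ∉ X ∧ s u ∉ X ∧ ∃ a ∈ X, ∃ b ∈ X, a ≠ b ∧ s(u, a) ∈ G ∧ s(u, b) ∈ G
  · -- exceptional case
    obtain ⟨u, hu, hsu, a, ha, b, hb, hab, hua, hub⟩ := hexc
    have hA : ({a, b} : Finset V) ⊆ X := by
      intro x hx
      simp only [mem_insert, mem_singleton] at hx
      rcases hx with rfl | rfl <;> assumption
    have hA' : ∀ w ∈ ({a, b} : Finset V), s(u, w) ∈ G := by
      intro x hx
      simp only [mem_insert, mem_singleton] at hx
      rcases hx with rfl | rfl <;> assumption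
    have t1 := ht.insert h.sparse hu hA hA' (by rw [card_pair hab])
    have hS := hmax' (insert u X) (by rw [card_insert_of_notMem hu]; omega) t1
      (by rw [card_insert_of_notMem hu]; omega)
    have husupp : u ∈ supp G := (mem_supp_of hua).1
    have hmemS : ∀ z, z ∈ supp G → z = u ∨ z = s u ∨ z ∈ X ∨ s z ∈ X := by
      intro z hz
      rw [← hS, mem_union, h.mem_image_s, mem_insert, mem_insert] at hz
      rcases hz with (hz | hz) | (hz | hz)
      · exact Or.inl hz
      · exact Or.inr (Or.inr (Or.inl hz))
      · right; left
        rw [← hz, h.inv]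
      · exact Or.inr (Or.inr (Or.inr hz))
    have hnbm : ∀ z, s(u, z) ∈ G → z ∈ X ∨ s z ∈ X := by
      intro z hz
      rcases hmemS z (mem_supp_of hz).2 with h1 | h1 | h1
      · exact absurd h1.symm (h.ne hz)
      · exact absurd h1 (h.ne_s hz)
      · exact h1
    have hnbX : ∀ z, s(u, z) ∈ G → z ∈ X → z = a ∨ z = b := by
      intro z hz hzX
      by_contra hcon
      push Not at hcon
      have : ({z, a, b} : Finset V).card ≤ 2 := by
        apply ht.card_le_two h.sparse hu
        · intro x hx
          simp only [mem_insert, mem_singleton] at hx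
          rcases hx with rfl | rfl | rfl <;> assumption
        · intro x hx
          simp only [mem_insert, mem_singleton] at hx
          rcases hx with rfl | rfl | rfl <;> assumption
      rw [card_insert_of_notMem (by simp only [mem_insert, mem_singleton]; push Not; exact hcon),
        card_pair hab] at this
      omega
    have hnb : 3 ≤ (nb G u).card := by
      rcases Hdeg u with h0 | h0
      · have : a ∈ nb G u := mem_nb.2 hua
        exact absurd h0 (card_pos.2 ⟨a, this⟩).ne'
      · exact h0
    have B1 : ∀ a' ∈ X, ∀ z, s z ∈ X → ∀ Z : Finset V, u ∉ Z → s u ∉ Z → a' ∈ Z → z ∈ Z →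
        (ins G Z).card + 3 ≤ 2 * Z.card := by
      intro a' ha' z hz Z hZ1 hZ2 hZ3 hZ4
      by_contra hcon
      have hZne : Z.Nonempty := ⟨a', hZ3⟩
      have hsp := h.sparse Z hZne
      have hZt : Tight G Z := by
        unfold Tight
        omega
      have ha'z : a' ≠ z := by
        rintro rfl
        exact hd a' ha' hz
      have hZc : 2 ≤ Z.card := by
        have : ({a', z} : Finset V) ⊆ Z := by
          intro v hv
          simp only [mem_insert, mem_singleton] at hv
          rcases hv with rfl | rfl <;> assumption
        have := card_le_card this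
        rwa [card_pair ha'z] at this
      have hZs := hZt.subset_supp h.sparse hZc
      have hZm : ∀ v ∈ Z, v ∈ X ∨ s v ∈ X := by
        intro v hv
        rcases hmemS v (hZs hv) with h1 | h1 | h1
        · rw [h1] at hv; exact absurd hv hZ1
        · rw [h1] at hv; exact absurd hv hZ2
        · exact h1
      have i1 : ins G Z ⊆ ins G (Z ∩ X) ∪ ins G (Z ∩ X.image s) := by
        intro e
        induction e with
        | _ p q =>
          intro he
          rw [mem_ins_mk] at he
          rw [mem_union, mem_ins_mk, mem_ins_mk, mem_inter, mem_inter, mem_inter, mem_inter,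
            h.mem_image_s, h.mem_image_s]
          rcases hZm p he.2.1 with hp | hp <;> rcases hZm q he.2.2 with hq | hq
          · left; exact ⟨he.1, ⟨he.2.1, hp⟩, ⟨he.2.2, hq⟩⟩
          · exfalso
            apply hcr p hp (s q) hq
            rw [h.inv]
            exact he.1
          · exfalso
            apply hcr q hq (s p) hp
            rw [h.inv, Sym2.eq_swap]
            exact he.1
          · right; exact ⟨he.1, ⟨he.2.1, hp⟩, ⟨he.2.2, hq⟩⟩
      have i2 := (card_le_card i1).trans (card_union_le _ _)
      have i3 := h.sparse (Z ∩ X) ⟨a', mem_inter.2 ⟨hZ3, ha'⟩⟩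
      have i4 := h.sparse (Z ∩ X.image s) ⟨z, mem_inter.2 ⟨hZ4, h.mem_image_s.2 hz⟩⟩
      have i5 : (Z ∩ X).card + (Z ∩ X.image s).card ≤ Z.card := by
        rw [← card_union_of_disjoint]
        · apply card_le_card
          intro v hv
          simp only [mem_inter, mem_union] at hv
          tauto
        · rw [disjoint_left]
          intro v hv hv'
          rw [mem_inter] at hv hv'
          rw [h.mem_image_s] at hv'
          exact hd v hv.2 hv'.2
      omega
    have B2 : ∀ w₁ w₂, w₁ ≠ w₂ → ∀ Z : Finset V, u ∉ Z → s u ∉ Z → w₁ ∈ Z → w₂ ∈ Z → s w₁ ∈ Z →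
        s w₂ ∈ Z → (ins G Z).card + 4 ≤ 2 * Z.card := by
      intro w₁ w₂ hw Z hZ1 hZ2 k1 k2 k3 k4
      apply h.four_le u _ Z hZ1 hZ2 w₁ w₂ hw k1 k2 k3 k4
      intro Y y1 y2 y3 y4
      rw [H2 Y y1 y2 y4] at y3
      exact y3 husupp
    by_cases hfix : s u = u
    · -- `u` is fixed
      have hb' : s(u, s b) ∈ G := by
        have := h.sym _ _ hub
        rwa [hfix] at this
      have hn : s(a, s b) ∉ G := hcr a ha b hb
      have asb : a ≠ s b := by
        rintro rfl
        exact hd b hb ha
      refine move_four h u a (s b) hfix ?_ hua hb' hn ?_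
      · intro z hz
        rcases hnbm z hz with h1 | h1
        · rcases hnbX z hz h1 with rfl | rfl
          · exact Or.inl rfl
          · right; right; right
            exact (h.inv _).symm
        · have hz' : s(u, s z) ∈ G := by
            have := h.sym _ _ hz
            rwa [hfix] at this
          rcases hnbX _ hz' h1 with h2 | h2
          · right; left
            rw [← h2, h.inv]
          · right; right; left
            rw [← h2, h.inv]
      · apply IH
        · exact card_reduced_lt G s u _ _ hnb
        · apply h.reduce u a (s b) (h.ne hua).symm (h.ne hb').symm (h.ne_s hua) (h.ne_s hb')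
          · intro h'
            rw [h.inv, Sym2.eq_iff] at h'
            rcases h' with ⟨h5, -⟩ | ⟨h5, -⟩
            · apply hd a ha
              rw [h5]
              exact ha
            · exact hab (h.inj h5)
          · intro Z z1 z2 z3 z4
            exact B1 a ha (s b) (by rw [h.inv]; exact hb) Z z1 z2 z3 z4
          · exact B2 a (s b) asb
    · -- `u` is not fixed
      have key : ∀ z, s(u, z) ∈ G → s z ∈ X → ∀ a b, a ∈ X → b ∈ X → a ≠ b → s(u, a) ∈ G →
          s(u, b) ∈ G → a ≠ s z → (∀ w, s(u, w) ∈ G → w = a ∨ w = z ∨ w = b) → Sol G s := by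
        intro z hz hzX a b ha hb hab hua hub haz hN
        have hzb : z ≠ b := by
          rintro rfl
          exact hd z hb hzX
        have hza : a ≠ z := by
          rintro rfl
          exact hd a ha hzX
        have hn : s(a, z) ∉ G := by
          have := hcr a ha (s z) hzX
          rwa [h.inv] at this
        refine move_three h u a z b hfix hN hua hz hub hab hzb hn ?_
        apply IH
        · exact card_reduced_lt G s u _ _ hnb
        · apply h.reduce u a z (h.ne hua).symm (h.ne hz).symm (h.ne_s hua) (h.ne_s hz)
          · intro h'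
            rw [Sym2.eq_iff] at h'
            rcases h' with ⟨h5, -⟩ | ⟨h5, h6⟩
            · apply hd a ha
              rw [h5]
              exact ha
            · exact haz h6.symm
          · intro Z z1 z2 z3 z4
            exact B1 a ha z hzX Z z1 z2 z3 z4
          · exact B2 a z hza
      obtain ⟨z, hz1, hz2⟩ : ∃ z ∈ nb G u, z ∉ ({a, b} : Finset V) := by
        by_contra hcon
        push Not at hcon
        have : (nb G u).card ≤ ({a, b} : Finset V).card := card_le_card hcon
        rw [card_pair hab] at this
        omega
      rw [mem_nb] at hz1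
      simp only [mem_insert, mem_singleton] at hz2
      push Not at hz2
      have hzX' : z ∉ X := by
        intro hzX
        rcases hnbX z hz1 hzX with h1 | h1
        · exact hz2.1 h1
        · exact hz2.2 h1
      have hzX : s z ∈ X := by
        rcases hnbm z hz1 with h1 | h1
        · exact absurd h1 hzX'
        · exact h1
      have huniq : ∀ z', s(u, z') ∈ G → s z' ∈ X → z' = z := by
        intro z' hz' hzX2
        by_contra hzz
        -- count
        have k0 := card_cross h X ∅ (by simp)
        rw [card_empty, inter_empty_of h hd, ins_empty] at k0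
        have u1 : u ∉ X ∪ X.image s := by
          rw [mem_union, h.mem_image_s]
          push Not
          exact ⟨hu, hsu⟩
        have u2 : s u ∉ insert u (X ∪ X.image s) := by
          rw [mem_insert, mem_union, h.mem_image_s, h.inv]
          push Not
          exact ⟨hfix, hsu, hu⟩
        have z'X : z' ∉ X := fun h' => hd z' h' hzX2
        have c4 : ({z, z', a, b} : Finset V).card = 4 := by
          rw [card_insert_of_notMem, card_insert_of_notMem, card_pair hab]
          · simp only [mem_insert, mem_singleton]
            push Not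
            constructor
            · rintro rfl; exact z'X ha
            · rintro rfl; exact z'X hb
          · simp only [mem_insert, mem_singleton]
            push Not
            exact ⟨fun h' => hzz h'.symm, hz2.1, hz2.2⟩
        have m1 : ({z, z', a, b} : Finset V) ⊆ X ∪ X.image s := by
          intro x hx
          simp only [mem_insert, mem_singleton] at hx
          rw [mem_union, h.mem_image_s]
          rcases hx with rfl | rfl | rfl | rfl
          · exact Or.inr hzX
          · exact Or.inr hzX2
          · exact Or.inl ha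
          · exact Or.inl hb
        have m2 : ∀ w ∈ ({z, z', a, b} : Finset V), s(u, w) ∈ G := by
          intro x hx
          simp only [mem_insert, mem_singleton] at hx
          rcases hx with rfl | rfl | rfl | rfl <;> assumption
        have k1 := card_ins_insert_vertex G u1 m1 m2
        have k2 := card_ins_insert_vertex G (A := ({z, z', a, b} : Finset V).image s) u2 (by
          intro x hx
          rw [mem_image] at hx
          obtain ⟨y, hy, rfl⟩ := hx
          exact mem_insert_of_mem (sym_union h X y (m1 hy))) (by
          intro x hx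
          rw [mem_image] at hx
          obtain ⟨y, hy, rfl⟩ := hx
          exact h.sym _ _ (m2 y hy))
        rw [h.card_image, c4] at k2
        rw [c4] at k1
        have k3 := h.sparse (insert (s u) (insert u (X ∪ X.image s))) (insert_nonempty _ _)
        rw [card_insert_of_notMem u2, card_insert_of_notMem u1, hcardU] at k3
        unfold Tight at ht
        omega
      have hN : ∀ w, s(u, w) ∈ G → w = a ∨ w = z ∨ w = b := by
        intro w hw
        rcases hnbm w hw with h1 | h1
        · rcases hnbX w hw h1 with h2 | h2
          · exact Or.inl h2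
          · exact Or.inr (Or.inr h2)
        · exact Or.inr (Or.inl (huniq w hw h1))
      by_cases haz : a = s z
      · refine key z hz1 hzX b a hb ha hab.symm hub hua ?_ ?_
        · rw [← haz]; exact hab.symm
        · intro w hw
          have := hN w hw
          tauto
      · exact key z hz1 hzX a b ha hb hab hua hub haz hN
  · refine contractX h X ht hc hd hcr ?_ ?_ IH
    · intro u hu hsu a ha b hb hua hub
      by_contra hab
      exact hexc ⟨u, hu, hsu, a, ha, b, hb, hab, hua, hub⟩
    · have hsub2 : X ∪ X.image s ⊆ supp G := by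
        apply union_subset hsub
        intro v hv
        rw [h.mem_image_s] at hv
        have := h.supp_s (hsub hv)
        rwa [h.inv] at this
      obtain ⟨u, hu1, hu2⟩ := Finset.exists_of_ssubset (hsub2.ssubset_of_ne hne)
      rw [mem_union, h.mem_image_s] at hu2
      push Not at hu2
      exact ⟨u, hu1, hu2.1, hu2.2⟩

end Pool.Agent.Lib.MP_236c69_co
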