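import Pool.Agent.Lib.MP_236c69_co.Perturb

set_option autoImplicit false
set_option linter.unusedSectionVars false
set_option linter.unusedSimpArgs false
set_option linter.unusedVariables false

namespace Pool.Agent.Lib.MP_236c69_co

open Finset

variable {V : Type*} [DecidableEq V]

/-- Sparse graph `G` with an involution `s` which fixes no edge. -/
structure Good (G : Finset (Sym2 V)) (s : V → V) : Prop where
  inv : ∀ v, s (s v) = v
  sym : ∀ u v, s(u, v) ∈ G → s(s u, s v) ∈ G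
  nofix : ∀ u v, s(u, v) ∈ G → s(s u, s v) ≠ s(u, v)
  sparse : Sparse G

lemma Good.nodiag {G : Finset (Sym2 V)} {s : V → V} (h : Good G s) (v : V) : s(v, v) ∉ G := by
  intro hv
  have := h.sparse {v} ⟨v, mem_singleton_self v⟩
  have h2 : s(v, v) ∈ ins G {v} := mem_ins_mk.2 ⟨hv, mem_singleton_self v, mem_singleton_self v⟩
  have h3 := card_pos.2 ⟨_, h2⟩
  rw [card_singleton] at this
  omega

lemma Good.ne {G : Finset (Sym2 V)} {s : V → V} (h : Good G s) {u v : V} (huv : s(u, v) ∈ G) :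
    u ≠ v := by
  rintro rfl
  exact h.nodiag u huv

lemma Good.ne_s {G : Finset (Sym2 V)} {s : V → V} (h : Good G s) {u v : V} (huv : s(u, v) ∈ G) :
    v ≠ s u := by
  rintro rfl
  have := h.nofix _ _ huv
  rw [h.inv, Sym2.eq_swap] at this
  exact this rfl

lemma Good.not_fixed {G : Finset (Sym2 V)} {s : V → V} (h : Good G s) {u v : V}
    (huv : s(u, v) ∈ G) (hu : s u = u) : s v ≠ v := by
  intro hv
  have := h.nofix _ _ huv
  rw [hu, hv] at this
  exact this rfl

lemma Good.sym_iff {G : Finset (Sym2 V)} {s : V → V} (h : Good G s) {u v : V} :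
    s(s u, s v) ∈ G ↔ s(u, v) ∈ G := by
  constructor
  · intro h1
    have := h.sym _ _ h1
    rwa [h.inv, h.inv] at this
  · exact h.sym _ _

lemma Good.inj {G : Finset (Sym2 V)} {s : V → V} (h : Good G s) {u v : V} (huv : s u = s v) :
    u = v := by
  have := congrArg s huv
  rwa [h.inv, h.inv] at this

lemma prd_congr {α β α' β' : V → ℝ} {e : Sym2 V} (h : ∀ v ∈ e, α v = α' v ∧ β v = β' v) :
    prd α β e = prd α' β' e := by
  induction e with
  | _ u v =>
    simp only [prd_mk]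
    rw [(h u (by simp)).1, (h u (by simp)).2, (h v (by simp)).1, (h v (by simp)).2]

/-- edges avoiding `u` and `s u` -/
def del (G : Finset (Sym2 V)) (s : V → V) (u : V) : Finset (Sym2 V) :=
  G.filter (fun e => u ∉ e ∧ s u ∉ e)

lemma mem_del {G : Finset (Sym2 V)} {s : V → V} {u : V} {e : Sym2 V} :
    e ∈ del G s u ↔ e ∈ G ∧ u ∉ e ∧ s u ∉ e := by
  simp [del]

lemma Good.cases_del {G : Finset (Sym2 V)} {s : V → V} (h : Good G s) (u : V) {e : Sym2 V}
    (he : e ∈ G) : e ∈ del G s u ∨ (∃ w, s(u, w) ∈ G ∧ e = s(u, w)) ∨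
      (∃ w, s(u, w) ∈ G ∧ e = s(s u, s w)) := by
  by_cases h1 : u ∈ e
  · obtain ⟨w, rfl⟩ := h1
    exact Or.inr (Or.inl ⟨w, he, rfl⟩)
  · by_cases h2 : s u ∈ e
    · obtain ⟨w, rfl⟩ := h2
      refine Or.inr (Or.inr ⟨s w, ?_, ?_⟩)
      · have := h.sym _ _ he
        rwa [h.inv] at this
      · rw [h.inv]
    · exact Or.inl (mem_del.2 ⟨he, h1, h2⟩)

lemma extend_nonfixed {G : Finset (Sym2 V)} {s : V → V} (h : Good G s) (u : V) (hu : s u ≠ u)
    {α β : V → ℝ} (ha : ∀ v, α (s v) = α v) (hb : ∀ v, β (s v) = - β v)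
    (hG : ∀ e ∈ del G s u, prd α β e ≠ 0) (x y : ℝ)
    (hxy : ∀ w, s(u, w) ∈ G → (x - α w) * (y - β w) ≠ 0)
    {T : Finset (Sym2 V)} (hT : Forest T) (hTG : pos (del G s u) α β ⊆ T)
    (h1 : ∀ w, s(u, w) ∈ G → 0 < (x - α w) * (y - β w) → s(u, w) ∈ T)
    (h2 : ∀ w, s(u, w) ∈ G → (x - α w) * (y - β w) < 0 → s(s u, s w) ∈ T) : Sol G s := by
  have hsu : ∀ v, s v = u ↔ v = s u := by
    intro v
    constructor
    · rintro rfl; exact (h.inv v).symm
    · rintro rfl; exact h.inv u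
  have hsu2 : ∀ v, s v = s u ↔ v = u := by
    intro v
    exact ⟨fun h' => h.inj h', fun h' => by rw [h']⟩
  let α' : V → ℝ := fun v => if v = u ∨ v = s u then x else α v
  let β' : V → ℝ := fun v => if v = u then y else if v = s u then -y else β v
  have ha' : ∀ v, α' (s v) = α' v := by
    intro v
    simp only [α', hsu, hsu2, ha]
    by_cases h3 : v = u <;> by_cases h4 : v = s u <;> simp [h3, h4]
  have hb' : ∀ v, β' (s v) = - β' v := by
    intro v
    simp only [β', hsu, hsu2, hb]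
    by_cases h3 : v = u
    · subst h3
      simp [hu, Ne.symm hu]
    · by_cases h4 : v = s u
      · simp [h4, hu]
      · simp [h3, h4]
  have e0 : ∀ e ∈ del G s u, prd α' β' e = prd α β e := by
    intro e he
    rw [mem_del] at he
    apply prd_congr
    intro v hv
    have h3 : v ≠ u := by rintro rfl; exact he.2.1 hv
    have h4 : v ≠ s u := by rintro rfl; exact he.2.2 hv
    simp [α', β', h3, h4]
  have e1 : ∀ w, s(u, w) ∈ G → prd α' β' s(u, w) = (x - α w) * (y - β w) := by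
    intro w hw
    have h3 : w ≠ u := (h.ne hw).symm
    have h4 : w ≠ s u := h.ne_s hw
    simp [α', β', h3, h4]
  have e2 : ∀ w, prd α' β' s(s u, s w) = - prd α' β' s(u, w) := by
    intro w
    simp only [prd_mk, ha', hb']
    ring
  refine ⟨α', β', ha', hb', ?_, ?_⟩
  · intro e he
    rcases h.cases_del u he with h3 | ⟨w, hw, rfl⟩ | ⟨w, hw, rfl⟩
    · rw [e0 e h3]; exact hG e h3
    · rw [e1 w hw]; exact hxy w hw
    · rw [e2, e1 w hw]; exact neg_ne_zero.2 (hxy w hw)
  · refine hT.mono ?_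
    intro e he
    rw [mem_pos] at he
    obtain ⟨he, hp⟩ := he
    rcases h.cases_del u he with h3 | ⟨w, hw, rfl⟩ | ⟨w, hw, rfl⟩
    · rw [e0 e h3] at hp
      exact hTG (mem_pos.2 ⟨h3, hp⟩)
    · rw [e1 w hw] at hp
      exact h1 w hw hp
    · rw [e2, e1 w hw] at hp
      exact h2 w hw (by linarith)

lemma extend_fixed {G : Finset (Sym2 V)} {s : V → V} (h : Good G s) (u : V) (hu : s u = u)
    {α β : V → ℝ} (ha : ∀ v, α (s v) = α v) (hb : ∀ v, β (s v) = - β v)
    (hG : ∀ e ∈ del G s u, prd α β e ≠ 0) (x : ℝ)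
    (hxy : ∀ w, s(u, w) ∈ G → (x - α w) * (- β w) ≠ 0)
    {T : Finset (Sym2 V)} (hT : Forest T) (hTG : pos (del G s u) α β ⊆ T)
    (h1 : ∀ w, s(u, w) ∈ G → 0 < (x - α w) * (- β w) → s(u, w) ∈ T) : Sol G s := by
  have hsu2 : ∀ v, s v = u ↔ v = u := by
    intro v
    constructor
    · intro h'
      have := congrArg s h'
      rwa [h.inv, hu] at this
    · rintro rfl; exact hu
  let α' : V → ℝ := fun v => if v = u then x else α v
  let β' : V → ℝ := fun v => if v = u then 0 else β v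
  have ha' : ∀ v, α' (s v) = α' v := by
    intro v
    simp only [α', hsu2, ha]
  have hb' : ∀ v, β' (s v) = - β' v := by
    intro v
    simp only [β', hsu2, hb]
    by_cases h3 : v = u <;> simp [h3]
  have e0 : ∀ e ∈ del G s u, prd α' β' e = prd α β e := by
    intro e he
    rw [mem_del] at he
    apply prd_congr
    intro v hv
    have h3 : v ≠ u := by rintro rfl; exact he.2.1 hv
    simp [α', β', h3]
  have e1 : ∀ w, s(u, w) ∈ G → prd α' β' s(u, w) = (x - α w) * (- β w) := by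
    intro w hw
    have h3 : w ≠ u := (h.ne hw).symm
    simp [α', β', h3]
  refine ⟨α', β', ha', hb', ?_, ?_⟩
  · intro e he
    rcases h.cases_del u he with h3 | ⟨w, hw, rfl⟩ | ⟨w, hw, rfl⟩
    · rw [e0 e h3]; exact hG e h3
    · rw [e1 w hw]; exact hxy w hw
    · rw [hu]
      have hw' : s(u, s w) ∈ G := by
        have := h.sym _ _ hw
        rwa [hu] at this
      rw [e1 _ hw']; exact hxy _ hw'
  · refine hT.mono ?_
    intro e he
    rw [mem_pos] at he
    obtain ⟨he, hp⟩ := he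
    rcases h.cases_del u he with h3 | ⟨w, hw, rfl⟩ | ⟨w, hw, rfl⟩
    · rw [e0 e h3] at hp
      exact hTG (mem_pos.2 ⟨h3, hp⟩)
    · rw [e1 w hw] at hp
      exact h1 w hw hp
    · rw [hu] at hp ⊢
      have hw' : s(u, s w) ∈ G := by
        have := h.sym _ _ hw
        rwa [hu] at this
      rw [e1 _ hw'] at hp
      exact h1 _ hw' hp

/-- geometric lemma for two points -/
lemma geom_two (a₁ b₁ a₂ b₂ : ℝ) (h : a₁ ≠ a₂ ∨ b₁ ≠ b₂) :
    ∃ x y : ℝ, 0 < (x - a₁) * (y - b₁) ∧ (x - a₂) * (y - b₂) < 0 := by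
  rcases lt_trichotomy a₁ a₂ with h1 | h1 | h1
  · refine ⟨(a₁ + a₂) / 2, max b₁ b₂ + 1, ?_, ?_⟩
    · have := le_max_left b₁ b₂
      exact mul_pos (by linarith) (by linarith)
    · have := le_max_right b₁ b₂
      exact mul_neg_of_neg_of_pos (by linarith) (by linarith)
  · have h2 : b₁ ≠ b₂ := by tauto
    rcases lt_or_gt_of_ne h2 with h3 | h3
    · refine ⟨a₁ + 1, (b₁ + b₂) / 2, ?_, ?_⟩
      · exact mul_pos (by linarith) (by linarith)
      · exact mul_neg_of_pos_of_neg (by linarith) (by linarith)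
    · refine ⟨a₁ - 1, (b₁ + b₂) / 2, ?_, ?_⟩
      · exact mul_pos_of_neg_of_neg (by linarith) (by linarith)
      · exact mul_neg_of_neg_of_pos (by linarith) (by linarith)
  · refine ⟨(a₁ + a₂) / 2, min b₁ b₂ - 1, ?_, ?_⟩
    · have := min_le_left b₁ b₂
      exact mul_pos_of_neg_of_neg (by linarith) (by linarith)
    · have := min_le_right b₁ b₂
      exact mul_neg_of_pos_of_neg (by linarith) (by linarith)

lemma geom_three_aux (a₁ b₁ a₂ b₂ a₃ b₃ : ℝ) (ha : a₁ < a₂) (hb : b₁ < b₂)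
    (h1 : a₃ ≠ a₁ ∨ b₃ ≠ b₁) (h2 : a₃ ≠ a₂ ∨ b₃ ≠ b₂) :
    ∃ x y : ℝ, 0 < (x - a₁) * (y - b₁) ∧ 0 < (x - a₂) * (y - b₂) ∧ (x - a₃) * (y - b₃) < 0 := by
  by_cases c1 : a₂ < a₃
  · refine ⟨(a₂ + a₃) / 2, max b₂ b₃ + 1, ?_, ?_, ?_⟩
    · have := le_max_left b₂ b₃
      exact mul_pos (by linarith) (by linarith)
    · have := le_max_left b₂ b₃
      exact mul_pos (by linarith) (by linarith)
    · have := le_max_right b₂ b₃
      exact mul_neg_of_neg_of_pos (by linarith) (by linarith)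
  by_cases c2 : b₂ < b₃
  · refine ⟨max a₂ a₃ + 1, (b₂ + b₃) / 2, ?_, ?_, ?_⟩
    · have := le_max_left a₂ a₃
      exact mul_pos (by linarith) (by linarith)
    · have := le_max_left a₂ a₃
      exact mul_pos (by linarith) (by linarith)
    · have := le_max_right a₂ a₃
      exact mul_neg_of_pos_of_neg (by linarith) (by linarith)
  by_cases c3 : b₃ < b₁
  · refine ⟨min a₁ a₃ - 1, (b₃ + b₁) / 2, ?_, ?_, ?_⟩
    · have := min_le_left a₁ a₃
      exact mul_pos_of_neg_of_neg (by linarith) (by linarith)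
    · have := min_le_left a₁ a₃
      exact mul_pos_of_neg_of_neg (by linarith) (by linarith)
    · have := min_le_right a₁ a₃
      exact mul_neg_of_neg_of_pos (by linarith) (by linarith)
  by_cases c4 : a₃ < a₁
  · refine ⟨(a₃ + a₁) / 2, min b₁ b₃ - 1, ?_, ?_, ?_⟩
    · have := min_le_left b₁ b₃
      exact mul_pos_of_neg_of_neg (by linarith) (by linarith)
    · have := min_le_left b₁ b₃
      exact mul_pos_of_neg_of_neg (by linarith) (by linarith)
    · have := min_le_right b₁ b₃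
      exact mul_neg_of_pos_of_neg (by linarith) (by linarith)
  push Not at c1 c2 c3 c4
  by_cases d1 : a₁ < a₃ ∧ b₃ < b₂
  · refine ⟨(a₁ + a₃) / 2, (b₃ + b₂) / 2, ?_, ?_, ?_⟩
    · exact mul_pos (by linarith) (by linarith)
    · exact mul_pos_of_neg_of_neg (by linarith) (by linarith)
    · exact mul_neg_of_neg_of_pos (by linarith) (by linarith)
  by_cases d2 : a₃ < a₂ ∧ b₁ < b₃
  · refine ⟨(a₃ + a₂) / 2, (b₁ + b₃) / 2, ?_, ?_, ?_⟩
    · exact mul_pos (by linarith) (by linarith)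
    · exact mul_pos_of_neg_of_neg (by linarith) (by linarith)
    · exact mul_neg_of_pos_of_neg (by linarith) (by linarith)
  exfalso
  rcases eq_or_lt_of_le c4 with e1 | e1
  · have e2 : ¬ (b₁ < b₃) := fun h => d2 ⟨by linarith, h⟩
    rcases h1 with h | h
    · exact h e1.symm
    · exact h (le_antisymm (not_lt.1 e2) c3)
  · have e2 : ¬ (b₃ < b₂) := fun h => d1 ⟨e1, h⟩
    have e3 : b₃ = b₂ := le_antisymm c2 (not_lt.1 e2)
    have e4 : ¬ (a₃ < a₂) := fun h => d2 ⟨h, by linarith⟩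
    rcases h2 with h | h
    · exact h (le_antisymm c1 (not_lt.1 e4))
    · exact h e3

/-- geometric lemma for three points -/
lemma geom_three (a₁ b₁ a₂ b₂ a₃ b₃ : ℝ) (h : 0 < (a₁ - a₂) * (b₁ - b₂))
    (h1 : a₃ ≠ a₁ ∨ b₃ ≠ b₁) (h2 : a₃ ≠ a₂ ∨ b₃ ≠ b₂) :
    ∃ x y : ℝ, 0 < (x - a₁) * (y - b₁) ∧ 0 < (x - a₂) * (y - b₂) ∧ (x - a₃) * (y - b₃) < 0 := by
  rcases pos_and_pos_or_neg_and_neg_of_mul_pos h with ⟨h3, h4⟩ | ⟨h3, h4⟩
  · obtain ⟨x, y, e1, e2, e3⟩ := geom_three_aux a₂ b₂ a₁ b₁ a₃ b₃ (by linarith) (by linarith) h2 h1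
    exact ⟨x, y, e2, e1, e3⟩
  · exact geom_three_aux a₁ b₁ a₂ b₂ a₃ b₃ (by linarith) (by linarith) h1 h2

lemma GSol.positions {s : V → V} (hs : ∀ v, s (s v) = v) {α β : V → ℝ}
    (g1 : ∀ u v, α u = α v → v = u ∨ v = s u)
    (g2 : ∀ u v, β u = β v → u = v ∨ (s u = u ∧ s v = v)) {u v : V} (huv : u ≠ v) :
    α u ≠ α v ∨ β u ≠ β v := by
  by_contra hcon
  push Not at hcon
  rcases g1 u v hcon.1 with h1 | h1
  · exact huv h1.symm
  · rcases g2 u v hcon.2 with h2 | h2
    · exact huv h2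
    · rw [h2.1] at h1
      exact huv h1.symm

/-- Vertices of degree at most two. -/
theorem move_two [Finite V] {G : Finset (Sym2 V)} {s : V → V} (h : Good G s) (u w₁ w₂ : V)
    (hu : s u ≠ u) (hw : w₁ ≠ w₂) (hN : ∀ w, s(u, w) ∈ G → w = w₁ ∨ w = w₂)
    (hw1 : s(u, w₁) ∈ G) (hS : Sol (del G s u) s) : Sol G s := by
  obtain ⟨α, β, ha, hb, hG, hF, g1, g2⟩ := hS.generic h.inv
  obtain ⟨x, y, hx, hy⟩ := geom_two (α w₁) (β w₁) (α w₂) (β w₂) (GSol.positions h.inv g1 g2 hw)
  have n1 : w₁ ≠ u := (h.ne hw1).symm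
  by_cases hw2 : s(u, w₂) ∈ G
  · have n2 : w₂ ≠ u := (h.ne hw2).symm
    have n3 : w₂ ≠ s u := h.ne_s hw2
    refine extend_nonfixed h u hu ha hb hG x y ?_
      (T := insert s(s u, s w₂) (insert s(u, w₁) (pos (del G s u) α β))) ?_ ?_ ?_ ?_
    · intro w hw'
      rcases hN w hw' with rfl | rfl
      · exact hx.ne'
      · exact hy.ne
    · apply forest_leaf
      · apply forest_leaf hF
        · intro e he
          exact (mem_del.1 (mem_pos.1 he).1).2.1
        · exact n1
      · intro e he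
        rw [mem_insert] at he
        rcases he with rfl | he
        · rw [Sym2.mem_iff]
          push Not
          exact ⟨hu, (h.ne_s hw1).symm⟩
        · exact (mem_del.1 (mem_pos.1 he).1).2.2
      · intro h'
        exact n2 (h.inj h')
    · intro e he
      exact mem_insert_of_mem (mem_insert_of_mem he)
    · intro w hw' hp
      rcases hN w hw' with rfl | rfl
      · simp
      · exact absurd hp (not_lt.2 hy.le)
    · intro w hw' hp
      rcases hN w hw' with rfl | rfl
      · exact absurd hp (not_lt.2 hx.le)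
      · simp
  · have hN' : ∀ w, s(u, w) ∈ G → w = w₁ := by
      intro w hw'
      rcases hN w hw' with rfl | rfl
      · rfl
      · exact absurd hw' hw2
    refine extend_nonfixed h u hu ha hb hG x y ?_
      (T := (insert s(u, w₁) (pos (del G s u) α β))) ?_ ?_ ?_ ?_
    · intro w hw'
      obtain rfl := hN' w hw'
      exact hx.ne'
    · apply forest_leaf hF
      · intro e he
        exact (mem_del.1 (mem_pos.1 he).1).2.1
      · exact n1
    · intro e he
      exact (mem_insert_of_mem he)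
    · intro w hw' hp
      obtain rfl := hN' w hw'
      simp
    · intro w hw' hp
      obtain rfl := hN' w hw'
      exact absurd hp (not_lt.2 hx.le)

/-- Fixed vertices of degree two. -/
theorem move_two_fixed [Finite V] {G : Finset (Sym2 V)} {s : V → V} (h : Good G s) (u w : V)
    (hu : s u = u) (hN : ∀ z, s(u, z) ∈ G → z = w ∨ z = s w)
    (hw : s(u, w) ∈ G) (hS : Sol (del G s u) s) : Sol G s := by
  obtain ⟨α, β, ha, hb, hG, hF, g1, g2⟩ := hS.generic h.inv
  have n1 : w ≠ u := (h.ne hw).symm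
  have n2 : s w ≠ w := h.not_fixed hw hu
  have n3 : s w ≠ u := by
    intro h'
    apply n1
    have := congrArg s h'
    rwa [h.inv, hu] at this
  have hbw : β w ≠ 0 := by
    intro h0
    have h1 : β (s w) = β w := by rw [hb, h0]; simp
    rcases g2 _ _ h1 with h2 | h2
    · exact n2 h2
    · exact n2 h2.2
  have hN' : ∀ z, s(u, z) ∈ G → (α w + 1 - α z) * (- β z) ≠ 0 := by
    intro z hz
    rcases hN z hz with rfl | rfl
    · simpa using hbw
    · rw [ha, hb]
      simpa using hbw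
  rcases lt_or_gt_of_ne hbw with hlt | hgt
  · refine extend_fixed h u hu ha hb hG (α w + 1) hN'
      (T := insert s(u, w) (pos (del G s u) α β)) ?_ (subset_insert _ _) ?_
    · apply forest_leaf hF
      · intro e he
        exact (mem_del.1 (mem_pos.1 he).1).2.1
      · exact n1
    · intro z hz hp
      rcases hN z hz with rfl | rfl
      · simp
      · rw [ha, hb] at hp
        exfalso
        linarith
  · refine extend_fixed h u hu ha hb hG (α w + 1) hN'
      (T := insert s(u, s w) (pos (del G s u) α β)) ?_ (subset_insert _ _) ?_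
    · apply forest_leaf hF
      · intro e he
        exact (mem_del.1 (mem_pos.1 he).1).2.1
      · exact n3
    · intro z hz hp
      rcases hN z hz with rfl | rfl
      · exfalso
        linarith
      · simp

/-- Degree three move. -/
theorem move_three_aux [Finite V] {G : Finset (Sym2 V)} {s : V → V} (h : Good G s) (u w₁ w₂ w₃ : V)
    (hu : s u ≠ u) (hN : ∀ z, s(u, z) ∈ G → z = w₁ ∨ z = w₂ ∨ z = w₃)
    (h1 : s(u, w₁) ∈ G) (h2 : s(u, w₂) ∈ G) (h3 : s(u, w₃) ∈ G)
    (n13 : w₁ ≠ w₃) (n23 : w₂ ≠ w₃) (hn : s(w₁, w₂) ∉ G)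
    {α β : V → ℝ} (ha : ∀ v, α (s v) = α v) (hb : ∀ v, β (s v) = - β v)
    (hG : ∀ e ∈ del G s u, prd α β e ≠ 0)
    (g1 : ∀ u v, α u = α v → v = u ∨ v = s u)
    (g2 : ∀ u v, β u = β v → u = v ∨ (s u = u ∧ s v = v))
    (hp : 0 < prd α β s(w₁, w₂)) (hF : Forest (insert s(w₁, w₂) (pos (del G s u) α β))) :
    Sol G s := by
  obtain ⟨x, y, e1, e2, e3⟩ := geom_three (α w₁) (β w₁) (α w₂) (β w₂) (α w₃) (β w₃)
    hp (GSol.positions h.inv g1 g2 n13.symm) (GSol.positions h.inv g1 g2 n23.symm)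
  have m1 : w₁ ≠ u := (h.ne h1).symm
  have m2 : w₂ ≠ u := (h.ne h2).symm
  have m3 : w₃ ≠ u := (h.ne h3).symm
  have m1' : w₁ ≠ s u := h.ne_s h1
  have m2' : w₂ ≠ s u := h.ne_s h2
  refine extend_nonfixed h u hu ha hb hG x y ?_
    (T := insert s(s u, s w₃) (insert s(u, w₁) (insert s(u, w₂) (pos (del G s u) α β)))) ?_ ?_ ?_ ?_
  · intro w hw'
    rcases hN w hw' with rfl | rfl | rfl
    · exact e1.ne'
    · exact e2.ne'
    · exact e3.ne
  · apply forest_leaf
    · apply forest_subdiv hF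
      · intro h'
        exact hn (mem_del.1 (mem_pos.1 h').1).1
      · intro e he
        exact (mem_del.1 (mem_pos.1 he).1).2.1
      · exact m1
      · exact m2
    · intro e he
      rw [mem_insert, mem_insert] at he
      rcases he with rfl | rfl | he
      · rw [Sym2.mem_iff]
        push Not
        exact ⟨hu, m1'.symm⟩
      · rw [Sym2.mem_iff]
        push Not
        exact ⟨hu, m2'.symm⟩
      · exact (mem_del.1 (mem_pos.1 he).1).2.2
    · intro h'
      exact m3 (h.inj h')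
  · intro e he
    exact mem_insert_of_mem (mem_insert_of_mem (mem_insert_of_mem he))
  · intro w hw' hq
    rcases hN w hw' with rfl | rfl | rfl
    · simp
    · simp
    · exact absurd hq (not_lt.2 e3.le)
  · intro w hw' hq
    rcases hN w hw' with rfl | rfl | rfl
    · exact absurd hq (not_lt.2 e1.le)
    · exact absurd hq (not_lt.2 e2.le)
    · simp

lemma del_s {G : Finset (Sym2 V)} {s : V → V} (h : Good G s) (u : V) : del G s (s u) = del G s u := by
  ext e
  rw [mem_del, mem_del, h.inv]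
  tauto

/-- Degree three move. -/
theorem move_three [Finite V] {G : Finset (Sym2 V)} {s : V → V} (h : Good G s) (u w₁ w₂ w₃ : V)
    (hu : s u ≠ u) (hN : ∀ z, s(u, z) ∈ G → z = w₁ ∨ z = w₂ ∨ z = w₃)
    (h1 : s(u, w₁) ∈ G) (h2 : s(u, w₂) ∈ G) (h3 : s(u, w₃) ∈ G)
    (n13 : w₁ ≠ w₃) (n23 : w₂ ≠ w₃) (hn : s(w₁, w₂) ∉ G)
    (hS : Sol (insert s(w₁, w₂) (insert s(s w₁, s w₂) (del G s u))) s) : Sol G s := by
  obtain ⟨α, β, ha, hb, hG, hF, g1, g2⟩ := hS.generic h.inv
  have hne := hG s(w₁, w₂) (by simp)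
  have hG' : ∀ e ∈ del G s u, prd α β e ≠ 0 := fun e he =>
    hG e (mem_insert_of_mem (mem_insert_of_mem he))
  have hop : prd α β s(s w₁, s w₂) = - prd α β s(w₁, w₂) := by
    simp only [prd_mk, ha, hb]; ring
  rcases lt_or_gt_of_ne hne with hlt | hgt
  · -- apply the auxiliary lemma at `s u`
    refine move_three_aux h (s u) (s w₁) (s w₂) (s w₃) ?_ ?_ (h.sym _ _ h1) (h.sym _ _ h2)
      (h.sym _ _ h3) (fun h' => n13 (h.inj h')) (fun h' => n23 (h.inj h'))
      (fun h' => hn (h.sym_iff.1 h')) ha hb ?_ g1 g2 (by rw [hop]; linarith) ?_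
    · rw [h.inv]; exact hu.symm
    · intro z hz
      have hz' : s(u, s z) ∈ G := by
        have := h.sym _ _ hz
        rwa [h.inv] at this
      rcases hN _ hz' with h' | h' | h'
      · left; rw [← h', h.inv]
      · right; left; rw [← h', h.inv]
      · right; right; rw [← h', h.inv]
    · rw [del_s h]; exact hG'
    · rw [del_s h]
      refine hF.mono ?_
      intro e he
      rw [mem_insert] at he
      rw [mem_pos]
      rcases he with rfl | he
      · exact ⟨by simp, by rw [hop]; linarith⟩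
      · rw [mem_pos] at he
        exact ⟨mem_insert_of_mem (mem_insert_of_mem he.1), he.2⟩
  · refine move_three_aux h u w₁ w₂ w₃ hu hN h1 h2 h3 n13 n23 hn ha hb hG' g1 g2 hgt ?_
    refine hF.mono ?_
    intro e he
    rw [mem_insert] at he
    rw [mem_pos]
    rcases he with rfl | he
    · exact ⟨by simp, hgt⟩
    · rw [mem_pos] at he
      exact ⟨mem_insert_of_mem (mem_insert_of_mem he.1), he.2⟩

/-- geometric lemma for the axis -/
lemma geom_axis (a₁ b₁ a₂ b₂ : ℝ) (h : 0 < (a₁ - a₂) * (b₁ - b₂)) (h1 : b₁ ≠ 0) (h2 : b₂ ≠ 0) :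
    ∃ x : ℝ, 0 < (x - a₁) * (- b₁) ∧ 0 < (x - a₂) * (- b₂) := by
  rcases lt_or_gt_of_ne h1 with c1 | c1 <;> rcases lt_or_gt_of_ne h2 with c2 | c2
  · refine ⟨max a₁ a₂ + 1, ?_, ?_⟩
    · have := le_max_left a₁ a₂
      exact mul_pos (by linarith) (by linarith)
    · have := le_max_right a₁ a₂
      exact mul_pos (by linarith) (by linarith)
  · have h3 : a₁ < a₂ := by
      by_contra h4
      push Not at h4
      have := mul_nonpos_of_nonneg_of_nonpos (sub_nonneg.2 h4) (by linarith : b₁ - b₂ ≤ 0)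
      linarith
    refine ⟨(a₁ + a₂) / 2, ?_, ?_⟩
    · exact mul_pos (by linarith) (by linarith)
    · exact mul_pos_of_neg_of_neg (by linarith) (by linarith)
  · have h3 : a₂ < a₁ := by
      by_contra h4
      push Not at h4
      have := mul_nonpos_of_nonpos_of_nonneg (sub_nonpos.2 h4) (by linarith : 0 ≤ b₁ - b₂)
      linarith
    refine ⟨(a₁ + a₂) / 2, ?_, ?_⟩
    · exact mul_pos_of_neg_of_neg (by linarith) (by linarith)
    · exact mul_pos (by linarith) (by linarith)
  · refine ⟨min a₁ a₂ - 1, ?_, ?_⟩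
    · have := min_le_left a₁ a₂
      exact mul_pos_of_neg_of_neg (by linarith) (by linarith)
    · have := min_le_right a₁ a₂
      exact mul_pos_of_neg_of_neg (by linarith) (by linarith)

/-- Fixed vertex of degree four. -/
theorem move_four_aux [Finite V] {G : Finset (Sym2 V)} {s : V → V} (h : Good G s) (u w₁ w₂ : V)
    (hu : s u = u) (hN : ∀ z, s(u, z) ∈ G → z = w₁ ∨ z = s w₁ ∨ z = w₂ ∨ z = s w₂)
    (h1 : s(u, w₁) ∈ G) (h2 : s(u, w₂) ∈ G) (hn : s(w₁, w₂) ∉ G)
    {α β : V → ℝ} (ha : ∀ v, α (s v) = α v) (hb : ∀ v, β (s v) = - β v)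
    (hG : ∀ e ∈ del G s u, prd α β e ≠ 0)
    (g2 : ∀ u v, β u = β v → u = v ∨ (s u = u ∧ s v = v))
    (hp : 0 < prd α β s(w₁, w₂)) (hF : Forest (insert s(w₁, w₂) (pos (del G s u) α β))) :
    Sol G s := by
  have m1 : w₁ ≠ u := (h.ne h1).symm
  have m2 : w₂ ≠ u := (h.ne h2).symm
  have hb0 : ∀ w, s(u, w) ∈ G → β w ≠ 0 := by
    intro w hw h0
    have n2 : s w ≠ w := h.not_fixed hw hu
    have h1 : β (s w) = β w := by rw [hb, h0]; simp
    rcases g2 _ _ h1 with h2 | h2
    · exact n2 h2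
    · exact n2 h2.2
  obtain ⟨x, e1, e2⟩ := geom_axis _ _ _ _ hp (hb0 _ h1) (hb0 _ h2)
  refine extend_fixed h u hu ha hb hG x ?_
    (T := (insert s(u, w₁) (insert s(u, w₂) (pos (del G s u) α β)))) ?_ ?_ ?_
  · intro z hz
    rcases hN z hz with rfl | rfl | rfl | rfl
    · exact e1.ne'
    · rw [ha, hb]
      have := e1.ne'
      intro h'
      apply this
      linarith
    · exact e2.ne'
    · rw [ha, hb]
      have := e2.ne'
      intro h'
      apply this
      linarith
  · apply forest_subdiv hF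
    · intro h'
      exact hn (mem_del.1 (mem_pos.1 h').1).1
    · intro e he
      exact (mem_del.1 (mem_pos.1 he).1).2.1
    · exact m1
    · exact m2
  · intro e he
    exact mem_insert_of_mem (mem_insert_of_mem he)
  · intro z hz hp
    rcases hN z hz with rfl | rfl | rfl | rfl
    · simp
    · rw [ha, hb] at hp
      exfalso
      linarith
    · simp
    · rw [ha, hb] at hp
      exfalso
      linarith

/-- Fixed vertex of degree four. -/
theorem move_four [Finite V] {G : Finset (Sym2 V)} {s : V → V} (h : Good G s) (u w₁ w₂ : V)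
    (hu : s u = u) (hN : ∀ z, s(u, z) ∈ G → z = w₁ ∨ z = s w₁ ∨ z = w₂ ∨ z = s w₂)
    (h1 : s(u, w₁) ∈ G) (h2 : s(u, w₂) ∈ G) (hn : s(w₁, w₂) ∉ G)
    (hS : Sol (insert s(w₁, w₂) (insert s(s w₁, s w₂) (del G s u))) s) : Sol G s := by
  obtain ⟨α, β, ha, hb, hG, hF, g1, g2⟩ := hS.generic h.inv
  have hne := hG s(w₁, w₂) (by simp)
  have hG' : ∀ e ∈ del G s u, prd α β e ≠ 0 := fun e he =>
    hG e (mem_insert_of_mem (mem_insert_of_mem he))
  have hop : prd α β s(s w₁, s w₂) = - prd α β s(w₁, w₂) := by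
    simp only [prd_mk, ha, hb]; ring
  rcases lt_or_gt_of_ne hne with hlt | hgt
  · have h1' : s(u, s w₁) ∈ G := by
      have := h.sym _ _ h1
      rwa [hu] at this
    have h2' : s(u, s w₂) ∈ G := by
      have := h.sym _ _ h2
      rwa [hu] at this
    refine move_four_aux h u (s w₁) (s w₂) hu ?_ h1' h2'
      (fun h' => hn (h.sym_iff.1 h')) ha hb hG' g2 (by rw [hop]; linarith) ?_
    · intro z hz
      rw [h.inv, h.inv]
      have := hN z hz
      tauto
    · refine hF.mono ?_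
      intro e he
      rw [mem_insert] at he
      rw [mem_pos]
      rcases he with rfl | he
      · exact ⟨by simp, by rw [hop]; linarith⟩
      · rw [mem_pos] at he
        exact ⟨mem_insert_of_mem (mem_insert_of_mem he.1), he.2⟩
  · refine move_four_aux h u w₁ w₂ hu hN h1 h2 hn ha hb hG' g2 hgt ?_
    refine hF.mono ?_
    intro e he
    rw [mem_insert] at he
    rw [mem_pos]
    rcases he with rfl | he
    · exact ⟨by simp, hgt⟩
    · rw [mem_pos] at he
      exact ⟨mem_insert_of_mem (mem_insert_of_mem he.1), he.2⟩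

end Pool.Agent.Lib.MP_236c69_co
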