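import Pool.Agent.Lib.MP_236c69_co.Basic

set_option autoImplicit false
set_option linter.unusedSectionVars false

namespace Pool.Agent.Lib.MP_236c69_co

open Finset Filter Topology

variable {V : Type*} [DecidableEq V]

/-- the colour function of an edge -/
noncomputable def prd (α β : V → ℝ) (e : Sym2 V) : ℝ :=
  Sym2.lift ⟨fun u v => (α u - α v) * (β u - β v), fun u v => by ring⟩ e

@[simp] lemma prd_mk (α β : V → ℝ) (u v : V) : prd α β s(u, v) = (α u - α v) * (β u - β v) := rfl

/-- positive edges -/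
noncomputable def pos (G : Finset (Sym2 V)) (α β : V → ℝ) : Finset (Sym2 V) :=
  G.filter (fun e => 0 < prd α β e)

lemma mem_pos {G : Finset (Sym2 V)} {α β : V → ℝ} {e : Sym2 V} :
    e ∈ pos G α β ↔ e ∈ G ∧ 0 < prd α β e := by
  simp [pos]

/-- `(G, s)` has a symmetric placement whose positive edges form a forest. -/
def Sol (G : Finset (Sym2 V)) (s : V → V) : Prop :=
  ∃ α β : V → ℝ, (∀ v, α (s v) = α v) ∧ (∀ v, β (s v) = - β v) ∧ (∀ e ∈ G, prd α β e ≠ 0) ∧
    Forest (pos G α β)

/-- A generic solution. -/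
def GSol (G : Finset (Sym2 V)) (s : V → V) : Prop :=
  ∃ α β : V → ℝ, (∀ v, α (s v) = α v) ∧ (∀ v, β (s v) = - β v) ∧ (∀ e ∈ G, prd α β e ≠ 0) ∧
    Forest (pos G α β) ∧ (∀ u v, α u = α v → v = u ∨ v = s u) ∧
    (∀ u v, β u = β v → u = v ∨ (s u = u ∧ s v = v))

lemma eventually_ne (a b : ℝ) (h : a ≠ 0 ∨ b ≠ 0) : ∀ᶠ ε in 𝓝[>] (0 : ℝ), a + ε * b ≠ 0 := by
  by_cases ha : a = 0
  · have hb : b ≠ 0 := by tauto
    filter_upwards [self_mem_nhdsWithin] with ε hε
    have : (0 : ℝ) < ε := hε
    subst ha
    simp [hb, this.ne']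
  · have hc : ContinuousAt (fun ε : ℝ => a + ε * b) 0 := by fun_prop
    have h0 : (fun ε : ℝ => a + ε * b) 0 ≠ 0 := by simpa using ha
    exact (hc.eventually_ne h0).filter_mono nhdsWithin_le_nhds

lemma eventually_sign (f : ℝ → ℝ) (hf : ContinuousAt f 0) (h : f 0 ≠ 0) :
    ∀ᶠ ε in 𝓝[>] (0 : ℝ), (f ε ≠ 0 ∧ (0 < f ε ↔ 0 < f 0)) := by
  rcases lt_or_gt_of_ne h with h | h
  · have : ∀ᶠ ε in 𝓝 (0 : ℝ), f ε < 0 := hf.eventually_lt continuousAt_const h
    filter_upwards [this.filter_mono nhdsWithin_le_nhds] with ε hε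
    exact ⟨hε.ne, ⟨fun h' => absurd h' (not_lt.2 hε.le), fun h' => absurd h' (not_lt.2 h.le)⟩⟩
  · have : ∀ᶠ ε in 𝓝 (0 : ℝ), 0 < f ε := continuousAt_const.eventually_lt hf h
    filter_upwards [this.filter_mono nhdsWithin_le_nhds] with ε hε
    exact ⟨hε.ne', ⟨fun _ => h, fun _ => hε⟩⟩

/-- generic reference functions -/
lemma exists_generic [Finite V] (s : V → V) (hs : ∀ v, s (s v) = v) :
    ∃ a b : V → ℝ, (∀ v, a (s v) = a v) ∧ (∀ v, b (s v) = - b v) ∧
      (∀ u v, a u = a v → v = u ∨ v = s u) ∧
      (∀ u v, b u = b v → u = v ∨ (s u = u ∧ s v = v)) := by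
  obtain ⟨n, ⟨φ⟩⟩ := Finite.exists_equiv_fin V
  have φinj : ∀ u v, (φ u : ℕ) = (φ v : ℕ) → u = v := fun u v h => φ.injective (Fin.ext h)
  let m : V → ℕ := fun v => min (φ v : ℕ) (φ (s v) : ℕ)
  have hm : ∀ v, m (s v) = m v := by
    intro v
    simp only [m, hs]
    exact min_comm _ _
  have hm2 : ∀ u v, m u = m v → v = u ∨ v = s u := by
    intro u v h
    simp only [m] at h
    rcases le_total (φ u : ℕ) (φ (s u) : ℕ) with h1 | h1
    · rcases le_total (φ v : ℕ) (φ (s v) : ℕ) with h2 | h2
      · rw [min_eq_left h1, min_eq_left h2] at h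
        exact Or.inl (φinj _ _ h).symm
      · rw [min_eq_left h1, min_eq_right h2] at h
        right
        have := φinj _ _ h
        rw [this, hs]
    · rcases le_total (φ v : ℕ) (φ (s v) : ℕ) with h2 | h2
      · rw [min_eq_right h1, min_eq_left h2] at h
        right
        exact (φinj _ _ h).symm
      · rw [min_eq_right h1, min_eq_right h2] at h
        left
        have := φinj _ _ h
        have h3 := congrArg s this
        rw [hs, hs] at h3
        exact h3.symm
  let sg : V → ℝ := fun v => if (φ v : ℕ) < φ (s v) then 1 else if (φ (s v) : ℕ) < φ v then -1 else 0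
  have hsg : ∀ v, sg (s v) = - sg v := by
    intro v
    simp only [sg, hs]
    split_ifs <;> first | omega | simp
  have hsg0 : ∀ v, sg v = 0 → s v = v := by
    intro v hv
    simp only [sg] at hv
    split_ifs at hv with h1 h2
    · norm_num at hv
    · norm_num at hv
    · exact φinj _ _ (by omega)
  have hsg1 : ∀ v, s v = v → sg v = 0 := by
    intro v hv
    simp [sg, hv]
  have habs : ∀ v, s v ≠ v → sg v = 1 ∨ sg v = -1 := by
    intro v hv
    simp only [sg]
    split_ifs with h1 h2
    · left; rfl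
    · right; rfl
    · exact absurd (φinj _ _ (by omega)) hv
  refine ⟨fun v => m v, fun v => sg v * (m v + 1), fun v => by simp [hm v], fun v => ?_,
    fun u v h => hm2 u v (Nat.cast_injective (R := ℝ) h), ?_⟩
  · simp only [hm v, hsg v]
    ring
  · intro u v h
    simp only at h
    by_cases hu : s u = u
    · by_cases hv : s v = v
      · exact Or.inr ⟨hu, hv⟩
      · rw [hsg1 u hu] at h
        exfalso
        have hp : (0 : ℝ) < (m v : ℝ) + 1 := by positivity
        rcases habs v hv with h1 | h1 <;> rw [h1] at h <;> nlinarith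
    · by_cases hv : s v = v
      · rw [hsg1 v hv] at h
        exfalso
        have hp : (0 : ℝ) < (m u : ℝ) + 1 := by positivity
        rcases habs u hu with h1 | h1 <;> rw [h1] at h <;> nlinarith
      · have hp : (0 : ℝ) < (m u : ℝ) + 1 := by positivity
        have hq : (0 : ℝ) < (m v : ℝ) + 1 := by positivity
        have hmm : m u = m v ∧ sg u = sg v := by
          rcases habs u hu with h1 | h1 <;> rcases habs v hv with h2 | h2 <;> rw [h1, h2] at h ⊢
          · refine ⟨?_, rfl⟩
            have : (m u : ℝ) = m v := by linarith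
            exact_mod_cast this
          · exfalso; nlinarith
          · exfalso; nlinarith
          · refine ⟨?_, rfl⟩
            have : (m u : ℝ) = m v := by linarith
            exact_mod_cast this
        rcases hm2 u v hmm.1 with h3 | h3
        · exact Or.inl h3.symm
        · exfalso
          have h4 := hmm.2
          rw [h3, hsg] at h4
          have h5 : sg u = 0 := by linarith
          exact hu (hsg0 u h5)

lemma prd_affine (a b c d : V → ℝ) (ε : ℝ) (e : Sym2 V) :
    prd (fun v => a v + ε * c v) (fun v => b v + ε * d v) e =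
      prd a b e + ε * (prd a d e + prd c b e) + ε ^ 2 * prd c d e := by
  induction e with
  | _ u v => simp only [prd_mk]; ring

lemma prd_cont (a b c d : V → ℝ) (e : Sym2 V) :
    ContinuousAt (fun ε : ℝ => prd (fun v => a v + ε * c v) (fun v => b v + ε * d v) e) 0 := by
  simp only [prd_affine]
  fun_prop

lemma prd_zero (a b c d : V → ℝ) (e : Sym2 V) :
    prd (fun v => a v + (0 : ℝ) * c v) (fun v => b v + (0 : ℝ) * d v) e = prd a b e := by
  simp

theorem Sol.generic [Finite V] {G : Finset (Sym2 V)} {s : V → V} (hs : ∀ v, s (s v) = v)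
    (h : Sol G s) : GSol G s := by
  obtain ⟨α, β, ha, hb, hG, hF⟩ := h
  obtain ⟨a, b, ha1, hb1, ha2, hb2⟩ := exists_generic s hs
  have E1 : ∀ᶠ ε in 𝓝[>] (0 : ℝ), ∀ e ∈ G,
      (prd (fun v => α v + ε * a v) (fun v => β v + ε * b v) e ≠ 0 ∧
        (0 < prd (fun v => α v + ε * a v) (fun v => β v + ε * b v) e ↔ 0 < prd α β e)) := by
    rw [Filter.eventually_all_finset]
    intro e he
    have := eventually_sign _ (prd_cont α β a b e) (by rw [prd_zero]; exact hG e he)
    simpa only [prd_zero] using this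
  have E2 : ∀ᶠ ε in 𝓝[>] (0 : ℝ), ∀ u v : V, (a u ≠ a v) →
      α u - α v + ε * (a u - a v) ≠ 0 := by
    rw [Filter.eventually_all]
    intro u
    rw [Filter.eventually_all]
    intro v
    by_cases h : a u = a v
    · simp [h]
    · filter_upwards [eventually_ne (α u - α v) (a u - a v) (Or.inr (sub_ne_zero.2 h))] with ε hε _
      exact hε
  have E3 : ∀ᶠ ε in 𝓝[>] (0 : ℝ), ∀ u v : V, (b u ≠ b v) →
      β u - β v + ε * (b u - b v) ≠ 0 := by
    rw [Filter.eventually_all]
    intro u
    rw [Filter.eventually_all]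
    intro v
    by_cases h : b u = b v
    · simp [h]
    · filter_upwards [eventually_ne (β u - β v) (b u - b v) (Or.inr (sub_ne_zero.2 h))] with ε hε _
      exact hε
  obtain ⟨ε, h1, h2, h3⟩ := (E1.and (E2.and E3)).exists
  refine ⟨fun v => α v + ε * a v, fun v => β v + ε * b v, ?_, ?_, fun e he => (h1 e he).1, ?_, ?_, ?_⟩
  · intro v; simp only [ha, ha1]
  · intro v; simp only [hb, hb1]; ring
  · have : pos G (fun v => α v + ε * a v) (fun v => β v + ε * b v) = pos G α β := by
      ext e
      rw [mem_pos, mem_pos]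
      constructor
      · rintro ⟨h4, h5⟩; exact ⟨h4, (h1 e h4).2.1 h5⟩
      · rintro ⟨h4, h5⟩; exact ⟨h4, (h1 e h4).2.2 h5⟩
    rw [this]
    exact hF
  · intro u v h
    by_contra hne
    have h4 : a u ≠ a v := fun h5 => hne (ha2 u v h5)
    have := h2 u v h4
    apply this
    simp only at h
    linarith
  · intro u v h
    by_contra hne
    have h4 : b u ≠ b v := fun h5 => hne (hb2 u v h5)
    have := h3 u v h4
    apply this
    simp only at h
    linarith

end Pool.Agent.Lib.MP_236c69_co
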