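import Pool.Agent.Lib.MP_236c69_co.Structure

set_option autoImplicit false
set_option linter.unusedSectionVars false
set_option linter.unusedSimpArgs false
set_option linter.unusedVariables false

namespace Pool.Agent.Lib.MP_236c69_co

open Finset

variable {V : Type*} [DecidableEq V]

lemma hinj_of {G : Finset (Sym2 V)} {π : V → V}
    (C : ∀ u v u' v', s(u, v) ∈ G → s(u', v') ∈ G → π u = π u' → π v = π v' → π u ≠ π v → u = u') :
    ∀ u v u' v', s(u, v) ∈ G → s(u', v') ∈ G → π u = π u' → π v = π v' → π u ≠ π v →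
      u = u' ∧ v = v' := by
  intro u v u' v' h1 h2 h3 h4 h5
  refine ⟨C u v u' v' h1 h2 h3 h4 h5, C v u v' u' ?_ ?_ h4 h3 h5.symm⟩
  · rwa [Sym2.eq_swap]
  · rwa [Sym2.eq_swap]

lemma Good.tight_singleton {G : Finset (Sym2 V)} {s : V → V} (h : Good G s) (v : V) :
    Tight G {v} := by
  have : ins G {v} = ∅ := by
    apply eq_empty_of_forall_notMem
    intro e
    induction e with
    | _ a b =>
      intro he
      rw [mem_ins_mk, mem_singleton, mem_singleton] at he
      obtain ⟨h1, rfl, rfl⟩ := he
      exact h.nodiag _ h1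
  unfold Tight
  rw [this]
  simp

theorem contractY [Fintype V] {G : Finset (Sym2 V)} {s : V → V} (h : Good G s) (Y : Finset V)
    (hYs : ∀ v ∈ Y, s v ∈ Y) (hY : Tight G Y) (h2 : 2 ≤ Y.card) (hne : Y ≠ supp G)
    (hN : ∀ u, u ∉ Y → ∀ a ∈ Y, ∀ b ∈ Y, s(u, a) ∈ G → s(u, b) ∈ G → a = b)
    (IH : ∀ (G' : Finset (Sym2 V)) (s' : V → V), G'.card < G.card → Good G' s' → Sol G' s') :
    Sol G s := by
  obtain ⟨y0, hy0⟩ := hY.nonempty
  have hYs' : ∀ v, v ∉ Y → s v ∉ Y := by
    intro v hv hsv
    apply hv
    have := hYs _ hsv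
    rwa [h.inv] at this
  let π : V → V := fun v => if v ∈ Y then y0 else v
  let s' : V → V := fun v => if v ∈ Y then v else s v
  have π1 : ∀ v ∈ Y, π v = y0 := fun v hv => by simp [π, hv]
  have π2 : ∀ v, v ∉ Y → π v = v := fun v hv => by simp [π, hv]
  refine move_contract h π s' ?_ ?_ ?_ ?_ ?_ ?_ IH
  · intro v
    by_cases hv : v ∈ Y
    · simp [s', hv]
    · simp [s', hv, hYs' v hv, h.inv]
  · intro v
    by_cases hv : v ∈ Y
    · rw [π1 _ (hYs v hv), π1 v hv]
      simp [s', hy0]
    · rw [π2 _ (hYs' v hv), π2 v hv]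
      simp [s', hv]
  · apply hinj_of
    intro u v u' v' e1 e2 e3 e4 e5
    by_contra hcon
    have huY : u ∈ Y := by
      by_contra hu
      rw [π2 u hu] at e3
      by_cases hu' : u' ∈ Y
      · rw [π1 _ hu'] at e3
        rw [e3] at hu
        exact hu hy0
      · rw [π2 _ hu'] at e3
        exact hcon e3
    have hu'Y : u' ∈ Y := by
      by_contra hu'
      rw [π1 u huY, π2 _ hu'] at e3
      rw [← e3] at hu'
      exact hu' hy0
    have hvY : v ∉ Y := by
      intro hv
      rw [π1 _ huY, π1 _ hv] at e5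
      exact e5 rfl
    have hv' : v = v' := by
      rw [π2 _ hvY] at e4
      by_cases hv' : v' ∈ Y
      · rw [π1 _ hv'] at e4
        rw [e4] at hvY
        exact absurd hy0 hvY
      · rwa [π2 _ hv'] at e4
    subst hv'
    exact hcon (hN v hvY u huY u' hu'Y (by rwa [Sym2.eq_swap]) (by rwa [Sym2.eq_swap]))
  · intro v
    by_cases hv : v ∈ Y
    · have : univ.filter (fun w => π w = π v) = Y := by
        ext w
        simp only [mem_filter, mem_univ, true_and]
        rw [π1 v hv]
        constructor
        · intro hw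
          by_contra hwY
          rw [π2 w hwY] at hw
          rw [hw] at hwY
          exact hwY hy0
        · exact π1 w
      rw [this]
      exact hY
    · have : univ.filter (fun w => π w = π v) = {v} := by
        ext w
        simp only [mem_filter, mem_univ, true_and, mem_singleton]
        rw [π2 v hv]
        constructor
        · intro hw
          by_cases hwY : w ∈ Y
          · rw [π1 w hwY] at hw
            rw [← hw] at hv
            exact absurd hy0 hv
          · rwa [π2 w hwY] at hw
        · rintro rfl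
          exact π2 w hv
      rw [this]
      exact h.tight_singleton v
  · have hpos : 0 < (ins G Y).card := by
      unfold Tight at hY
      omega
    obtain ⟨e, he⟩ := card_pos.1 hpos
    refine ⟨e, ins_subset _ _ he, ?_⟩
    revert he
    induction e with
    | _ a b =>
      intro he
      rw [mem_ins_mk] at he
      simp only [Sym2.map_mk, Sym2.mk_isDiag_iff]
      rw [π1 _ he.2.1, π1 _ he.2.2]
  · have hsub := hY.subset_supp h.sparse h2
    obtain ⟨u, hu1, hu2⟩ := Finset.exists_of_ssubset (hsub.ssubset_of_ne hne)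
    rw [mem_supp] at hu1
    obtain ⟨w, hw⟩ := hu1
    rw [mem_nb] at hw
    refine ⟨s(u, w), hw, ?_⟩
    simp only [Sym2.map_mk, Sym2.mk_isDiag_iff]
    rw [π2 u hu2]
    by_cases hwY : w ∈ Y
    · rw [π1 w hwY]
      rintro rfl
      exact hu2 hy0
    · rw [π2 w hwY]
      exact h.ne hw

theorem contractX [Fintype V] {G : Finset (Sym2 V)} {s : V → V} (h : Good G s) (X : Finset V)
    (hX : Tight G X) (h2 : 2 ≤ X.card) (hd : ∀ v ∈ X, s v ∉ X)
    (hc : ∀ a ∈ X, ∀ b ∈ X, s(a, s b) ∉ G)
    (hN : ∀ u, u ∉ X → s u ∉ X → ∀ a ∈ X, ∀ b ∈ X, s(u, a) ∈ G → s(u, b) ∈ G → a = b)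
    (hout : ∃ u ∈ supp G, u ∉ X ∧ s u ∉ X)
    (IH : ∀ (G' : Finset (Sym2 V)) (s' : V → V), G'.card < G.card → Good G' s' → Sol G' s') :
    Sol G s := by
  obtain ⟨x0, hx0⟩ := hX.nonempty
  have hx0' := hd x0 hx0
  let π : V → V := fun v => if v ∈ X then x0 else if s v ∈ X then s x0 else v
  have π1 : ∀ v ∈ X, π v = x0 := fun v hv => by simp [π, hv]
  have π2 : ∀ v, s v ∈ X → π v = s x0 := fun v hv => by
    have : v ∉ X := by
      intro h'
      exact hd v h' hv
    simp [π, hv, this]
  have π3 : ∀ v, v ∉ X → s v ∉ X → π v = v := fun v hv hv' => by simp [π, hv, hv']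
  have hne0 : x0 ≠ s x0 := by
    intro h'
    rw [← h'] at hx0'
    exact hx0' hx0
  have hπ : ∀ v, π (s v) = s (π v) := by
    intro v
    by_cases hv : v ∈ X
    · rw [π1 v hv, π2 (s v) (by rwa [h.inv])]
    · by_cases hv' : s v ∈ X
      · rw [π1 _ hv', π2 v hv', h.inv]
      · rw [π3 v hv hv', π3 (s v) hv' (by rwa [h.inv])]
  have f1 : ∀ v, π v = x0 ↔ v ∈ X := by
    intro v
    constructor
    · intro hv
      by_contra hvX
      by_cases hv' : s v ∈ X
      · rw [π2 v hv'] at hv
        exact hne0 hv.symm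
      · rw [π3 v hvX hv'] at hv
        rw [hv] at hvX
        exact hvX hx0
    · exact π1 v
  have f2 : ∀ v, π v = s x0 ↔ s v ∈ X := by
    intro v
    rw [← f1, hπ]
    constructor
    · intro hv
      rw [hv, h.inv]
    · intro hv
      rw [← hv, h.inv]
  have f3 : ∀ v w, v ∉ X → s v ∉ X → (π w = v ↔ w = v) := by
    intro v w hv hv'
    constructor
    · intro hw
      by_cases hwX : w ∈ X
      · rw [π1 w hwX] at hw
        rw [← hw] at hv
        exact absurd hx0 hv
      · by_cases hw' : s w ∈ X
        · rw [π2 w hw'] at hw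
          rw [← hw, h.inv] at hv'
          exact absurd hx0 hv'
        · rwa [π3 w hwX hw'] at hw
    · rintro rfl
      exact π3 w hv hv'
  have C1 : ∀ u v u' v', s(u, v) ∈ G → s(u', v') ∈ G → π u = π u' → π v = π v' → π u ≠ π v →
      u ∈ X → u = u' := by
    intro u v u' v' e1 e2 e3 e4 e5 hu
    rw [π1 u hu] at e3 e5
    have hu' : u' ∈ X := (f1 u').1 e3.symm
    have hv : v ∉ X := fun hv => e5 (π1 v hv).symm
    have hv' : s v ∉ X := by
      intro hv'
      apply hc u hu (s v) hv'
      rwa [h.inv]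
    rw [π3 v hv hv'] at e4
    have e6 := (f3 v v' hv hv').1 e4.symm
    subst e6
    exact hN v' hv hv' u hu u' hu' (by rwa [Sym2.eq_swap]) (by rwa [Sym2.eq_swap])
  refine move_contract h π s h.inv hπ ?_ ?_ ?_ ?_ IH
  · apply hinj_of
    intro u v u' v' e1 e2 e3 e4 e5
    by_cases hu : u ∈ X
    · exact C1 u v u' v' e1 e2 e3 e4 e5 hu
    · by_cases hu' : s u ∈ X
      · apply h.inj
        refine C1 (s u) (s v) (s u') (s v') (h.sym _ _ e1) (h.sym _ _ e2) ?_ ?_ ?_ hu'
        · rw [hπ, hπ, e3]
        · rw [hπ, hπ, e4]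
        · rw [hπ, hπ]
          intro h'
          exact e5 (h.inj h')
      · rw [π3 u hu hu'] at e3
        exact ((f3 u u' hu hu').1 e3.symm).symm
  · intro v
    by_cases hv : v ∈ X
    · have : univ.filter (fun w => π w = π v) = X := by
        ext w
        simp only [mem_filter, mem_univ, true_and]
        rw [π1 v hv, f1]
      rw [this]
      exact hX
    · by_cases hv' : s v ∈ X
      · have : univ.filter (fun w => π w = π v) = X.image s := by
          ext w
          simp only [mem_filter, mem_univ, true_and]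
          rw [π2 v hv', f2, h.mem_image_s]
        rw [this]
        exact h.tight_image hX
      · have : univ.filter (fun w => π w = π v) = {v} := by
          ext w
          simp only [mem_filter, mem_univ, true_and, mem_singleton]
          rw [π3 v hv hv', f3 v w hv hv']
        rw [this]
        exact h.tight_singleton v
  · have hpos : 0 < (ins G X).card := by
      unfold Tight at hX
      omega
    obtain ⟨e, he⟩ := card_pos.1 hpos
    refine ⟨e, ins_subset _ _ he, ?_⟩
    revert he
    induction e with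
    | _ a b =>
      intro he
      rw [mem_ins_mk] at he
      simp only [Sym2.map_mk, Sym2.mk_isDiag_iff]
      rw [π1 _ he.2.1, π1 _ he.2.2]
  · obtain ⟨u, hu, hu1, hu2⟩ := hout
    rw [mem_supp] at hu
    obtain ⟨w, hw⟩ := hu
    rw [mem_nb] at hw
    refine ⟨s(u, w), hw, ?_⟩
    simp only [Sym2.map_mk, Sym2.mk_isDiag_iff]
    rw [π3 u hu1 hu2]
    intro h'
    have := (f3 u w hu1 hu2).1 h'.symm
    exact h.ne hw this.symm

lemma base_sol {G : Finset (Sym2 V)} {s : V → V} (h : Good G s) (P : Finset (Sym2 V))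
    (hP : Forest P) (α β : V → ℝ) (ha : ∀ v, α (s v) = α v) (hb : ∀ v, β (s v) = - β v)
    (hcov : ∀ e ∈ G, e ∈ P ∨ Sym2.map s e ∈ P) (hpos : ∀ e ∈ P, 0 < prd α β e) : Sol G s := by
  have hneg : ∀ e, prd α β (Sym2.map s e) = - prd α β e := by
    intro e
    induction e with
    | _ u v =>
      simp only [Sym2.map_mk, prd_mk, ha, hb]
      ring
  refine ⟨α, β, ha, hb, ?_, hP.mono ?_⟩
  · intro e he
    rcases hcov e he with h1 | h1
    · exact (hpos e h1).ne'
    · have := hpos _ h1
      rw [hneg] at this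
      intro h0
      rw [h0] at this
      simp at this
  · intro e he
    rw [mem_pos] at he
    rcases hcov e he.1 with h1 | h1
    · exact h1
    · have := hpos _ h1
      rw [hneg] at this
      linarith [he.2]

/-- symmetric indicator -/
noncomputable def ind1 (s : V → V) (v x : V) : ℝ := if x = v ∨ x = s v then 1 else 0

/-- antisymmetric indicator -/
noncomputable def ind2 (s : V → V) (v x : V) : ℝ :=
  (if x = v then 1 else 0) - (if x = s v then 1 else 0)

lemma ind1_s {s : V → V} (hs : ∀ v, s (s v) = v) (v x : V) : ind1 s v (s x) = ind1 s v x := by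
  have h1 : s x = v ↔ x = s v := by
    constructor
    · rintro rfl; exact (hs x).symm
    · rintro rfl; exact hs v
  have h2 : s x = s v ↔ x = v := by
    constructor
    · intro h
      have := congrArg s h
      rwa [hs, hs] at this
    · rintro rfl; rfl
  unfold ind1
  rw [if_congr (show (s x = v ∨ s x = s v) ↔ (x = v ∨ x = s v) by rw [h1, h2, or_comm]) rfl rfl]

lemma ind2_s {s : V → V} (hs : ∀ v, s (s v) = v) (v x : V) : ind2 s v (s x) = - ind2 s v x := by
  have h1 : s x = v ↔ x = s v := by
    constructor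
    · rintro rfl; exact (hs x).symm
    · rintro rfl; exact hs v
  have h2 : s x = s v ↔ x = v := by
    constructor
    · intro h
      have := congrArg s h
      rwa [hs, hs] at this
    · rintro rfl; rfl
  unfold ind2
  rw [if_congr h1 rfl rfl, if_congr h2 rfl rfl]
  ring

lemma base_W4 {G : Finset (Sym2 V)} {s : V → V} (h : Good G s) (t v w : V)
    (ht : s t = t) (hv : s v ≠ v) (hw : s w ≠ w) (hwv : w ≠ v) (hwv' : w ≠ s v)
    (hG : ∀ e ∈ G, e = s(t, v) ∨ e = s(t, s v) ∨ e = s(t, w) ∨ e = s(t, s w) ∨ e = s(v, w) ∨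
      e = s(v, s w) ∨ e = s(s v, w) ∨ e = s(s v, s w)) : Sol G s := by
  have tv : t ≠ v := by rintro rfl; exact hv ht
  have tw : t ≠ w := by rintro rfl; exact hw ht
  have tsv : t ≠ s v := by
    intro h'
    apply tv
    rw [← ht] at h'
    exact h.inj h'
  have tsw : t ≠ s w := by
    intro h'
    apply tw
    rw [← ht] at h'
    exact h.inj h'
  have svsw : s v ≠ s w := fun h' => hwv (h.inj h').symm
  have vsw : v ≠ s w := by
    intro h'
    apply hwv'
    rw [h', h.inv]
  refine base_sol h (insert s(s w, s v) (insert s(s v, w) (insert s(w, t) (insert s(v, t) ∅))))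
    ?_ (fun x => ind1 s v x + 2 * ind1 s w x) (fun x => 2 * ind2 s v x + ind2 s w x) ?_ ?_ ?_ ?_
  · refine forest_leaf (forest_leaf (forest_leaf (forest_leaf forest_empty ?_ ?_) ?_ ?_) ?_ ?_) ?_ ?_
    · simp
    · exact tv
    · intro e he
      simp only [mem_insert, notMem_empty, or_false] at he
      subst he
      rw [Sym2.mem_iff]
      tauto
    · exact tw
    · intro e he
      simp only [mem_insert, notMem_empty, or_false] at he
      rcases he with rfl | rfl <;> rw [Sym2.mem_iff] <;> tauto
    · exact hwv'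
    · intro e he
      simp only [mem_insert, notMem_empty, or_false] at he
      rcases he with rfl | rfl | rfl <;> rw [Sym2.mem_iff] <;> tauto
    · exact svsw
  · intro x; simp only [ind1_s h.inv]
  · intro x; simp only [ind2_s h.inv]; ring
  · intro e he
    rcases hG e he with rfl | rfl | rfl | rfl | rfl | rfl | rfl | rfl <;>
      simp [h.inv, ht, Sym2.eq_iff, tv, tw, tsv, tsw, tv.symm, tw.symm, tsv.symm, tsw.symm]
  · intro e he
    simp only [mem_insert, notMem_empty, or_false] at he
    rcases he with rfl | rfl | rfl | rfl <;>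
      simp [prd_mk, ind1, ind2, h.inv, ht, tv, tw, tsv, tsw, tv.symm, tw.symm, tsv.symm, tsw.symm,
        hv, hw, hwv, hwv', svsw, vsw, hv.symm, hw.symm, hwv.symm, hwv'.symm, svsw.symm,
        vsw.symm] <;> norm_num

end Pool.Agent.Lib.MP_236c69_co
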