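import Pool.Agent.Lib.MP_236c69_co.Contract

set_option autoImplicit false
set_option linter.unusedSectionVars false
set_option linter.unusedSimpArgs false
set_option linter.unusedVariables false

namespace Pool.Agent.Lib.MP_236c69_co

open Finset

variable {V : Type*} [DecidableEq V]

/-- tight sets -/
def Tight (G : Finset (Sym2 V)) (X : Finset V) : Prop := (ins G X).card + 2 = 2 * X.card

lemma Tight.nonempty {G : Finset (Sym2 V)} {X : Finset V} (h : Tight G X) : X.Nonempty := by
  rw [← card_pos]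
  unfold Tight at h
  omega

lemma card_ins_insert_vertex (G : Finset (Sym2 V)) {X A : Finset V} {u : V} (hu : u ∉ X)
    (hA : A ⊆ X) (hA' : ∀ w ∈ A, s(u, w) ∈ G) :
    (ins G X).card + A.card ≤ (ins G (insert u X)).card := by
  have h1 : (A.image (fun w => s(u, w))).card = A.card := by
    apply card_image_of_injective
    intro a b hab
    exact Sym2.congr_right.1 hab
  have h2 : Disjoint (ins G X) (A.image (fun w => s(u, w))) := by
    rw [disjoint_left]
    intro e he hf
    rw [mem_image] at hf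
    obtain ⟨w, hw, rfl⟩ := hf
    rw [mem_ins_mk] at he
    exact hu he.2.1
  rw [← h1, ← card_union_of_disjoint h2]
  apply card_le_card
  intro e he
  rw [mem_union] at he
  rcases he with he | he
  · exact ins_mono_right G (subset_insert _ _) he
  · rw [mem_image] at he
    obtain ⟨w, hw, rfl⟩ := he
    rw [mem_ins_mk]
    exact ⟨hA' w hw, mem_insert_self _ _, mem_insert_of_mem (hA hw)⟩

lemma Tight.card_le_two {G : Finset (Sym2 V)} (hG : Sparse G) {X A : Finset V} {u : V}
    (hX : Tight G X) (hu : u ∉ X) (hA : A ⊆ X) (hA' : ∀ w ∈ A, s(u, w) ∈ G) : A.card ≤ 2 := by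
  have h1 := card_ins_insert_vertex G hu hA hA'
  have h2 := hG (insert u X) (insert_nonempty _ _)
  rw [card_insert_of_notMem hu] at h2
  unfold Tight at hX
  omega

lemma Tight.insert {G : Finset (Sym2 V)} (hG : Sparse G) {X A : Finset V} {u : V}
    (hX : Tight G X) (hu : u ∉ X) (hA : A ⊆ X) (hA' : ∀ w ∈ A, s(u, w) ∈ G) (h2 : 2 ≤ A.card) :
    Tight G (insert u X) := by
  have h1 := card_ins_insert_vertex G hu hA hA'
  have h3 := hG (Insert.insert u X) (insert_nonempty _ _)
  unfold Tight at hX ⊢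
  rw [card_insert_of_notMem hu] at h3 ⊢
  omega

lemma submod (G : Finset (Sym2 V)) (A B : Finset V) :
    (ins G A).card + (ins G B).card ≤ (ins G (A ∪ B)).card + (ins G (A ∩ B)).card := by
  rw [← card_union_add_card_inter]
  have h1 : ins G A ∪ ins G B ⊆ ins G (A ∪ B) := by
    apply union_subset
    · exact ins_mono_right G subset_union_left
    · exact ins_mono_right G subset_union_right
  have h2 : ins G A ∩ ins G B ⊆ ins G (A ∩ B) := by
    intro e he
    rw [mem_inter, mem_ins, mem_ins] at he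
    rw [mem_ins]
    exact ⟨he.1.1, fun v hv => mem_inter.2 ⟨he.1.2 v hv, he.2.2 v hv⟩⟩
  exact add_le_add (card_le_card h1) (card_le_card h2)

lemma Good.map_mem {G : Finset (Sym2 V)} {s : V → V} (h : Good G s) {e : Sym2 V} (he : e ∈ G) :
    Sym2.map s e ∈ G := by
  induction e with
  | _ u v => exact h.sym u v he

lemma Good.map_map {G : Finset (Sym2 V)} {s : V → V} (h : Good G s) (e : Sym2 V) :
    Sym2.map s (Sym2.map s e) = e := by
  induction e with
  | _ u v => simp [h.inv]

lemma Good.image_image {G : Finset (Sym2 V)} {s : V → V} (h : Good G s) (X : Finset V) :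
    (X.image s).image s = X := by
  ext v
  simp only [mem_image]
  constructor
  · rintro ⟨a, ⟨b, hb, rfl⟩, rfl⟩
    rwa [h.inv]
  · intro hv
    exact ⟨s v, ⟨v, hv, rfl⟩, h.inv v⟩

lemma Good.mem_image_s {G : Finset (Sym2 V)} {s : V → V} (h : Good G s) {X : Finset V} {v : V} :
    v ∈ X.image s ↔ s v ∈ X := by
  rw [mem_image]
  constructor
  · rintro ⟨a, ha, rfl⟩
    rwa [h.inv]
  · intro hv
    exact ⟨s v, hv, h.inv v⟩

lemma Good.card_image {G : Finset (Sym2 V)} {s : V → V} (h : Good G s) (X : Finset V) :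
    (X.image s).card = X.card :=
  card_image_of_injective _ (fun _ _ hab => h.inj hab)

lemma Good.card_ins_image_le {G : Finset (Sym2 V)} {s : V → V} (h : Good G s) (X : Finset V) :
    (ins G X).card ≤ (ins G (X.image s)).card := by
  apply card_le_card_of_injOn (Sym2.map s)
  · intro e he
    rw [mem_coe, mem_ins] at he
    rw [mem_coe, mem_ins]
    refine ⟨h.map_mem he.1, ?_⟩
    intro v hv
    rw [Sym2.mem_map] at hv
    obtain ⟨a, ha, rfl⟩ := hv
    exact mem_image_of_mem _ (he.2 a ha)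
  · intro e _ f _ hef
    have := congrArg (Sym2.map s) hef
    rwa [h.map_map, h.map_map] at this

lemma Good.card_ins_image {G : Finset (Sym2 V)} {s : V → V} (h : Good G s) (X : Finset V) :
    (ins G (X.image s)).card = (ins G X).card := by
  apply le_antisymm _ (h.card_ins_image_le X)
  have := h.card_ins_image_le (X.image s)
  rwa [h.image_image] at this

lemma Good.tight_image {G : Finset (Sym2 V)} {s : V → V} (h : Good G s) {X : Finset V}
    (hX : Tight G X) : Tight G (X.image s) := by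
  unfold Tight at hX ⊢
  rw [h.card_ins_image, h.card_image]
  exact hX

lemma even_of_invol {α : Type*} [DecidableEq α] (A : Finset α) (g : α → α)
    (hg : ∀ a ∈ A, g a ∈ A) (hgg : ∀ a ∈ A, g (g a) = a) (hne : ∀ a ∈ A, g a ≠ a) :
    Even A.card := by
  have h1 : (∑ x ∈ A, (1 : ZMod 2)) = 0 := by
    apply Finset.sum_involution (fun a _ => g a)
    · intro a ha
      decide
    · intro a ha _
      exact hne a ha
    · intro a ha
      exact hg a ha
    · intro a ha
      exact hgg a ha
  rw [sum_const, nsmul_eq_mul, mul_one] at h1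
  exact (ZMod.natCast_eq_zero_iff_even).1 h1

lemma Good.even_ins {G : Finset (Sym2 V)} {s : V → V} (h : Good G s) {X : Finset V}
    (hX : ∀ v ∈ X, s v ∈ X) : Even (ins G X).card := by
  apply even_of_invol _ (Sym2.map s)
  · intro e he
    rw [mem_ins] at he ⊢
    refine ⟨h.map_mem he.1, ?_⟩
    intro v hv
    rw [Sym2.mem_map] at hv
    obtain ⟨a, ha, rfl⟩ := hv
    exact hX _ (he.2 a ha)
  · intro e he
    exact h.map_map e
  · intro e he
    rw [mem_ins] at he
    revert he
    induction e with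
    | _ u v =>
      intro he
      exact h.nofix u v he.1

/-- If there is no symmetric tight set (with at least two vertices) avoiding `u`, then there is no
obstruction to adding two edges. -/
lemma Good.four_le {G : Finset (Sym2 V)} {s : V → V} (h : Good G s) (u : V)
    (H : ∀ Y : Finset V, (∀ v ∈ Y, s v ∈ Y) → 2 ≤ Y.card → u ∉ Y → ¬ Tight G Y)
    (Z : Finset V) (hu : u ∉ Z) (hu' : s u ∉ Z) (w₁ w₂ : V) (hw : w₁ ≠ w₂)
    (h1 : w₁ ∈ Z) (h2 : w₂ ∈ Z) (h1' : s w₁ ∈ Z) (h2' : s w₂ ∈ Z) :
    (ins G Z).card + 4 ≤ 2 * Z.card := by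
  have key : ∀ Y : Finset V, (∀ v ∈ Y, s v ∈ Y) → w₁ ∈ Y → w₂ ∈ Y → u ∉ Y →
      (ins G Y).card + 4 ≤ 2 * Y.card := by
    intro Y hY y1 y2 yu
    have h3 : 2 ≤ Y.card := by
      have : ({w₁, w₂} : Finset V) ⊆ Y := by
        intro v hv
        simp only [mem_insert, mem_singleton] at hv
        rcases hv with rfl | rfl <;> assumption
      have := card_le_card this
      rwa [card_pair hw] at this
    have h4 := H Y hY h3 yu
    have h5 := h.sparse Y ⟨w₁, y1⟩
    have h6 := h.even_ins hY
    unfold Tight at h4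
    obtain ⟨k, hk⟩ := h6
    omega
  have k1 := key (Z ∩ Z.image s) (by
    intro v hv
    rw [mem_inter, h.mem_image_s] at hv ⊢
    rw [h.inv]
    exact ⟨hv.2, hv.1⟩)
    (by rw [mem_inter, h.mem_image_s]; exact ⟨h1, h1'⟩)
    (by rw [mem_inter, h.mem_image_s]; exact ⟨h2, h2'⟩)
    (by rw [mem_inter]; tauto)
  have k2 := key (Z ∪ Z.image s) (by
    intro v hv
    rw [mem_union, h.mem_image_s] at hv ⊢
    rw [h.inv]
    tauto)
    (by rw [mem_union]; exact Or.inl h1)
    (by rw [mem_union]; exact Or.inl h2)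
    (by rw [mem_union, h.mem_image_s]; tauto)
  have k3 := submod G Z (Z.image s)
  rw [h.card_ins_image] at k3
  have k4 := card_union_add_card_inter Z (Z.image s)
  rw [h.card_image] at k4
  omega

lemma Good.del_good {G : Finset (Sym2 V)} {s : V → V} (h : Good G s) (u : V) :
    Good (del G s u) s := by
  refine ⟨h.inv, ?_, ?_, h.sparse.mono (filter_subset _ _)⟩
  · intro a b hab
    rw [mem_del] at hab ⊢
    refine ⟨h.sym _ _ hab.1, ?_, ?_⟩
    · rw [Sym2.mem_iff]
      rintro (h1 | h1)
      · apply hab.2.2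
        rw [h1, h.inv]
        simp
      · apply hab.2.2
        rw [h1, h.inv]
        simp
    · rw [Sym2.mem_iff]
      rintro (h1 | h1)
      · apply hab.2.1
        rw [h.inj h1]
        simp
      · apply hab.2.1
        rw [h.inj h1]
        simp
  · intro a b hab
    exact h.nofix _ _ (mem_del.1 hab).1

/-- the reduced graph is good -/
lemma Good.reduce {G : Finset (Sym2 V)} {s : V → V} (h : Good G s) (u w₁ w₂ : V)
    (n1 : w₁ ≠ u) (n2 : w₂ ≠ u) (n1' : w₁ ≠ s u) (n2' : w₂ ≠ s u)
    (hfix : s(s w₁, s w₂) ≠ s(w₁, w₂))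
    (B1 : ∀ Z : Finset V, u ∉ Z → s u ∉ Z → w₁ ∈ Z → w₂ ∈ Z → (ins G Z).card + 3 ≤ 2 * Z.card)
    (B2 : ∀ Z : Finset V, u ∉ Z → s u ∉ Z → w₁ ∈ Z → w₂ ∈ Z → s w₁ ∈ Z → s w₂ ∈ Z →
      (ins G Z).card + 4 ≤ 2 * Z.card) :
    Good (insert s(w₁, w₂) (insert s(s w₁, s w₂) (del G s u))) s := by
  have hd := h.del_good u
  refine ⟨h.inv, ?_, ?_, ?_⟩
  · intro a b hab
    rw [mem_insert, mem_insert] at hab ⊢
    rcases hab with hab | hab | hab
    · right; left
      rw [Sym2.eq_iff] at hab ⊢
      rcases hab with ⟨rfl, rfl⟩ | ⟨rfl, rfl⟩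
      · left; exact ⟨rfl, rfl⟩
      · right; exact ⟨rfl, rfl⟩
    · left
      rw [Sym2.eq_iff] at hab ⊢
      rcases hab with ⟨rfl, rfl⟩ | ⟨rfl, rfl⟩
      · left; exact ⟨h.inv _, h.inv _⟩
      · right; exact ⟨h.inv _, h.inv _⟩
    · right; right
      exact hd.sym _ _ hab
  · intro a b hab
    rw [mem_insert, mem_insert] at hab
    rcases hab with hab | hab | hab
    · have : s(s a, s b) = Sym2.map s s(a, b) := rfl
      rw [this, hab]
      exact hfix
    · have : s(s a, s b) = Sym2.map s s(a, b) := rfl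
      rw [this, hab, Sym2.map_mk, h.inv, h.inv]
      exact hfix.symm
    · exact hd.nofix _ _ hab
  · intro Z hZ
    set Z0 := (Z.erase u).erase (s u) with hZ0
    have a1 : u ∉ Z0 := by simp [hZ0]
    have a2 : s u ∉ Z0 := by simp [hZ0]
    have a3 : ins (del G s u) Z ⊆ ins G Z0 := by
      intro e he
      rw [mem_ins, mem_del] at he
      rw [mem_ins]
      refine ⟨he.1.1, ?_⟩
      intro v hv
      rw [hZ0, mem_erase, mem_erase]
      refine ⟨?_, ?_, he.2 v hv⟩
      · rintro rfl; exact he.1.2.2 hv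
      · rintro rfl; exact he.1.2.1 hv
    have a4 := card_le_card a3
    have a5 : Z0.card ≤ Z.card :=
      card_le_card ((erase_subset _ _).trans (erase_subset _ _))
    have b1 : w₁ ∈ Z → w₁ ∈ Z0 := fun hw => mem_erase.2 ⟨n1', mem_erase.2 ⟨n1, hw⟩⟩
    have b2 : w₂ ∈ Z → w₂ ∈ Z0 := fun hw => mem_erase.2 ⟨n2', mem_erase.2 ⟨n2, hw⟩⟩
    have n1s : s w₁ ≠ u := fun h' => n1' (by rw [← h', h.inv])
    have n2s : s w₂ ≠ u := fun h' => n2' (by rw [← h', h.inv])
    have n1s' : s w₁ ≠ s u := fun h' => n1 (h.inj h')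
    have n2s' : s w₂ ≠ s u := fun h' => n2 (h.inj h')
    have b3 : s w₁ ∈ Z → s w₁ ∈ Z0 := fun hw => mem_erase.2 ⟨n1s', mem_erase.2 ⟨n1s, hw⟩⟩
    have b4 : s w₂ ∈ Z → s w₂ ∈ Z0 := fun hw => mem_erase.2 ⟨n2s', mem_erase.2 ⟨n2s, hw⟩⟩
    by_cases c1 : w₁ ∈ Z ∧ w₂ ∈ Z
    · by_cases c2 : s w₁ ∈ Z ∧ s w₂ ∈ Z
      · have := B2 Z0 a1 a2 (b1 c1.1) (b2 c1.2) (b3 c2.1) (b4 c2.2)
        have d1 := card_ins_insert_le (insert s(s w₁, s w₂) (del G s u)) s(w₁, w₂) Z
        have d2 := card_ins_insert_le (del G s u) s(s w₁, s w₂) Z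
        omega
      · have := B1 Z0 a1 a2 (b1 c1.1) (b2 c1.2)
        have d1 := card_ins_insert_le (insert s(s w₁, s w₂) (del G s u)) s(w₁, w₂) Z
        have d2 : ins (insert s(s w₁, s w₂) (del G s u)) Z = ins (del G s u) Z := by
          rw [not_and_or] at c2
          rcases c2 with c2 | c2
          · exact ins_insert_of_not _ (Sym2.mem_mk_left _ _) c2
          · exact ins_insert_of_not _ (Sym2.mem_mk_right _ _) c2
        rw [d2] at d1
        omega
    · have d0 : ins (insert s(w₁, w₂) (insert s(s w₁, s w₂) (del G s u))) Z =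
          ins (insert s(s w₁, s w₂) (del G s u)) Z := by
        rw [not_and_or] at c1
        rcases c1 with c1 | c1
        · exact ins_insert_of_not _ (Sym2.mem_mk_left _ _) c1
        · exact ins_insert_of_not _ (Sym2.mem_mk_right _ _) c1
      rw [d0]
      by_cases c2 : s w₁ ∈ Z ∧ s w₂ ∈ Z
      · have a1' : u ∉ Z0.image s := by rw [h.mem_image_s]; exact a2
        have a2' : s u ∉ Z0.image s := by rw [h.mem_image_s, h.inv]; exact a1
        have := B1 (Z0.image s) a1' a2' (by rw [h.mem_image_s]; exact b3 c2.1)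
          (by rw [h.mem_image_s]; exact b4 c2.2)
        rw [h.card_ins_image, h.card_image] at this
        have d2 := card_ins_insert_le (del G s u) s(s w₁, s w₂) Z
        omega
      · have d2 : ins (insert s(s w₁, s w₂) (del G s u)) Z = ins (del G s u) Z := by
          rw [not_and_or] at c2
          rcases c2 with c2 | c2
          · exact ins_insert_of_not _ (Sym2.mem_mk_left _ _) c2
          · exact ins_insert_of_not _ (Sym2.mem_mk_right _ _) c2
        rw [d2]
        exact hd.sparse Z hZ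

section fintype
variable [Fintype V]

/-- neighbours -/
def nb (G : Finset (Sym2 V)) (u : V) : Finset V := univ.filter (fun w => s(u, w) ∈ G)

lemma mem_nb {G : Finset (Sym2 V)} {u w : V} : w ∈ nb G u ↔ s(u, w) ∈ G := by
  simp [nb]

lemma mem_nb_comm {G : Finset (Sym2 V)} {u w : V} : w ∈ nb G u ↔ u ∈ nb G w := by
  rw [mem_nb, mem_nb, Sym2.eq_swap]

lemma Good.nb_s {G : Finset (Sym2 V)} {s : V → V} (h : Good G s) (u : V) :
    nb G (s u) = (nb G u).image s := by
  ext v
  rw [h.mem_image_s, mem_nb, mem_nb]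
  constructor
  · intro h1
    have := h.sym _ _ h1
    rwa [h.inv] at this
  · intro h1
    have := h.sym _ _ h1
    rwa [h.inv] at this

lemma Good.card_nb_s {G : Finset (Sym2 V)} {s : V → V} (h : Good G s) (u : V) :
    (nb G (s u)).card = (nb G u).card := by
  rw [h.nb_s, h.card_image]

/-- support -/
def supp (G : Finset (Sym2 V)) : Finset V := univ.filter (fun v => (nb G v).Nonempty)

lemma mem_supp {G : Finset (Sym2 V)} {v : V} : v ∈ supp G ↔ (nb G v).Nonempty := by
  simp [supp]

lemma mem_supp_of {G : Finset (Sym2 V)} {u v : V} (h : s(u, v) ∈ G) : u ∈ supp G ∧ v ∈ supp G := by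
  rw [mem_supp, mem_supp]
  exact ⟨⟨v, mem_nb.2 h⟩, ⟨u, mem_nb.2 (by rwa [Sym2.eq_swap])⟩⟩

lemma Good.supp_s {G : Finset (Sym2 V)} {s : V → V} (h : Good G s) {v : V} (hv : v ∈ supp G) :
    s v ∈ supp G := by
  rw [mem_supp] at hv ⊢
  rw [h.nb_s]
  exact hv.image s

lemma Tight.subset_supp {G : Finset (Sym2 V)} (hG : Sparse G) {X : Finset V} (hX : Tight G X)
    (h2 : 2 ≤ X.card) : X ⊆ supp G := by
  intro v hv
  rw [mem_supp]
  by_contra hne
  rw [not_nonempty_iff_eq_empty] at hne
  have h1 : ins G X = ins G (X.erase v) := by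
    ext e
    rw [mem_ins, mem_ins]
    constructor
    · rintro ⟨he, hx⟩
      refine ⟨he, fun a ha => ?_⟩
      rw [mem_erase]
      refine ⟨?_, hx a ha⟩
      rintro rfl
      obtain ⟨b, rfl⟩ := ha
      have : b ∈ nb G a := mem_nb.2 he
      rw [hne] at this
      simp at this
    · rintro ⟨he, hx⟩
      exact ⟨he, fun a ha => mem_of_mem_erase (hx a ha)⟩
  have h3 : (X.erase v).card = X.card - 1 := card_erase_of_mem hv
  have h4 : (X.erase v).Nonempty := by
    rw [← card_pos]
    omega
  have h5 := hG _ h4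
  rw [← h1] at h5
  unfold Tight at hX
  omega

lemma ins_supp (G : Finset (Sym2 V)) : ins G (supp G) = G := by
  ext e
  rw [mem_ins]
  constructor
  · exact fun h => h.1
  · intro he
    refine ⟨he, ?_⟩
    intro v hv
    obtain ⟨b, rfl⟩ := hv
    exact (mem_supp_of he).1

end fintype

end Pool.Agent.Lib.MP_236c69_co
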